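import Pool.Agent.Helper99.RC.KcSin

/-!
# Project RC, SHARP, link 3: the bilinear form of the sections `NF`, `NS` (base, rest)
-/

set_option autoImplicit false

open MeasureTheory Set Filter Topology

namespace Pool.Agent.Helper61.RC

open Helper49.LT hiding sg
open Helper95.RC
open Pool.Agent.Helper99.RC

/-- the bilinear form of `NF` -/
noncomputable def NFB (ψ : ℝ → ℝ) (N : ℕ) (a b a' b' : ℤ → ℂ) : ℝ :=
  ∑ m ∈ Finset.Icc (-(N : ℤ)) N, ((a m + b m) * (starRingEnd ℂ) (a' m + b' m)).re / (m : ℝ)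
  - (∑ m ∈ Finset.Icc (-(N : ℤ)) N, ∑ n ∈ Finset.Icc (-(N : ℤ)) N,
      (a m * (starRingEnd ℂ) (b' n) + a' m * (starRingEnd ℂ) (b n)) * Kc ψ m n).im

theorem nsq_add (x y : ℂ) : ‖x + y‖ ^ 2 = ‖x‖ ^ 2 + 2 * (x * (starRingEnd ℂ) y).re + ‖y‖ ^ 2 := by
  rw [← Complex.normSq_eq_norm_sq, ← Complex.normSq_eq_norm_sq, ← Complex.normSq_eq_norm_sq,
    Complex.normSq_add]
  ring

/-- **(3c)** `NF` of a sum -/
theorem NF_add (ψ : ℝ → ℝ) (N : ℕ) (a b a' b' : ℤ → ℂ) :
    NF ψ N (fun m => a m + a' m) (fun m => b m + b' m) =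
      NF ψ N a b + 2 * NFB ψ N a b a' b' + NF ψ N a' b' := by
  unfold NF NFB
  set S := Finset.Icc (-(N : ℤ)) N
  have h1 : ∑ m ∈ S, ‖a m + a' m + (b m + b' m)‖ ^ 2 / (m : ℝ) =
      ∑ m ∈ S, ‖a m + b m‖ ^ 2 / (m : ℝ)
        + 2 * ∑ m ∈ S, ((a m + b m) * (starRingEnd ℂ) (a' m + b' m)).re / (m : ℝ)
        + ∑ m ∈ S, ‖a' m + b' m‖ ^ 2 / (m : ℝ) := by
    rw [Finset.mul_sum, ← Finset.sum_add_distrib, ← Finset.sum_add_distrib]
    refine Finset.sum_congr rfl fun m _ => ?_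
    have e : a m + a' m + (b m + b' m) = (a m + b m) + (a' m + b' m) := by ring
    rw [e, nsq_add]
    ring
  have h2 : ∑ m ∈ S, ∑ n ∈ S, (a m + a' m) * (starRingEnd ℂ) (b n + b' n) * Kc ψ m n =
      ∑ m ∈ S, ∑ n ∈ S, a m * (starRingEnd ℂ) (b n) * Kc ψ m n
      + ∑ m ∈ S, ∑ n ∈ S, (a m * (starRingEnd ℂ) (b' n) + a' m * (starRingEnd ℂ) (b n)) * Kc ψ m n
      + ∑ m ∈ S, ∑ n ∈ S, a' m * (starRingEnd ℂ) (b' n) * Kc ψ m n := by
    rw [← Finset.sum_add_distrib, ← Finset.sum_add_distrib]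
    refine Finset.sum_congr rfl fun m _ => ?_
    rw [← Finset.sum_add_distrib, ← Finset.sum_add_distrib]
    refine Finset.sum_congr rfl fun n _ => ?_
    rw [map_add]
    ring
  rw [h1, h2, Complex.add_im, Complex.add_im]
  ring

/-- the bilinear form of the entries for the sinus shift -/
noncomputable def entB (d k ph : ℝ) (a b a' b' : ℤ → ℂ) (m n : ℤ) : ℝ :=
  2 / ((m + n : ℤ) : ℝ) * ((a m * (starRingEnd ℂ) (b' n) + a' m * (starRingEnd ℂ) (b n)) *
    CS d k ph m n).re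

/-- the bilinear form of `NS` -/
noncomputable def NSB (d k ph : ℝ) (S : Finset ℤ) (a b a' b' : ℤ → ℂ) : ℝ :=
  ∑ m ∈ S, ((a m * (starRingEnd ℂ) (a' m)).re + (b m * (starRingEnd ℂ) (b' m)).re) / (m : ℝ)
    + ∑ m ∈ S, ∑ n ∈ S, entB d k ph a b a' b' m n
    + d * (a 0 * (starRingEnd ℂ) (b' 0) + a' 0 * (starRingEnd ℂ) (b 0)).im

theorem ent_add (d k ph : ℝ) (a b a' b' : ℤ → ℂ) (m n : ℤ) :
    ent d k ph (fun m => a m + a' m) (fun m => b m + b' m) m n =
      ent d k ph a b m n + 2 * entB d k ph a b a' b' m n + ent d k ph a' b' m n := by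
  unfold ent entB
  have e : (a m + a' m) * (starRingEnd ℂ) (b n + b' n) * CS d k ph m n =
      a m * (starRingEnd ℂ) (b n) * CS d k ph m n
      + (a m * (starRingEnd ℂ) (b' n) + a' m * (starRingEnd ℂ) (b n)) * CS d k ph m n
      + a' m * (starRingEnd ℂ) (b' n) * CS d k ph m n := by
    rw [map_add]; ring
  rw [e, Complex.add_re, Complex.add_re]
  ring

/-- `NS` of a sum -/
theorem NS_add (d k ph : ℝ) (S : Finset ℤ) (a b a' b' : ℤ → ℂ) :
    NS d k ph S (fun m => a m + a' m) (fun m => b m + b' m) =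
      NS d k ph S a b + 2 * NSB d k ph S a b a' b' + NS d k ph S a' b' := by
  unfold NS NSB
  have h1 : ∑ m ∈ S, (‖a m + a' m‖ ^ 2 + ‖b m + b' m‖ ^ 2) / (m : ℝ) =
      ∑ m ∈ S, (‖a m‖ ^ 2 + ‖b m‖ ^ 2) / (m : ℝ)
      + 2 * ∑ m ∈ S, ((a m * (starRingEnd ℂ) (a' m)).re + (b m * (starRingEnd ℂ) (b' m)).re) / (m : ℝ)
      + ∑ m ∈ S, (‖a' m‖ ^ 2 + ‖b' m‖ ^ 2) / (m : ℝ) := by
    rw [Finset.mul_sum, ← Finset.sum_add_distrib, ← Finset.sum_add_distrib]
    refine Finset.sum_congr rfl fun m _ => ?_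
    rw [nsq_add, nsq_add]
    ring
  have h2 : ∑ m ∈ S, ∑ n ∈ S, ent d k ph (fun m => a m + a' m) (fun m => b m + b' m) m n =
      ∑ m ∈ S, ∑ n ∈ S, ent d k ph a b m n + 2 * ∑ m ∈ S, ∑ n ∈ S, entB d k ph a b a' b' m n
      + ∑ m ∈ S, ∑ n ∈ S, ent d k ph a' b' m n := by
    rw [Finset.mul_sum, ← Finset.sum_add_distrib, ← Finset.sum_add_distrib]
    refine Finset.sum_congr rfl fun m _ => ?_
    rw [Finset.mul_sum, ← Finset.sum_add_distrib, ← Finset.sum_add_distrib]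
    exact Finset.sum_congr rfl fun n _ => ent_add d k ph a b a' b' m n
  have h3 : (a 0 + a' 0) * (starRingEnd ℂ) (b 0 + b' 0) = a 0 * (starRingEnd ℂ) (b 0)
      + (a 0 * (starRingEnd ℂ) (b' 0) + a' 0 * (starRingEnd ℂ) (b 0))
      + a' 0 * (starRingEnd ℂ) (b' 0) := by
    rw [map_add]; ring
  rw [h1, h2, h3, Complex.add_im, Complex.add_im]
  ring

theorem NSB_self (d k ph : ℝ) (S : Finset ℤ) (a b : ℤ → ℂ) :
    NSB d k ph S a b a b = NS d k ph S a b := by
  unfold NSB NS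
  have h : ∀ x : ℂ, (x * (starRingEnd ℂ) x).re = ‖x‖ ^ 2 := fun x => by
    rw [Complex.mul_conj, Complex.ofReal_re, Complex.normSq_eq_norm_sq]
  have h1 : ∀ m n, entB d k ph a b a b m n = ent d k ph a b m n := by
    intro m n
    unfold entB ent
    have e : (a m * (starRingEnd ℂ) (b n) + a m * (starRingEnd ℂ) (b n)) * CS d k ph m n =
        ((2 : ℝ) : ℂ) * (a m * (starRingEnd ℂ) (b n) * CS d k ph m n) := by push_cast; ring
    rw [e, Complex.re_ofReal_mul]
    ring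
  simp_rw [h, h1]
  have e : (a 0 * (starRingEnd ℂ) (b 0) + a 0 * (starRingEnd ℂ) (b 0)).im =
      2 * (a 0 * (starRingEnd ℂ) (b 0)).im := by rw [Complex.add_im]; ring
  rw [e]
  ring

theorem NSB_comm (d k ph : ℝ) (S : Finset ℤ) (a b a' b' : ℤ → ℂ) :
    NSB d k ph S a b a' b' = NSB d k ph S a' b' a b := by
  unfold NSB
  have h : ∀ x y : ℂ, (x * (starRingEnd ℂ) y).re = (y * (starRingEnd ℂ) x).re := fun x y => by
    rw [Complex.mul_re, Complex.mul_re, Complex.conj_re, Complex.conj_re, Complex.conj_im,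
      Complex.conj_im]
    ring
  have h1 : ∀ m n, entB d k ph a b a' b' m n = entB d k ph a' b' a b m n := by
    intro m n
    unfold entB
    rw [add_comm (a m * (starRingEnd ℂ) (b' n))]
  simp_rw [h1]
  rw [add_comm (a 0 * (starRingEnd ℂ) (b' 0))]
  congr 2
  refine Finset.sum_congr rfl fun m _ => ?_
  rw [h (a m), h (b m)]

theorem NSB_add_right (d k ph : ℝ) (S : Finset ℤ) (a b a' b' a'' b'' : ℤ → ℂ) :
    NSB d k ph S a b (fun m => a' m + a'' m) (fun m => b' m + b'' m) =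
      NSB d k ph S a b a' b' + NSB d k ph S a b a'' b'' := by
  unfold NSB
  have h1 : ∑ m ∈ S, ((a m * (starRingEnd ℂ) (a' m + a'' m)).re
        + (b m * (starRingEnd ℂ) (b' m + b'' m)).re) / (m : ℝ) =
      ∑ m ∈ S, ((a m * (starRingEnd ℂ) (a' m)).re + (b m * (starRingEnd ℂ) (b' m)).re) / (m : ℝ)
      + ∑ m ∈ S, ((a m * (starRingEnd ℂ) (a'' m)).re
        + (b m * (starRingEnd ℂ) (b'' m)).re) / (m : ℝ) := by
    rw [← Finset.sum_add_distrib]
    refine Finset.sum_congr rfl fun m _ => ?_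
    rw [map_add, map_add, mul_add, mul_add, Complex.add_re, Complex.add_re]
    ring
  have h2 : ∑ m ∈ S, ∑ n ∈ S, entB d k ph a b (fun m => a' m + a'' m) (fun m => b' m + b'' m) m n =
      ∑ m ∈ S, ∑ n ∈ S, entB d k ph a b a' b' m n + ∑ m ∈ S, ∑ n ∈ S, entB d k ph a b a'' b'' m n := by
    rw [← Finset.sum_add_distrib]
    refine Finset.sum_congr rfl fun m _ => ?_
    rw [← Finset.sum_add_distrib]
    refine Finset.sum_congr rfl fun n _ => ?_
    unfold entB
    have e : (a m * (starRingEnd ℂ) (b' n + b'' n) + (a' m + a'' m) * (starRingEnd ℂ) (b n)) *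
        CS d k ph m n = (a m * (starRingEnd ℂ) (b' n) + a' m * (starRingEnd ℂ) (b n)) * CS d k ph m n
        + (a m * (starRingEnd ℂ) (b'' n) + a'' m * (starRingEnd ℂ) (b n)) * CS d k ph m n := by
      rw [map_add]; ring
    rw [e, Complex.add_re]
    ring
  have h3 : a 0 * (starRingEnd ℂ) (b' 0 + b'' 0) + (a' 0 + a'' 0) * (starRingEnd ℂ) (b 0) =
      (a 0 * (starRingEnd ℂ) (b' 0) + a' 0 * (starRingEnd ℂ) (b 0))
      + (a 0 * (starRingEnd ℂ) (b'' 0) + a'' 0 * (starRingEnd ℂ) (b 0)) := by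
    rw [map_add]; ring
  rw [h1, h2, h3, Complex.add_im]
  ring

theorem NSB_smul_right (d k ph : ℝ) (S : Finset ℤ) (a b a' b' : ℤ → ℂ) (c : ℝ) :
    NSB d k ph S a b (fun m => (c : ℂ) * a' m) (fun m => (c : ℂ) * b' m) =
      c * NSB d k ph S a b a' b' := by
  unfold NSB
  have hc : (starRingEnd ℂ) (c : ℂ) = (c : ℂ) := Complex.conj_ofReal c
  have h1 : ∑ m ∈ S, ((a m * (starRingEnd ℂ) ((c : ℂ) * a' m)).re
        + (b m * (starRingEnd ℂ) ((c : ℂ) * b' m)).re) / (m : ℝ) =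
      c * ∑ m ∈ S, ((a m * (starRingEnd ℂ) (a' m)).re + (b m * (starRingEnd ℂ) (b' m)).re) /
        (m : ℝ) := by
    rw [Finset.mul_sum]
    refine Finset.sum_congr rfl fun m _ => ?_
    have e1 : a m * (starRingEnd ℂ) ((c : ℂ) * a' m) = (c : ℂ) * (a m * (starRingEnd ℂ) (a' m)) := by
      rw [map_mul, hc]; ring
    have e2 : b m * (starRingEnd ℂ) ((c : ℂ) * b' m) = (c : ℂ) * (b m * (starRingEnd ℂ) (b' m)) := by
      rw [map_mul, hc]; ring
    rw [e1, e2, Complex.re_ofReal_mul, Complex.re_ofReal_mul]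
    ring
  have h2 : ∑ m ∈ S, ∑ n ∈ S, entB d k ph a b (fun m => (c : ℂ) * a' m) (fun m => (c : ℂ) * b' m) m n =
      c * ∑ m ∈ S, ∑ n ∈ S, entB d k ph a b a' b' m n := by
    rw [Finset.mul_sum]
    refine Finset.sum_congr rfl fun m _ => ?_
    rw [Finset.mul_sum]
    refine Finset.sum_congr rfl fun n _ => ?_
    unfold entB
    have e : (a m * (starRingEnd ℂ) ((c : ℂ) * b' n) + (c : ℂ) * a' m * (starRingEnd ℂ) (b n)) *
        CS d k ph m n = (c : ℂ) * ((a m * (starRingEnd ℂ) (b' n) + a' m * (starRingEnd ℂ) (b n)) *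
          CS d k ph m n) := by
      rw [map_mul, hc]; ring
    rw [e, Complex.re_ofReal_mul]
    ring
  have h3 : a 0 * (starRingEnd ℂ) ((c : ℂ) * b' 0) + (c : ℂ) * a' 0 * (starRingEnd ℂ) (b 0) =
      (c : ℂ) * (a 0 * (starRingEnd ℂ) (b' 0) + a' 0 * (starRingEnd ℂ) (b 0)) := by
    rw [map_mul, hc]; ring
  rw [h1, h2, h3, Complex.im_ofReal_mul]
  ring

/-- the rows of the gradient: coefficient of `a' m` and of `conj (b' n)` -/
noncomputable def GA (d k ph : ℝ) (S : Finset ℤ) (a b : ℤ → ℂ) (m : ℤ) : ℂ :=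
  (starRingEnd ℂ) (a m) / (m : ℂ)
    + ∑ n ∈ S, 2 / ((m + n : ℤ) : ℂ) * ((starRingEnd ℂ) (b n) * CS d k ph m n)
    + (if m = 0 then -Complex.I * d * (starRingEnd ℂ) (b 0) else 0)
noncomputable def GB (d k ph : ℝ) (S : Finset ℤ) (a b : ℤ → ℂ) (n : ℤ) : ℂ :=
  b n / (n : ℂ) + ∑ m ∈ S, 2 / ((m + n : ℤ) : ℂ) * (a m * CS d k ph m n)
    + (if n = 0 then -Complex.I * d * a 0 else 0)

/-- **the gradient form**: `NSB` with the base `(a, b)` as a linear functional of the rest `(a', b')` -/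
theorem NSB_grad (d k ph : ℝ) (S : Finset ℤ) (h0 : (0 : ℤ) ∈ S) (a b a' b' : ℤ → ℂ) :
    NSB d k ph S a b a' b' = ∑ m ∈ S, (a' m * GA d k ph S a b m).re
      + ∑ n ∈ S, ((starRingEnd ℂ) (b' n) * GB d k ph S a b n).re := by
  have hA : ∀ m, (a' m * GA d k ph S a b m).re = (a m * (starRingEnd ℂ) (a' m)).re / (m : ℝ)
      + ∑ n ∈ S, 2 / ((m + n : ℤ) : ℝ) * (a' m * (starRingEnd ℂ) (b n) * CS d k ph m n).re
      + (if m = 0 then d * (a' 0 * (starRingEnd ℂ) (b 0)).im else 0) := by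
    intro m
    unfold GA
    rw [mul_add, mul_add, Complex.add_re, Complex.add_re]
    congr 1
    · congr 1
      · have e : a' m * ((starRingEnd ℂ) (a m) / (m : ℂ)) =
            (a' m * (starRingEnd ℂ) (a m)) / ((m : ℝ) : ℂ) := by push_cast; ring
        rw [e, Complex.div_ofReal_re]
        congr 1
        rw [Complex.mul_re, Complex.mul_re, Complex.conj_re, Complex.conj_re, Complex.conj_im,
          Complex.conj_im]
        ring
      · rw [Finset.mul_sum, Complex.re_sum]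
        refine Finset.sum_congr rfl fun n _ => ?_
        have e : a' m * (2 / ((m + n : ℤ) : ℂ) * ((starRingEnd ℂ) (b n) * CS d k ph m n)) =
            ((2 / ((m + n : ℤ) : ℝ) : ℝ) : ℂ) * (a' m * (starRingEnd ℂ) (b n) * CS d k ph m n) := by
          push_cast; ring
        rw [e, Complex.re_ofReal_mul]
    · by_cases hm : m = 0
      · subst hm
        rw [if_pos rfl, if_pos rfl]
        have e : a' 0 * (-Complex.I * d * (starRingEnd ℂ) (b 0)) =
            (d : ℂ) * (-Complex.I * (a' 0 * (starRingEnd ℂ) (b 0))) := by ring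
        rw [e, Complex.re_ofReal_mul]
        congr 1
        simp
      · rw [if_neg hm, if_neg hm, mul_zero, Complex.zero_re]
  have hB : ∀ n, ((starRingEnd ℂ) (b' n) * GB d k ph S a b n).re =
      (b n * (starRingEnd ℂ) (b' n)).re / (n : ℝ)
      + ∑ m ∈ S, 2 / ((m + n : ℤ) : ℝ) * (a m * (starRingEnd ℂ) (b' n) * CS d k ph m n).re
      + (if n = 0 then d * (a 0 * (starRingEnd ℂ) (b' 0)).im else 0) := by
    intro n
    unfold GB
    rw [mul_add, mul_add, Complex.add_re, Complex.add_re]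
    congr 1
    · congr 1
      · have e : (starRingEnd ℂ) (b' n) * (b n / (n : ℂ)) =
            (b n * (starRingEnd ℂ) (b' n)) / ((n : ℝ) : ℂ) := by push_cast; ring
        rw [e, Complex.div_ofReal_re]
      · rw [Finset.mul_sum, Complex.re_sum]
        refine Finset.sum_congr rfl fun m _ => ?_
        have e : (starRingEnd ℂ) (b' n) * (2 / ((m + n : ℤ) : ℂ) * (a m * CS d k ph m n)) =
            ((2 / ((m + n : ℤ) : ℝ) : ℝ) : ℂ) * (a m * (starRingEnd ℂ) (b' n) * CS d k ph m n) := by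
          push_cast; ring
        rw [e, Complex.re_ofReal_mul]
    · by_cases hn : n = 0
      · subst hn
        rw [if_pos rfl, if_pos rfl]
        have e : (starRingEnd ℂ) (b' 0) * (-Complex.I * d * a 0) =
            (d : ℂ) * (-Complex.I * (a 0 * (starRingEnd ℂ) (b' 0))) := by ring
        rw [e, Complex.re_ofReal_mul]
        congr 1
        simp
      · rw [if_neg hn, if_neg hn, mul_zero, Complex.zero_re]
  simp_rw [hA, hB]
  rw [Finset.sum_add_distrib, Finset.sum_add_distrib, Finset.sum_add_distrib,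
    Finset.sum_add_distrib, Finset.sum_ite_eq' S (0 : ℤ), Finset.sum_ite_eq' S (0 : ℤ), if_pos h0,
    if_pos h0, Finset.sum_comm (s := S) (t := S) (f := fun n m => 2 / ((m + n : ℤ) : ℝ) *
      (a m * (starRingEnd ℂ) (b' n) * CS d k ph m n).re)]
  unfold NSB
  have h1 : ∑ m ∈ S, ((a m * (starRingEnd ℂ) (a' m)).re + (b m * (starRingEnd ℂ) (b' m)).re) /
      (m : ℝ) = ∑ m ∈ S, (a m * (starRingEnd ℂ) (a' m)).re / (m : ℝ)
        + ∑ m ∈ S, (b m * (starRingEnd ℂ) (b' m)).re / (m : ℝ) := by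
    rw [← Finset.sum_add_distrib]
    exact Finset.sum_congr rfl fun m _ => by rw [add_div]
  have h2 : ∑ m ∈ S, ∑ n ∈ S, entB d k ph a b a' b' m n =
      ∑ m ∈ S, ∑ n ∈ S, 2 / ((m + n : ℤ) : ℝ) * (a' m * (starRingEnd ℂ) (b n) * CS d k ph m n).re
      + ∑ m ∈ S, ∑ n ∈ S, 2 / ((m + n : ℤ) : ℝ) *
        (a m * (starRingEnd ℂ) (b' n) * CS d k ph m n).re := by
    rw [← Finset.sum_add_distrib]
    refine Finset.sum_congr rfl fun m _ => ?_
    rw [← Finset.sum_add_distrib]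
    refine Finset.sum_congr rfl fun n _ => ?_
    unfold entB
    rw [add_mul, Complex.add_re]
    ring
  rw [h1, h2, Complex.add_im]
  ring

/-- `NFB` for the sinus shift -/
theorem NFB_closed (d k ph : ℝ) (N : ℕ) (a b a' b' : ℤ → ℂ) :
    NFB (ps d k ph) N a b a' b' = NSB d k ph (Finset.Icc (-(N : ℤ)) N) a b a' b' := by
  have h1 := NF_add (ps d k ph) N a b a' b'
  have h2 := NS_add d k ph (Finset.Icc (-(N : ℤ)) N) a b a' b'
  rw [NF_closed, NF_closed, NF_closed] at h1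
  linarith

end Pool.Agent.Helper61.RC
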