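import Mathlib

/-!
# Project RC, SHARP, zone I: (Q), the two numbers of (C3)
-/

set_option autoImplicit false

namespace Pool.Agent.Helper61.RC.QC

/-- the weight of the split of the harmonics `± 2` -/
def thQ : ℚ := 1 / 20
/-- the constant of (C3) -/
def c3Q : ℚ := 1 / 50

/-- the factor of the form (C2): `(1/24) (13/5) (1 + thQ)` -/
def wQ : ℚ := 13 / 120 * (1 + thQ)
/-- the price of harmonic `2`: `(1/24) (13/5) (1 + 1/thQ) 2 c3Q` -/
def hQ : ℚ := 13 / 60 * (1 + 1 / thQ) * c3Q

end Pool.Agent.Helper61.RC.QC
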