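import Pool.Agent.Helper61.RC.QC2
import Pool.Agent.Helper61.RC.QNum

/-!
# Project RC, SHARP, zone I: (Q), the statements of the contract (C2), (C3), (C4), radius `1/12`

`RestC`: the data of the rest (arrays `p, r, s`, window `M`). `FL`: frequency-local forms.
`StC2`: rows `l ≥ 4`, everything except the harmonics `± 2` of `β`. `StC3`: rows `l ≥ 4`, harmonics `± 2` of `β`.
`StC4`: row `l = 2`. `StC5`: the moment `e_0`.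
-/

set_option autoImplicit false

open MeasureTheory Set Filter Topology

namespace Pool.Agent.Helper61.RC.QC

open Helper49.LT hiding sg s3
open Helper49.Sharp
open Helper56.RC (fc)
open Helper95.RC (Sup)
open Pool.Agent.Helper20.RC (lk)
open Pool.Agent.Helper43.SH

/-- the rest: arrays, continuity, periods -/
structure RestC (β ρ : ℝ → ℂ) (M : ℕ) (p r s : ℤ → ℂ) : Prop extends Rest β ρ M p r s where
  kb : Continuous β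
  kz : Continuous ρ
  pb : ∀ t, β (t + Real.pi) = β t
  pz : ∀ t, ρ (t + Real.pi) = -ρ t

/-- frequency-local forms -/
noncomputable def FL (cz cs cp cr cx : ℤ → ℝ) (M : ℕ) (p r s : ℤ → ℂ) : ℝ :=
  ∑ n ∈ Finset.Icc (-(M : ℤ)) M, (cz n * ‖s n‖ ^ 2 + cs n * (s n * s (-n)).re + cp n * ‖p n‖ ^ 2
    + cr n * ‖r n‖ ^ 2 + 2 * cx n * (r n * (starRingEnd ℂ) (p n)).im)

/-- the harmonics `± 2` of `β` -/
noncomputable def h2F (β : ℝ → ℂ) (t : ℝ) : ℂ :=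
  ((2 * (fc (fun x => ((β x).re : ℂ)) 2 * ee (2 * t)).re : ℝ) : ℂ)
    + Complex.I * ((2 * (fc (fun x => ((β x).im : ℂ)) 2 * ee (2 * t)).re : ℝ) : ℂ)

/-- `β` without the harmonics `± 2` -/
noncomputable def o2F (β : ℝ → ℂ) (t : ℝ) : ℂ := β t - h2F β t

/-- `n/(n+1)`, `0` at `n = -1` -/
noncomputable def un (n : ℤ) : ℝ := if n = -1 then 0 else (n : ℝ) / (n + 1)
/-- `n²/(n²-1)`, `n/(n²-1)` -/
noncomputable def L2n (n : ℤ) : ℝ := (n : ℝ) ^ 2 / ((n : ℝ) ^ 2 - 1)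
noncomputable def L1n (n : ℤ) : ℝ := (n : ℝ) / ((n : ℝ) ^ 2 - 1)

/-- (C2), coefficients of `|s_n|²`, `Re s_n s_{-n}`, `|p_n|²`, `|r_n|²`, `2 Im (r_n conj p_n)` -/
noncomputable def z2 (n : ℤ) : ℝ := un n ^ 2 + (17 / 50 + 23 / 200) / 2
  + (if n = -1 then 4 else 15 / 8 / ((n : ℝ) + 1) ^ 2)
noncomputable def s2 (n : ℤ) : ℝ := 1 / 2 * (un n * un (-n)) + (17 / 50 - 23 / 200) / 2
noncomputable def p2 (n : ℤ) : ℝ := if n = 2 ∨ n = -2 then 0 else 3 / 2 * L2n n ^ 2 + 1 / 2 * L1n n ^ 2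
  + 179 / 100 + 5 / 2 / ((n : ℝ) + 1) ^ 2
noncomputable def r2 (n : ℤ) : ℝ := if n = 2 ∨ n = -2 then 0 else 121 / 32 * L2n n ^ 2 + 75 / 32 * L1n n ^ 2
  + 131 / 50 + 9 / 2 / ((n : ℝ) + 1) ^ 2
noncomputable def x2 (n : ℤ) : ℝ := if n = 2 ∨ n = -2 then 0 else 13 / 4 * (L1n n * L2n n)

/-- (C2) [helpers 17, 73] -/
def StC2 : Prop := ∀ (A : ℝ) (B : ℂ) (β ρ : ℝ → ℂ) (M : ℕ) (p r s : ℤ → ℂ), 0 ≤ A → A + 8 / 5 * ‖B‖ ≤ 1 / 12 →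
  RestC β ρ M p r s →
  ∑' k : ℕ, ‖eR (PZ A B) (o2F β) ρ (k + 1)‖ ^ 2 / (lk (k + 1) ^ 2 - 1) ≤ FL z2 s2 p2 r2 x2 M p r s

/-- (C3), constant `c` -/
def StC3c (c : ℝ) : Prop := ∀ (A : ℝ) (B : ℂ) (β ρ : ℝ → ℂ) (M : ℕ) (p r s : ℤ → ℂ), 0 ≤ A → A + 8 / 5 * ‖B‖ ≤ 1 / 12 →
  RestC β ρ M p r s →
  ∑' k : ℕ, ‖eR (PZ A B) (h2F β) (fun _ => 0) (k + 1)‖ ^ 2 / (lk (k + 1) ^ 2 - 1) ≤
    c * (2 * ‖p 2‖ ^ 2 + 2 * ‖r 2‖ ^ 2)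

/-- (C3) [helpers 11, 40] -/
def StC3 : Prop := StC3c (1 / 50)

/-- (C4) [helper41]: row `l = 2`, `N_2 = (7/2) p_2 - (37/8) i r_2` -/
def StC4 : Prop := ∀ (A : ℝ) (B : ℂ) (β ρ : ℝ → ℂ) (M : ℕ) (p r s : ℤ → ℂ), 0 ≤ A → A + 8 / 5 * ‖B‖ ≤ 1 / 12 →
  RestC β ρ M p r s →
  1 / 12 * ‖eR (PZ A B) β ρ 0 - (7 / 2 * p 2 - 37 / 8 * Complex.I * r 2)‖ ^ 2 ≤
    FL (fun n => (if |n| ≤ 7 then 1 / 200 else 0) + 1 / 5000) (fun _ => 0) (fun _ => 1 / 400) (fun _ => 1 / 400)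
      (fun _ => 0) M p r s

/-- (C5) [helper41]: the moment `e_0` -/
def StC5 : Prop := ∀ (A : ℝ) (B : ℂ) (β ρ : ℝ → ℂ) (M : ℕ) (p r s : ℤ → ℂ), 0 ≤ A → A + 8 / 5 * ‖B‖ ≤ 1 / 12 →
  RestC β ρ M p r s →
  -(2 / 5 * ‖p 0‖ ^ 2 + 1 / 100 * ‖s 3‖ ^ 2 + 1 / 10 * (‖s (-3)‖ ^ 2 + ‖s (-5)‖ ^ 2))
    - FL (fun _ => 3 / 10000) (fun _ => 0) (fun _ => 3 / 400) (fun _ => 3 / 400) (fun _ => 0) M p r s ≤
    2 * (p 0).re * (e0R (PZ A B) β ρ + (p 0).re)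

end Pool.Agent.Helper61.RC.QC
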