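import Pool.Agent.Helper61.RC.HdLoc
import Pool.Agent.Helper61.RC.QNum

/-!
# Project RC, SHARP, zone I: (Q), the rational table of the head certificates, radius `1/12`

`n` = frequency, `m = n + 1`. Head certificate at the node `(d, k)`:
`StPos d k K (locG fQ (fun _ => 0) e2Q e3Q gs gp gr cQ)` with `gs = gsM + losses`, `gp = gpM + losses`,
`gr = grM + losses`.
-/

set_option autoImplicit false

namespace Pool.Agent.Helper61.RC.QC

open Pool.Agent.Helper46.RC.Hd (Loc)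

/-- the constant of the natural `z` form -/
def fQ : ℚ := 287 / 400 - 49 / 40 * wQ

def unQ (n : ℤ) : ℚ := if n = -1 then 0 else (n : ℚ) / (n + 1)
def L2Q (n : ℤ) : ℚ := (n : ℚ) ^ 2 / ((n : ℚ) ^ 2 - 1)
def L1Q (n : ℤ) : ℚ := (n : ℚ) / ((n : ℚ) ^ 2 - 1)

/-- (C2), coefficients -/
def z2Q (n : ℤ) : ℚ := unQ n ^ 2 + 91 / 400 + (if n = -1 then 4 else 15 / 8 / ((n : ℚ) + 1) ^ 2)
def p2Q (n : ℤ) : ℚ := if n = 2 ∨ n = -2 then 0 else 3 / 2 * L2Q n ^ 2 + 1 / 2 * L1Q n ^ 2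
  + 179 / 100 + 5 / 2 / ((n : ℚ) + 1) ^ 2
def r2Q (n : ℤ) : ℚ := if n = 2 ∨ n = -2 then 0 else 121 / 32 * L2Q n ^ 2 + 75 / 32 * L1Q n ^ 2
  + 131 / 50 + 9 / 2 / ((n : ℚ) + 1) ^ 2
def x2Q (n : ℤ) : ℚ := if n = 2 ∨ n = -2 then 0 else 13 / 4 * (L1Q n * L2Q n)

/-- the coefficient of `|s_n|²` beside `fQ (|s_n|² + 1/2 Re s_n s_{-n})`, penalty `10` on `n = -3, -5` -/
def zQ (n : ℤ) : ℚ := (287 / 400 - fQ) - wQ * z2Q n
  - (if n = 1 then 2 * wQ else if n = -1 then wQ / 8 else wQ / 2 / ((n : ℚ) ^ 2 - 1))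
  - (if n = -1 then 1 / 220 else if n = 1 ∨ n = 3 ∨ n = 5 ∨ n = 7 then 1 / 56 else 0) - 17 / 112500
  - (if n = 3 then 1 / 65 else 0) + (if n = -3 ∨ n = -5 then 28 / 3 else 0)

/-- the coefficient of `|p_n|²` -/
def e2Q (n : ℤ) : ℚ := 391 / 50 - 7 / 3000 - wQ * p2Q n
  + (if n = 0 then -(44 / 5) else if n = 2 ∨ n = -2 then 1 / 3 - 49 / 480 - hQ / 2
    else -(39 / 2 / ((n : ℚ) ^ 2 - 1)))

/-- the coefficient of `|r_n|²` -/
def e3Q (n : ℤ) : ℚ := 739 / 100 - 7 / 3000 - wQ * r2Q n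
  + (if n = 0 then 0 else if n = 2 ∨ n = -2 then 1 / 3 - 1369 / 7680 - hQ / 2
    else -(39 / 8 * L2Q n))

/-- the coefficient of `2 Im (r_n conj p_n)` -/
def xQ (n : ℤ) : ℚ := -(wQ * x2Q n)
  + (if n = 0 then 0 else if n = 2 then 1 / 3 - 259 / 1920 else if n = -2 then -(1 / 3 - 259 / 1920)
    else -(39 / 4 * L1Q n))

/-- **THE LOCAL DATA OF THE HEADS** (the diagonals of `p, r` are in `e2Q, e3Q`) -/
def cQ : Loc where
  z m := zQ (m - 1)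
  p _ := 0
  r _ := 0
  x m := xQ (m - 1)
  f2 := 0

/-- the metric M12 of helper27, `z` with the price `1/8000` of the penalty -/
def gsM (n : ℤ) : ℚ := 1 / 8000 + (if n = 9 ∨ n = -9 ∨ n = 11 ∨ n = -11 then 1 / 50 else if n = 3 then 3 / 20
  else if n = 5 then 1 / 4 else 1 / 10)
def gpM (n : ℤ) : ℚ := if n = 0 then 1 / 10 else if n = 2 ∨ n = -2 then 3 / 100 else 1 / 5
def grM (n : ℤ) : ℚ := if n = 0 then 1 / 2 else if n = 2 ∨ n = -2 then 3 / 100 else if n = 4 ∨ n = -4 then 1 / 10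
  else if n = 6 ∨ n = -6 ∨ n = 8 ∨ n = -8 then 1 / 5 else if n = 10 ∨ n = -10 then 1 else 3 / 10

end Pool.Agent.Helper61.RC.QC
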