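import Pool.Agent.Helper61.RC.QC6
import Pool.Agent.Helper46.RC.RG2
import Pool.Agent.Helper46.RC.QHead
import Pool.Agent.Helper72.SH.Interp2

/-!
# Project RC, SHARP, zone I: (Q), the sections of the zone from the five head certificates

`stZR_of : Heads → StZR`.
-/

set_option autoImplicit false

open MeasureTheory Set Filter Topology

namespace Pool.Agent.Helper61.RC.QC

open Helper49.LT hiding sg s3
open Pool.Agent.Helper33.SH (dI)
open Pool.Agent.Helper46.RC.Hd (StPos)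
open Pool.Agent.Helper46.RC.CW (rest_gen2 om tt)
open Pool.Agent.Helper46.RC.QZ (Heads cH gsH gpH grH lamQ)
open Pool.Agent.Helper61.RC.HdLoc (headG_of_pos LC sum_shift)
open Pool.Agent.Helper72.SH (headG_interp2)
open Helper41.RC

/-! ### the tail of the table -/

section tail

variable {n : ℤ} (hn : 48 ≤ |n|)

include hn

theorem nsq : (2304 : ℝ) ≤ (n : ℝ) ^ 2 := by
  have h5 : ((48 : ℤ) : ℝ) ≤ ((|n| : ℤ) : ℝ) := by exact_mod_cast hn
  rw [Int.cast_abs] at h5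
  push_cast at h5
  rw [← sq_abs]
  nlinarith

theorem n1sq : (2209 : ℝ) ≤ ((n : ℝ) + 1) ^ 2 := by
  have h5 : ((48 : ℤ) : ℝ) ≤ ((|n| : ℤ) : ℝ) := by exact_mod_cast hn
  rw [Int.cast_abs] at h5
  push_cast at h5
  rcases le_abs.1 h5 with h | h
  · nlinarith
  · nlinarith

theorem un_le : un n ^ 2 ≤ (48 / 47) ^ 2 := by
  have h5 : ((48 : ℤ) : ℝ) ≤ ((|n| : ℤ) : ℝ) := by exact_mod_cast hn
  rw [Int.cast_abs] at h5
  push_cast at h5
  have h1 := n1sq hn
  have hne : n ≠ -1 := by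
    intro h
    rw [h] at hn
    norm_num at hn
  unfold un
  rw [if_neg hne, div_pow, div_le_iff₀ (by linarith)]
  rcases le_abs.1 h5 with h | h
  · nlinarith
  · nlinarith

theorem L2_le : L2n n ≤ 2304 / 2303 := by
  have h1 := nsq hn
  unfold L2n
  rw [div_le_div_iff₀ (by linarith) (by norm_num)]
  linarith

theorem L2_nn : 0 ≤ L2n n := by
  have h1 := nsq hn
  unfold L2n
  exact div_nonneg (by positivity) (by linarith)

theorem L1_sq : L1n n ^ 2 ≤ 1 / 2000 := by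
  have h1 := nsq hn
  unfold L1n
  rw [div_pow, div_le_iff₀ (pow_pos (by linarith) 2)]
  nlinarith

theorem L1_abs : |L1n n| ≤ 3 / 125 := by
  have h1 := L1_sq hn
  rw [abs_le]
  constructor <;> nlinarith

theorem z_tail : -(11 / 2000) ≤ ((zQ n : ℚ) : ℝ) := by
  have h1 := un_le hn
  have h2 := n1sq hn
  have h3 := nsq hn
  have a1 : n ≠ 1 := by rintro rfl; norm_num at hn
  have a2 : n ≠ -1 := by rintro rfl; norm_num at hn
  have a3 : n ≠ 3 := by rintro rfl; norm_num at hn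
  have a4 : n ≠ -3 := by rintro rfl; norm_num at hn
  have a5 : n ≠ -5 := by rintro rfl; norm_num at hn
  have a6 : n ≠ 5 := by rintro rfl; norm_num at hn
  have a7 : n ≠ 7 := by rintro rfl; norm_num at hn
  have b1 : ¬ (n = 1 ∨ n = 3 ∨ n = 5 ∨ n = 7) := by tauto
  have b2 : ¬ (n = -3 ∨ n = -5) := by tauto
  unfold zQ
  simp only [if_neg a1, if_neg a2, if_neg a3, if_neg b1, if_neg b2]
  push_cast
  rw [← z2_cast]
  unfold z2 fQ wQ thQ
  rw [if_neg a2]
  push_cast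
  have k1 : 15 / 8 / ((n : ℝ) + 1) ^ 2 ≤ 15 / 8 / 2209 := div_le_div_of_nonneg_left (by norm_num) (by norm_num) h2
  have k2 : 13 / 120 * (1 + 1 / 20) / 2 / ((n : ℝ) ^ 2 - 1) ≤ 13 / 120 * (1 + 1 / 20) / 2 / 2303 :=
    div_le_div_of_nonneg_left (by norm_num) (by norm_num) (by linarith)
  nlinarith [h1, k1, k2]

theorem x_tail : |((xQ n : ℚ) : ℝ)| ≤ 1 / 4 := by
  have a0 : n ≠ 0 := by rintro rfl; norm_num at hn
  have a1 : n ≠ 2 := by rintro rfl; norm_num at hn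
  have a2 : n ≠ -2 := by rintro rfl; norm_num at hn
  have b1 : ¬ (n = 2 ∨ n = -2) := by tauto
  have h1 := L1_abs hn
  have h2 := L2_le hn
  have h3 := L2_nn hn
  unfold xQ x2Q
  rw [if_neg a0, if_neg a1, if_neg a2, if_neg b1]
  push_cast
  rw [← L1_cast, ← L2_cast]
  have e : (wQ : ℝ) = 91 / 800 := by unfold wQ thQ; norm_num
  have e1 : -((wQ : ℝ) * (13 / 4 * (L1n n * L2n n))) + -(39 / 4 * L1n n) =
      -(L1n n * ((wQ : ℝ) * 13 / 4 * L2n n + 39 / 4)) := by ring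
  rw [e1, abs_neg, abs_mul, e]
  have h4 : 0 ≤ 91 / 800 * 13 / 4 * L2n n + 39 / 4 := by positivity
  rw [abs_of_nonneg h4]
  have h5 := abs_nonneg (L1n n)
  have h6 : 91 / 800 * 13 / 4 * L2n n + 39 / 4 ≤ 81 / 8 := by linarith
  calc |L1n n| * (91 / 800 * 13 / 4 * L2n n + 39 / 4) ≤ 3 / 125 * (81 / 8) :=
        mul_le_mul h1 h6 h4 (by norm_num)
    _ ≤ 1 / 4 := by norm_num

theorem e2_tail : 7 ≤ ((e2Q n : ℚ) : ℝ) := by
  have a0 : n ≠ 0 := by rintro rfl; norm_num at hn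
  have a1 : n ≠ 2 := by rintro rfl; norm_num at hn
  have a2 : n ≠ -2 := by rintro rfl; norm_num at hn
  have b1 : ¬ (n = 2 ∨ n = -2) := by tauto
  have h0 := nsq hn
  have h1 := L1_sq hn
  have h2 := L2_le hn
  have h3 := L2_nn hn
  have h4 := n1sq hn
  unfold e2Q
  rw [if_neg a0, if_neg b1]
  push_cast
  rw [← p2_cast]
  unfold p2
  rw [if_neg b1]
  have e : (wQ : ℝ) = 91 / 800 := by unfold wQ thQ; norm_num
  rw [e]
  have k1 : 5 / 2 / ((n : ℝ) + 1) ^ 2 ≤ 5 / 2 / 2209 := div_le_div_of_nonneg_left (by norm_num) (by norm_num) h4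
  have k2 : 39 / 2 / ((n : ℝ) ^ 2 - 1) ≤ 39 / 2 / 2303 :=
    div_le_div_of_nonneg_left (by norm_num) (by norm_num) (by linarith)
  have k3 : L2n n ^ 2 ≤ (2304 / 2303) ^ 2 := pow_le_pow_left₀ h3 h2 2
  linarith

theorem e3_tail : 89 / 50 ≤ ((e3Q n : ℚ) : ℝ) := by
  have a0 : n ≠ 0 := by rintro rfl; norm_num at hn
  have a1 : n ≠ 2 := by rintro rfl; norm_num at hn
  have a2 : n ≠ -2 := by rintro rfl; norm_num at hn
  have b1 : ¬ (n = 2 ∨ n = -2) := by tauto
  have h0 := nsq hn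
  have h1 := L1_sq hn
  have h2 := L2_le hn
  have h3 := L2_nn hn
  have h4 := n1sq hn
  unfold e3Q
  rw [if_neg a0, if_neg b1]
  push_cast
  rw [← r2_cast, ← L2_cast]
  unfold r2
  rw [if_neg b1]
  have e : (wQ : ℝ) = 91 / 800 := by unfold wQ thQ; norm_num
  rw [e]
  have k1 : 9 / 2 / ((n : ℝ) + 1) ^ 2 ≤ 9 / 2 / 2209 := div_le_div_of_nonneg_left (by norm_num) (by norm_num) h4
  have k3 : L2n n ^ 2 ≤ (2304 / 2303) ^ 2 := pow_le_pow_left₀ h3 h2 2
  linarith

end tail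

/-! ### the heads -/

/-- the extra form of the heads -/
noncomputable def EHc : Seq3 := fun p r s => LC cQ (Finset.Icc (1 - ((47 : ℕ) : ℤ)) (1 + ((47 : ℕ) : ℤ))) p r s

theorem headG_congr {d k ph f : ℝ} {bil e2 e3 e2' e3' gs gp gr : ℤ → ℝ} {E : Seq3} {K : ℕ}
    (h : HeadG d k ph bil f e2 e3 E gs gp gr K) (h2 : ∀ n : ℤ, |n| ≤ K → e2' n = e2 n)
    (h3 : ∀ n : ℤ, |n| ≤ K → e3' n = e3 n) : HeadG d k ph bil f e2' e3' E gs gp gr K := by
  intro p r s hP
  have h1 := h p r s hP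
  have e : HG d k ph bil f e2' e3' K p r s = HG d k ph bil f e2 e3 K p r s := by
    unfold HG
    congr 1
    refine Finset.sum_congr rfl fun n hn => ?_
    rw [Finset.mem_Icc] at hn
    have hK : |n| ≤ K := abs_le.2 hn
    unfold Lg
    rw [h2 n hK, h3 n hK]
  rw [e]
  exact h1

theorem head_of {d k : ℝ} (h : StPos d k 47 cH) :
    HeadG d k Real.pi (fun _ => 0) (fQ : ℝ) (e2T 47) (e3T 47) EHc (fun n => (gsH n : ℝ)) (fun n => (gpH n : ℝ))
      (fun n => (grH n : ℝ)) 47 := by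
  have h1 := headG_of_pos d k 47 fQ (fun _ => 0) e2Q e3Q gsH gpH grH cQ EHc (fun p r s _ => le_refl _) h
  have e : (fun n : ℤ => (((fun _ => (0 : ℚ)) n : ℚ) : ℝ)) = fun _ : ℤ => (0 : ℝ) := by
    funext n
    norm_num
  rw [e] at h1
  refine headG_congr h1 (fun n hn => ?_) (fun n hn => ?_)
  · unfold e2T
    rw [if_pos hn, sub_zero]
  · unfold e3T
    rw [if_pos hn, sub_zero]

/-- the charge of the tail -/
noncomputable def ezT (n : ℤ) : ℝ := if |n| ≤ ((47 : ℕ) : ℤ) then 0 else 11 / 2000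

theorem hE_T {N : ℕ} (hN : 48 ≤ N) (p r s : ℤ → ℂ) :
    EHc p r s - ∑ n ∈ Finset.Icc (-((N : ℤ) + 1)) (N + 1), (ezT n * ‖s n‖ ^ 2 + 0 * ‖p n‖ ^ 2 + 0 * ‖r n‖ ^ 2)
      ≤ ES 47 (N + 1) p r s := by
  have e1 : EHc p r s = ∑ n ∈ Finset.Icc (-((47 : ℕ) : ℤ)) ((47 : ℕ) : ℤ), (((zQ n : ℚ) : ℝ) * ‖s n‖ ^ 2
      + 2 * ((xQ n : ℚ) : ℝ) * (r n * (starRingEnd ℂ) (p n)).im) := by
    rw [← sum_shift 47 (fun n => ((zQ n : ℚ) : ℝ) * ‖s n‖ ^ 2
      + 2 * ((xQ n : ℚ) : ℝ) * (r n * (starRingEnd ℂ) (p n)).im)]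
    unfold EHc LC cQ
    refine Finset.sum_congr rfl fun m _ => ?_
    push_cast
    ring
  have e2 : ∑ n ∈ Finset.Icc (-((47 : ℕ) : ℤ)) ((47 : ℕ) : ℤ), (((zQ n : ℚ) : ℝ) * ‖s n‖ ^ 2
      + 2 * ((xQ n : ℚ) : ℝ) * (r n * (starRingEnd ℂ) (p n)).im) =
      ∑ n ∈ Finset.Icc (-((N : ℤ) + 1)) (N + 1), (if |n| ≤ ((47 : ℕ) : ℤ) then (((zQ n : ℚ) : ℝ) * ‖s n‖ ^ 2
      + 2 * ((xQ n : ℚ) : ℝ) * (r n * (starRingEnd ℂ) (p n)).im) else 0) := by
    rw [← Finset.sum_filter]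
    refine Finset.sum_congr ?_ fun _ _ => rfl
    ext n
    rw [Finset.mem_filter, Finset.mem_Icc, Finset.mem_Icc, abs_le]
    push_cast
    omega
  rw [e1, e2, ← Finset.sum_sub_distrib]
  unfold ES
  have eW : (((N + 1 : ℕ) : ℤ)) = (N : ℤ) + 1 := by push_cast; ring
  rw [eW]
  refine Finset.sum_le_sum fun n _ => ?_
  unfold ezT
  by_cases h : |n| ≤ ((47 : ℕ) : ℤ)
  · rw [if_pos h, if_pos h, if_pos h]
    linarith
  · rw [if_neg h, if_neg h, if_neg h]
    have h1 := z_tail (n := n) (by push_cast at h; omega)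
    have h2 := mul_le_mul_of_nonneg_right h1 (sq_nonneg ‖s n‖)
    linarith

/-- one interval of the nodes -/
theorem step {d0 d1 k0 k1 : ℝ} (h0 : StPos d0 k0 47 cH) (h1 : StPos d1 k1 47 cH) (hk0 : 0 ≤ k0) (hk1 : k1 = k0 + 1 / 48)
    (hk : k1 ≤ 1 / 12) (hd : |d0 - d1| ≤ 133 / 50000) {A : ℝ} {B : ℂ} {N : ℕ} (a0 : k0 ≤ A) (a1 : A ≤ k1)
    (dev : |dI A B - (d0 + 48 * (A - k0) * (d1 - d0))| ≤ 63 / 100000) (hN : 48 ≤ N) :
    RestG (dI A B) A Real.pi (fun _ => 0) (fQ : ℝ) (e2T 47) (e3T 47) (ES 47 (N + 1)) (fun n => (gsM n : ℝ))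
      (fun n => (gpM n : ℝ)) (fun n => (grM n : ℝ)) N := by
  have hD : |d0 - d1| + |k0 - k1| ≤ 47 / 2000 := by
    rw [hk1, show k0 - (k0 + 1 / 48) = -(1 / 48) by ring, abs_neg, abs_of_pos (by norm_num : (0 : ℝ) < 1 / 48)]
    linarith
  have hs : ∀ k : ℝ, 0 ≤ k → k ≤ 1 / 12 → 3 / 2 * |k| ≤ 1 / 8 := by
    intro k hk hk2
    rw [abs_of_nonneg hk]
    linarith
  set G1 : ℝ → ℝ := fun x => 127 / 126 * (47 / 2000) ^ 2 / 16 * (10 + (x + 1) ^ 2 / 10) with hG1
  have HI := headG_interp2 (K := 47) (by norm_num) (head_of h0) (head_of h1) (σ := 1 / 8) (D := 47 / 2000)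
    (κ := 127 / 126) (T := 10) (gs' := fun n => (gsH n : ℝ) - 2 * G1 n) (gp' := fun n => (gpH n : ℝ) - 6 * G1 n)
    (gr' := fun n => (grH n : ℝ) - 147 / 16 * G1 n) (by norm_num) (hs k0 hk0 (by linarith))
    (hs k1 (by linarith) hk) (by norm_num) (by norm_num) (by norm_num) hD (fun n _ => le_refl _) (fun n _ => le_refl _)
    (fun n _ => le_refl _) (t := 48 * (A - k0)) (by linarith) (by linarith)
  have ek : (1 - 48 * (A - k0)) * k0 + 48 * (A - k0) * k1 = A := by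
    rw [hk1]
    ring
  rw [ek] at HI
  have ed : (1 - 48 * (A - k0)) * d0 + 48 * (A - k0) * d1 = d0 + 48 * (A - k0) * (d1 - d0) := by ring
  rw [ed] at HI
  have eD : |dI A B - (d0 + 48 * (A - k0) * (d1 - d0))| + |A - A| ≤ 63 / 100000 := by
    rw [sub_self, abs_zero, add_zero]
    exact dev
  have hl : ∀ n : ℤ, ((lamQ n : ℚ) : ℝ) = 1 / 900 + ((n : ℝ) + 1) ^ 2 / 50000 := by
    intro n
    unfold lamQ
    push_cast
    rfl
  have main : ∀ n : ℤ, G1 n + (63 / 100000 * (127 / 126) + om (127 / 126) (29 / 20) (49 / 50) 110000 20000 ((n : ℝ) + 1))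
      ≤ ((lamQ n : ℚ) : ℝ) := by
    intro n
    rw [hl, hG1]
    unfold om
    simp only
    nlinarith [sq_nonneg ((n : ℝ) + 1)]
  have ht : tt 47 (127 / 112) (127 / 126) (29 / 20) (49 / 50) 110000 20000 ≤ 62 / 1000 := by
    unfold tt
    norm_num
  refine rest_gen2 (K := 47) (N := N) (fun n => by simp) (by norm_num) (by omega) HI (σ := 1 / 8) (R := 127 / 112)
    (κ := 127 / 126) (D := 63 / 100000) (c₁ := 29 / 20) (c₂ := 49 / 50) (θ₁ := 110000) (θ₂ := 20000)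
    (ez := ezT) (ep := fun _ => 0) (er := fun _ => 0) (by norm_num)
    (hs A (by linarith) (by linarith)) (hs A (by linarith) (by linarith)) (by norm_num) (by norm_num) (by norm_num)
    (by norm_num) eD (by unfold fQ wQ thQ; norm_num) (by norm_num) ?_ (by norm_num) (by norm_num)
    (fun p r s _ => hE_T hN p r s) ?_ ?_ ?_ ?_ ?_ ?_
  · rw [abs_of_nonneg (by linarith : 0 ≤ A)]
    linarith
  · intro n hn
    have h2 := main n
    have h3 : ezT n = 0 := by unfold ezT; rw [if_pos hn]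
    have h4 : ((gsH n : ℚ) : ℝ) = (gsM n : ℝ) + 2 * ((lamQ n : ℚ) : ℝ) := by unfold gsH; push_cast; ring
    rw [h3]
    rw [h4]
    linarith
  · intro n _
    have h2 := main n
    have h4 : ((gpH n : ℚ) : ℝ) = (gpM n : ℝ) + 6 * ((lamQ n : ℚ) : ℝ) := by unfold gpH; push_cast; ring
    rw [h4]
    linarith
  · intro n _
    have h2 := main n
    have h4 : ((grH n : ℚ) : ℝ) = (grM n : ℝ) + 147 / 16 * ((lamQ n : ℚ) : ℝ) := by unfold grH; push_cast; ring
    rw [h4]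
    linarith
  · intro n hn
    have hn2 : 48 ≤ |n| := by push_cast at hn; omega
    have h3 : ezT n = 11 / 2000 := by unfold ezT; rw [if_neg (by omega)]
    have h4 : ((gsM n : ℚ) : ℝ) = 1 / 8000 + 1 / 10 := by
      have b1 : ¬ (n = 9 ∨ n = -9 ∨ n = 11 ∨ n = -11) := by
        rintro (rfl | rfl | rfl | rfl) <;> norm_num at hn2
      have b2 : n ≠ 3 := by rintro rfl; norm_num at hn2
      have b3 : n ≠ 5 := by rintro rfl; norm_num at hn2
      unfold gsM
      rw [if_neg b1, if_neg b2, if_neg b3]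
      norm_num
    rw [h3]
    rw [h4]
    unfold fQ wQ thQ
    push_cast
    linarith
  · intro n hn
    have hn2 : 48 ≤ |n| := by push_cast at hn; omega
    have h4 : ((gpM n : ℚ) : ℝ) = 1 / 5 := by
      have b1 : n ≠ 0 := by rintro rfl; norm_num at hn2
      have b2 : ¬ (n = 2 ∨ n = -2) := by rintro (rfl | rfl) <;> norm_num at hn2
      unfold gpM
      rw [if_neg b1, if_neg b2]
      norm_num
    have h5 := e2_tail hn2
    have h6 := x_tail hn2
    have h7 : e2T 47 n = (e2Q n : ℝ) - |((xQ n : ℚ) : ℝ)| := by unfold e2T; rw [if_neg (by omega)]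
    rw [h7]
    rw [h4]
    push_cast
    linarith
  · intro n hn
    have hn2 : 48 ≤ |n| := by push_cast at hn; omega
    have h4 : ((grM n : ℚ) : ℝ) = 3 / 10 := by
      have b1 : n ≠ 0 := by rintro rfl; norm_num at hn2
      have b2 : ¬ (n = 2 ∨ n = -2) := by rintro (rfl | rfl) <;> norm_num at hn2
      have b3 : ¬ (n = 4 ∨ n = -4) := by rintro (rfl | rfl) <;> norm_num at hn2
      have b4 : ¬ (n = 6 ∨ n = -6 ∨ n = 8 ∨ n = -8) := by rintro (rfl | rfl | rfl | rfl) <;> norm_num at hn2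
      have b5 : ¬ (n = 10 ∨ n = -10) := by rintro (rfl | rfl) <;> norm_num at hn2
      unfold grM
      rw [if_neg b1, if_neg b2, if_neg b3, if_neg b4, if_neg b5]
      norm_num
    have h5 := e3_tail hn2
    have h6 := x_tail hn2
    have h7 : e3T 47 n = (e3Q n : ℝ) - |((xQ n : ℚ) : ℝ)| := by unfold e3T; rw [if_neg (by omega)]
    rw [h7]
    rw [h4]
    push_cast
    linarith

/-- **THE SECTIONS OF THE ZONE** from the five certificates -/
theorem stZR_of (H : Heads) : StZR := by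
  intro A B N hA hz hN
  have hy := norm_nonneg B
  have hy2 : ‖B‖ ≤ (1 / 12 - A) * (5 / 8) := by linarith
  have hA1 : A ≤ 1 / 12 := by linarith
  have hsq : ‖B‖ ^ 2 ≤ ((1 / 12 - A) * (5 / 8)) ^ 2 := pow_le_pow_left₀ hy hy2 2
  have hsq0 := sq_nonneg ‖B‖
  obtain ⟨h0, h1, h2, h3, h4⟩ := H
  rcases le_total A (1 / 48) with c1 | c1
  · refine step h0 h1 (by norm_num) (by norm_num) (by norm_num) (by norm_num [abs_of_neg, abs_of_pos]) (by norm_num; exact hA)
      (by norm_num; linarith) ?_ hN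
    unfold dI
    rw [abs_le]
    constructor
    · norm_num
      nlinarith [sq_nonneg (A - 1 / 96)]
    · norm_num
      nlinarith [mul_nonneg hA (sub_nonneg.2 c1)]
  rcases le_total A (1 / 24) with c2 | c2
  · refine step h1 h2 (by norm_num) (by norm_num) (by norm_num) (by norm_num [abs_of_neg, abs_of_pos]) (by norm_num; linarith)
      (by norm_num; linarith) ?_ hN
    unfold dI
    rw [abs_le]
    constructor
    · norm_num
      nlinarith [sq_nonneg (A - 1 / 32)]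
    · norm_num
      nlinarith [mul_nonneg (sub_nonneg.2 c1) (sub_nonneg.2 c2)]
  rcases le_total A (1 / 16) with c3 | c3
  · refine step h2 h3 (by norm_num) (by norm_num) (by norm_num) (by norm_num [abs_of_neg, abs_of_pos]) (by norm_num; linarith)
      (by norm_num; linarith) ?_ hN
    unfold dI
    rw [abs_le]
    constructor
    · norm_num
      nlinarith [sq_nonneg (A - 5 / 96)]
    · norm_num
      nlinarith [mul_nonneg (sub_nonneg.2 c2) (sub_nonneg.2 c3)]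
  · refine step h3 h4 (by norm_num) (by norm_num) (by norm_num) (by norm_num [abs_of_neg, abs_of_pos]) (by norm_num; linarith)
      (by norm_num; linarith) ?_ hN
    unfold dI
    rw [abs_le]
    constructor
    · norm_num
      nlinarith [sq_nonneg (A - 7 / 96)]
    · norm_num
      nlinarith [mul_nonneg (sub_nonneg.2 c3) (sub_nonneg.2 hA1)]

end Pool.Agent.Helper61.RC.QC
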