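import Pool.Agent.Helper49.RC.St

/-!
Project RC (MP_b21509_co), module SEL: the parameters of the functional as step functions.
-/

open MeasureTheory Set Filter Metric

namespace Pool.Agent.Helper61.RC

open Helper97.CB Helper49.LT Helper49.RC

theorem sp_bdd (K : Set ℂ) (hK : IsCompact K) (p : ℂ) :
    BddAbove ((fun z : ℂ => (z * (starRingEnd ℂ) p).re) '' K) := by
  apply (hK.image _).bddAbove
  fun_prop

theorem le_sp (K : Set ℂ) (hK : IsCompact K) (p z : ℂ) (hz : z ∈ K) :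
    (z * (starRingEnd ℂ) p).re ≤ sp K p :=
  le_csSup (sp_bdd K hK p) ⟨z, hz, rfl⟩

theorem sp_nonneg (K : Set ℂ) (hK : IsCompact K) (h0 : (0 : ℂ) ∈ K) (p : ℂ) : 0 ≤ sp K p := by
  have h := le_sp K hK p 0 h0
  simpa using h

theorem sp_lip (K : Set ℂ) (hK : IsCompact K) (h0 : (0 : ℂ) ∈ K) (R : ℝ)
    (hR : ∀ z ∈ K, ‖z‖ ≤ R) (x y : ℂ) : sp K x ≤ sp K y + R * ‖x - y‖ := by
  apply csSup_le
  · exact ⟨_, 0, h0, rfl⟩
  · rintro _ ⟨z, hz, rfl⟩
    have h1 := le_sp K hK y z hz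
    have h2 : (z * (starRingEnd ℂ) x).re =
        (z * (starRingEnd ℂ) y).re + (z * (starRingEnd ℂ) (x - y)).re := by
      rw [← Complex.add_re, map_sub]; congr 1; ring
    have h3 : (z * (starRingEnd ℂ) (x - y)).re ≤ R * ‖x - y‖ := by
      calc (z * (starRingEnd ℂ) (x - y)).re ≤ ‖z * (starRingEnd ℂ) (x - y)‖ :=
            Complex.re_le_norm _
        _ = ‖z‖ * ‖x - y‖ := by rw [norm_mul, RCLike.norm_conj]
        _ ≤ R * ‖x - y‖ := by
            apply mul_le_mul_of_nonneg_right (hR z hz) (norm_nonneg _)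
    show (z * (starRingEnd ℂ) x).re ≤ _
    linarith

theorem norm_om : ‖om‖ = 1 := norm_ee _

theorem norm_ee_sub (a b : ℝ) : ‖ee a - ee b‖ ≤ |a - b| := by
  have h1 : ee a - ee b = ee b * (ee (a - b) - 1) := by
    rw [mul_sub, mul_one, ← ee_add]; congr 2; ring
  rw [h1, norm_mul, norm_ee, one_mul]
  have h2 := Real.norm_exp_I_mul_ofReal_sub_one_le (x := a - b)
  rw [Real.norm_eq_abs] at h2
  unfold ee
  rw [mul_comm]
  exact h2

theorem norm_f0 (b : ℂ) : ‖f0 b‖ ≤ 1 + ‖b‖ := by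
  unfold f0
  calc ‖1 + b‖ ≤ ‖(1 : ℂ)‖ + ‖b‖ := norm_add_le _ _
    _ = 1 + ‖b‖ := by simp

theorem norm_f1 (b p : ℂ) : ‖f1 b p‖ ≤ 1 + ‖b‖ + ‖p‖ := by
  unfold f1
  calc ‖om + (starRingEnd ℂ) om * b + p‖ ≤ ‖om‖ + ‖(starRingEnd ℂ) om * b‖ + ‖p‖ :=
        norm_add₃_le
    _ = 1 + ‖b‖ + ‖p‖ := by rw [norm_mul, RCLike.norm_conj, norm_om, one_mul]

theorem norm_f2 (b p : ℂ) : ‖f2 b p‖ ≤ 1 + ‖b‖ + ‖p‖ := by
  unfold f2
  calc ‖om ^ 2 + (starRingEnd ℂ) om ^ 2 * b - p‖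
      ≤ ‖om ^ 2 + (starRingEnd ℂ) om ^ 2 * b‖ + ‖p‖ := norm_sub_le _ _
    _ ≤ ‖om ^ 2‖ + ‖(starRingEnd ℂ) om ^ 2 * b‖ + ‖p‖ := by
        gcongr; exact norm_add_le _ _
    _ = 1 + ‖b‖ + ‖p‖ := by
        rw [norm_mul, norm_pow, norm_pow, RCLike.norm_conj, norm_om]; simp

/-- change of the parameter `b` -/
theorem Psi_b (K : Set ℂ) (hK : IsCompact K) (h0 : (0 : ℂ) ∈ K) (R : ℝ)
    (hR : ∀ z ∈ K, ‖z‖ ≤ R) (t : ℝ) (b b' p : ℂ) :
    Psi K t b' p ≤ Psi K t b p + 2 * R * ‖b' - b‖ + (‖b'‖ ^ 2 - ‖b‖ ^ 2) := by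
  have hl := sp_lip K hK h0 R hR
  have a0 := hl (ee t * f0 b') (ee t * f0 b)
  have a1 := hl (ee t * f1 b' p) (ee t * f1 b p)
  have a2 := hl (ee t * f2 b' p) (ee t * f2 b p)
  have a3 := hl (-(ee t * f0 b')) (-(ee t * f0 b))
  have a4 := hl (-(ee t * f1 b' (-p))) (-(ee t * f1 b (-p)))
  have a5 := hl (-(ee t * f2 b' (-p))) (-(ee t * f2 b (-p)))
  have e0 : ‖ee t * f0 b' - ee t * f0 b‖ = ‖b' - b‖ := by
    rw [← mul_sub, norm_mul, norm_ee, one_mul]; unfold f0; congr 1; ring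
  have e1 : ∀ q, ‖ee t * f1 b' q - ee t * f1 b q‖ = ‖b' - b‖ := by
    intro q
    rw [← mul_sub, norm_mul, norm_ee, one_mul]; unfold f1
    have : om + (starRingEnd ℂ) om * b' + q - (om + (starRingEnd ℂ) om * b + q) =
        (starRingEnd ℂ) om * (b' - b) := by ring
    rw [this, norm_mul, RCLike.norm_conj, norm_om, one_mul]
  have e2 : ∀ q, ‖ee t * f2 b' q - ee t * f2 b q‖ = ‖b' - b‖ := by
    intro q
    rw [← mul_sub, norm_mul, norm_ee, one_mul]; unfold f2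
    have : om ^ 2 + (starRingEnd ℂ) om ^ 2 * b' - q - (om ^ 2 + (starRingEnd ℂ) om ^ 2 * b - q) =
        (starRingEnd ℂ) om ^ 2 * (b' - b) := by ring
    rw [this, norm_mul, norm_pow, RCLike.norm_conj, norm_om, one_pow, one_mul]
  have n : ∀ x y : ℂ, ‖-x - -y‖ = ‖x - y‖ := by
    intro x y; rw [neg_sub_neg, norm_sub_rev]
  rw [n] at a3 a4 a5
  rw [e0] at a0 a3
  rw [e1] at a1 a4
  rw [e2] at a2 a5
  unfold Psi
  linarith

/-- change of the direction -/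
theorem Psi_t (K : Set ℂ) (hK : IsCompact K) (h0 : (0 : ℂ) ∈ K) (R : ℝ)
    (hR : ∀ z ∈ K, ‖z‖ ≤ R) (hR0 : 0 ≤ R) (t t' : ℝ) (b p : ℂ) (C : ℝ)
    (hC : 1 + ‖b‖ + ‖p‖ ≤ C) :
    Psi K t' b p ≤ Psi K t b p + 2 * R * C * |t' - t| := by
  have hl := sp_lip K hK h0 R hR
  have a0 := hl (ee t' * f0 b) (ee t * f0 b)
  have a1 := hl (ee t' * f1 b p) (ee t * f1 b p)
  have a2 := hl (ee t' * f2 b p) (ee t * f2 b p)
  have a3 := hl (-(ee t' * f0 b)) (-(ee t * f0 b))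
  have a4 := hl (-(ee t' * f1 b (-p))) (-(ee t * f1 b (-p)))
  have a5 := hl (-(ee t' * f2 b (-p))) (-(ee t * f2 b (-p)))
  have n : ∀ x y : ℂ, ‖-x - -y‖ = ‖x - y‖ := by
    intro x y; rw [neg_sub_neg, norm_sub_rev]
  rw [n] at a3 a4 a5
  have hp := norm_nonneg p
  have hb := norm_nonneg b
  have key : ∀ z : ℂ, ‖z‖ ≤ C → R * ‖ee t' * z - ee t * z‖ ≤ R * (C * |t' - t|) := by
    intro z hz
    apply mul_le_mul_of_nonneg_left _ hR0
    rw [← sub_mul, norm_mul, mul_comm]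
    exact mul_le_mul hz (norm_ee_sub _ _) (norm_nonneg _) ((norm_nonneg _).trans hz)
  have k0 := key (f0 b) ((norm_f0 b).trans (by linarith))
  have k1 := key (f1 b p) ((norm_f1 b p).trans hC)
  have k2 := key (f2 b p) ((norm_f2 b p).trans hC)
  have k4 := key (f1 b (-p)) ((norm_f1 b (-p)).trans (by rw [norm_neg]; exact hC))
  have k5 := key (f2 b (-p)) ((norm_f2 b (-p)).trans (by rw [norm_neg]; exact hC))
  unfold Psi
  nlinarith

theorem Psi_neg (K : Set ℂ) (t t' : ℝ) (h : ee t' = -ee t) (b p : ℂ) :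
    Psi K t' b (-p) = Psi K t b p := by
  unfold Psi
  rw [h, neg_neg]
  simp only [neg_mul, neg_neg]
  ring

theorem ee_int_pi (m : ℤ) : ee ((m : ℝ) * Real.pi) = (-1) ^ m := by
  rw [ee_int_mul, ee_pi]

theorem Psi_int (K : Set ℂ) (t : ℝ) (m : ℤ) (b p : ℂ) :
    Psi K (t + (m : ℝ) * Real.pi) b ((-1) ^ m * p) = Psi K t b p := by
  have h : ee (t + (m : ℝ) * Real.pi) = (-1) ^ m * ee t := by
    rw [ee_add, ee_int_pi, mul_comm]
  rcases Int.even_or_odd m with hm | hm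
  · rw [hm.neg_one_zpow, one_mul] at h
    rw [hm.neg_one_zpow, one_mul]
    unfold Psi
    rw [h]
  · rw [hm.neg_one_zpow] at h
    rw [hm.neg_one_zpow, neg_one_mul]
    exact Psi_neg K t _ (by rw [h]; ring) b p

theorem Reg_neg (b p : ℂ) (h : Reg b p) : Reg b (-p) := by
  obtain ⟨x, y, hxy, hp⟩ := h
  refine ⟨-x, -y, by rw [abs_neg, abs_neg]; exact hxy, ?_⟩
  rw [hp]; push_cast; ring

theorem Reg_int (b p : ℂ) (m : ℤ) (h : Reg b p) : Reg b ((-1) ^ m * p) := by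
  rcases Int.even_or_odd m with hm | hm
  · rw [hm.neg_one_zpow, one_mul]; exact h
  · rw [hm.neg_one_zpow, neg_one_mul]; exact Reg_neg b p h

theorem Reg_norm (b p : ℂ) (h : Reg b p) : ‖p‖ ≤ 1 + ‖b‖ := by
  obtain ⟨x, y, hxy, hp⟩ := h
  have h1 : ‖f1 b 0‖ ≤ 1 + ‖b‖ := by simpa using norm_f1 b 0
  have h2 : ‖f2 b 0‖ ≤ 1 + ‖b‖ := by simpa using norm_f2 b 0
  have hb := norm_nonneg b
  calc ‖p‖ = ‖(x : ℂ) * f1 b 0 + (y : ℂ) * f2 b 0‖ := by rw [hp]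
    _ ≤ ‖(x : ℂ) * f1 b 0‖ + ‖(y : ℂ) * f2 b 0‖ := norm_add_le _ _
    _ = |x| * ‖f1 b 0‖ + |y| * ‖f2 b 0‖ := by
        rw [norm_mul, norm_mul, Complex.norm_real, Complex.norm_real, Real.norm_eq_abs,
          Real.norm_eq_abs]
    _ ≤ |x| * (1 + ‖b‖) + |y| * (1 + ‖b‖) := by
        gcongr
    _ = (|x| + |y|) * (1 + ‖b‖) := by ring
    _ ≤ 1 * (1 + ‖b‖) := by
        apply mul_le_mul_of_nonneg_right hxy (by linarith)
    _ = 1 + ‖b‖ := one_mul _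

theorem norm_sq_le_Psi (K : Set ℂ) (hK : IsCompact K) (h0 : (0 : ℂ) ∈ K) (t : ℝ) (b p : ℂ) :
    ‖b‖ ^ 2 ≤ Psi K t b p := by
  have h := sp_nonneg K hK h0
  have a0 := h (ee t * f0 b)
  have a1 := h (ee t * f1 b p)
  have a2 := h (ee t * f2 b p)
  have a3 := h (-(ee t * f0 b))
  have a4 := h (-(ee t * f1 b (-p)))
  have a5 := h (-(ee t * f2 b (-p)))
  unfold Psi
  linarith

/-- step (1): the pair in the region -/
theorem step1 (h : StRgn) (K : Set ℂ) (G : ℝ) (hB : IsBody K) (h0 : (0 : ℂ) ∈ K) (R : ℝ)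
    (hR : ∀ z ∈ K, ‖z‖ ≤ R) (hR0 : 0 ≤ R) (t : ℝ) (hG : ∃ b p : ℂ, Psi K t b p ≤ G)
    (ε : ℝ) (hε : 0 < ε) (hG2 : G + ε ≤ 2) :
    ∃ q : ℂ × ℂ, Reg q.1 q.2 ∧ Psi K t q.1 q.2 ≤ G + ε / 2 ∧ ‖q.1‖ ^ 2 ≤ 2 := by
  have hK := hB.2.1
  obtain ⟨b, p, hbp⟩ := hG
  have key : ∃ b' : ℂ, ‖b'‖ ≠ 1 ∧ Psi K t b' p ≤ G + ε / 2 := by
    by_cases hb : ‖b‖ = 1
    · set δ : ℝ := min 1 (ε / (2 * (2 * R + 3))) with hδ
      have hδ0 : 0 < δ := by
        rw [hδ]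
        apply lt_min one_pos
        positivity
      have hδ1 : δ ≤ 1 := min_le_left _ _
      have hδ2 : δ * (2 * R + 3) ≤ ε / 2 := by
        have h1 : δ ≤ ε / (2 * (2 * R + 3)) := min_le_right _ _
        have h2 : 0 < 2 * R + 3 := by linarith
        calc δ * (2 * R + 3) ≤ ε / (2 * (2 * R + 3)) * (2 * R + 3) :=
              mul_le_mul_of_nonneg_right h1 h2.le
          _ = ε / 2 := by field_simp
      have hn : ‖((1 + δ : ℝ) : ℂ) * b‖ = 1 + δ := by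
        rw [norm_mul, hb, mul_one, Complex.norm_real, Real.norm_eq_abs, abs_of_pos (by linarith)]
      refine ⟨((1 + δ : ℝ) : ℂ) * b, by rw [hn]; linarith, ?_⟩
      have h1 := Psi_b K hK h0 R hR t b (((1 + δ : ℝ) : ℂ) * b) p
      have h2 : ‖((1 + δ : ℝ) : ℂ) * b - b‖ = δ := by
        have : ((1 + δ : ℝ) : ℂ) * b - b = (δ : ℂ) * b := by push_cast; ring
        rw [this, norm_mul, hb, mul_one, Complex.norm_real, Real.norm_eq_abs, abs_of_pos hδ0]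
      rw [h2, hn, hb] at h1
      nlinarith
    · exact ⟨b, hb, by linarith⟩
  obtain ⟨b', hb', hb2⟩ := key
  obtain ⟨p', hp', hp2⟩ := h K t b' p hB hb'
  refine ⟨(b', p'), hp', hp2.trans hb2, ?_⟩
  have := norm_sq_le_Psi K hK h0 t b' p
  show ‖b'‖ ^ 2 ≤ 2
  linarith

theorem hSEL (h : StRgn) : StSel := by
  intro K G hB h0 hG hPsi ε₀ hε₀
  have hK := hB.2.1
  obtain ⟨R₀, hR₀⟩ := hK.isBounded.exists_norm_le
  set R : ℝ := max R₀ 0 with hRdef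
  have hR0 : 0 ≤ R := le_max_right _ _
  have hR : ∀ z ∈ K, ‖z‖ ≤ R := fun z hz => (hR₀ z hz).trans (le_max_left _ _)
  set ε : ℝ := min ε₀ (2 - G) with hεdef
  have hε : 0 < ε := lt_min hε₀ (by linarith)
  have hε1 : ε ≤ ε₀ := min_le_left _ _
  have hε2 : G + ε ≤ 2 := by
    have : ε ≤ 2 - G := min_le_right _ _
    linarith
  have hc : ∀ t : ℝ, ∃ q : ℂ × ℂ, Reg q.1 q.2 ∧ Psi K t q.1 q.2 ≤ G + ε / 2 ∧ ‖q.1‖ ^ 2 ≤ 2 :=
    fun t => step1 h K G hB h0 R hR hR0 t (hPsi t) ε hε hε2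
  choose c hc1 hc2 hc3 using hc
  obtain ⟨N, hN⟩ := exists_nat_gt (24 * R * Real.pi / ε)
  have hpi := Real.pi_pos
  have hN0 : 0 < (N : ℝ) := by
    refine lt_of_le_of_lt ?_ hN
    positivity
  have hNpos : (0 : ℤ) < (N : ℤ) := by exact_mod_cast hN0
  have hNε : 12 * R * (Real.pi / N) ≤ ε / 2 := by
    rw [div_lt_iff₀ hε] at hN
    rw [mul_div_assoc', div_le_iff₀ hN0]
    nlinarith
  let fl : ℝ → ℤ := fun t => ⌊(N : ℝ) * t / Real.pi⌋
  have hfl : Measurable fl := Int.measurable_floor.comp (by fun_prop)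
  let gb : ℤ → ℂ := fun j => (c (((j % (N : ℤ) : ℤ) : ℝ) * Real.pi / N)).1
  let gp : ℤ → ℂ := fun j => (-1) ^ (j / (N : ℤ)) * (c (((j % (N : ℤ) : ℤ) : ℝ) * Real.pi / N)).2
  have hper : ∀ t, fl (t + Real.pi) = fl t + (N : ℤ) := by
    intro t
    show ⌊(N : ℝ) * (t + Real.pi) / Real.pi⌋ = ⌊(N : ℝ) * t / Real.pi⌋ + (N : ℤ)
    have : (N : ℝ) * (t + Real.pi) / Real.pi = (N : ℝ) * t / Real.pi + ((N : ℤ) : ℝ) := by
      push_cast; field_simp
    rw [this, Int.floor_add_intCast]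
  have hmod : ∀ j : ℤ, (j + (N : ℤ)) % (N : ℤ) = j % (N : ℤ) := fun j => by
    rw [Int.add_emod_right]
  have hdiv : ∀ j : ℤ, (j + (N : ℤ)) / (N : ℤ) = j / (N : ℤ) + 1 := fun j => by
    have := Int.add_mul_ediv_right j 1 hNpos.ne'
    rwa [one_mul] at this
  refine ⟨fun t => gb (fl t), fun t => gp (fl t), ⟨?_, ?_, ?_, ?_, ?_, ?_⟩, ?_⟩
  · exact (measurable_from_top (f := gb)).comp hfl
  · exact (measurable_from_top (f := gp)).comp hfl
  · intro t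
    show gb (fl (t + Real.pi)) = gb (fl t)
    rw [hper]
    simp only [gb]
    rw [hmod]
  · intro t
    show gp (fl (t + Real.pi)) = -gp (fl t)
    rw [hper]
    simp only [gp]
    rw [hmod, hdiv, zpow_add₀ (by norm_num : (-1 : ℂ) ≠ 0)]
    ring
  · intro t
    exact hc3 _
  · intro t
    exact Reg_int _ _ _ (hc1 _)
  · intro t
    set j : ℤ := fl t with hj
    set i : ℤ := j % (N : ℤ) with hi
    set m : ℤ := j / (N : ℤ) with hm
    have hij : i + (N : ℤ) * m = j := Int.emod_add_mul_ediv j N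
    set ti : ℝ := (i : ℝ) * Real.pi / N with hti
    show Psi K t (c ti).1 ((-1) ^ m * (c ti).2) ≤ G + ε₀
    set s : ℝ := t - (m : ℝ) * Real.pi with hs
    have e1 : t = s + (m : ℝ) * Real.pi := by rw [hs]; ring
    rw [e1, Psi_int]
    have hjr : (i : ℝ) + (N : ℝ) * m = j := by exact_mod_cast hij
    have hf1 : (j : ℝ) ≤ (N : ℝ) * t / Real.pi := Int.floor_le _
    have hf2 : (N : ℝ) * t / Real.pi < (j : ℝ) + 1 := Int.lt_floor_add_one _
    have hst : s - ti = ((N : ℝ) * t / Real.pi - j) * (Real.pi / N) := by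
      rw [hs, hti, ← hjr]
      field_simp
      ring
    have hst1 : |s - ti| ≤ Real.pi / N := by
      have h3 : 0 < Real.pi / N := by positivity
      rw [hst, abs_of_nonneg (mul_nonneg (by linarith) h3.le)]
      nlinarith
    have hb : ‖(c ti).1‖ ≤ 2 := by
      have := hc3 ti
      nlinarith [norm_nonneg (c ti).1]
    have hb' : ‖(c ti).1‖ ≤ 3 / 2 := by
      have := hc3 ti
      by_contra hcon
      rw [not_le] at hcon
      nlinarith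
    have hp := Reg_norm _ _ (hc1 ti)
    have h4 := Psi_t K hK h0 R hR hR0 ti s (c ti).1 (c ti).2 6 (by linarith)
    have h5 := hc2 ti
    have h6 : 2 * R * 6 * |s - ti| ≤ 12 * R * (Real.pi / N) := by
      have : 2 * R * 6 * |s - ti| = 12 * R * |s - ti| := by ring
      rw [this]
      exact mul_le_mul_of_nonneg_left hst1 (by positivity)
    linarith

end Pool.Agent.Helper61.RC
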