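import Pool.Agent.Helper61.RC.QC3
import Pool.Agent.Helper61.RC.QLoc

/-!
# Project RC, SHARP, zone I: (Q), from the charge form to the table of the heads

`rg_qe`: `RG` with the constants of (C0) plus the charge form `QE` is at least `RG` with `fQ, e2T, e3T` plus the local
form of `cQ` (tail: `zQ`), minus the penalty.
-/

set_option autoImplicit false

open MeasureTheory Set Filter Topology

namespace Pool.Agent.Helper61.RC.QC

open Helper95.RC (Sup)
open Pool.Agent.Helper20.RC (lk lk_ge lk_sq)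
open Helper41.RC
open Helper41.RC.R02 (wb)

/-! ### casts -/

theorem un_cast (n : ℤ) : un n = ((unQ n : ℚ) : ℝ) := by
  unfold un unQ
  split_ifs <;> push_cast <;> rfl

theorem L2_cast (n : ℤ) : L2n n = ((L2Q n : ℚ) : ℝ) := by
  unfold L2n L2Q
  push_cast
  rfl

theorem L1_cast (n : ℤ) : L1n n = ((L1Q n : ℚ) : ℝ) := by
  unfold L1n L1Q
  push_cast
  rfl

theorem z2_cast (n : ℤ) : z2 n = ((z2Q n : ℚ) : ℝ) := by
  unfold z2 z2Q
  rw [un_cast]
  split_ifs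
  · push_cast; norm_num
  · push_cast; norm_num

theorem p2_cast (n : ℤ) : p2 n = ((p2Q n : ℚ) : ℝ) := by
  unfold p2 p2Q
  rw [L2_cast, L1_cast]
  split_ifs
  · push_cast; rfl
  · push_cast; rfl

theorem r2_cast (n : ℤ) : r2 n = ((r2Q n : ℚ) : ℝ) := by
  unfold r2 r2Q
  rw [L2_cast, L1_cast]
  split_ifs
  · push_cast; rfl
  · push_cast; rfl

theorem x2_cast (n : ℤ) : x2 n = ((x2Q n : ℚ) : ℝ) := by
  unfold x2 x2Q
  rw [L2_cast, L1_cast]
  split_ifs
  · push_cast; rfl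
  · push_cast; rfl

/-! ### the charge form as one frequency-local form -/

/-- coefficients of the charge form -/
noncomputable def qz (n : ℤ) : ℝ := -(wb n + 1 / 9000) - 1 / 25000 - (wQ : ℝ) * z2 n
  - (if n = 3 then 1 / 65 else 0) - (if n = -3 then 1 / 6 else 0) - (if n = -5 then 1 / 6 else 0)
noncomputable def qs (n : ℤ) : ℝ := -((wQ : ℝ) * s2 n)
noncomputable def qp (n : ℤ) : ℝ := -evn (kP (1 / 12) tC xC) n - 1 / 750 - 1 / 1000 - (wQ : ℝ) * p2 n
  - (if n = 0 then 44 / 5 else 0) + (if n = 2 then 1 / 3 - (hQ : ℝ) / 2 else 0)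
  + (if n = -2 then 1 / 3 - (hQ : ℝ) / 2 else 0)
noncomputable def qq (n : ℤ) : ℝ := -evn (kR (1 / 12) tC yC) n - 1 / 750 - 1 / 1000 - (wQ : ℝ) * r2 n
  + (if n = 2 then 1 / 3 - (hQ : ℝ) / 2 else 0) + (if n = -2 then 1 / 3 - (hQ : ℝ) / 2 else 0)
noncomputable def qx (n : ℤ) : ℝ := -odn (kX (1 / 12) tC xC yC) n - (wQ : ℝ) * x2 n
  + (if n = 2 then 1 / 3 else 0) - (if n = -2 then 1 / 3 else 0)

theorem sig_norm (u v : ℂ) : ‖u - Complex.I * v‖ ^ 2 = ‖u‖ ^ 2 + ‖v‖ ^ 2 + 2 * (v * (starRingEnd ℂ) u).im := by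
  rw [← Complex.normSq_eq_norm_sq, ← Complex.normSq_eq_norm_sq, ← Complex.normSq_eq_norm_sq,
    Complex.normSq_apply, Complex.normSq_apply, Complex.normSq_apply, Complex.mul_im, Complex.conj_re,
    Complex.conj_im, Complex.sub_re, Complex.sub_im, Complex.I_mul_re, Complex.I_mul_im]
  ring

theorem QE_FL {M : ℕ} {p r s : ℤ → ℂ} (hP : Par p r s) (hM : 5 ≤ M) : QE M p r s = FL qz qs qp qq qx M p r s := by
  have mem : ∀ a : ℤ, |a| ≤ 5 → a ∈ Finset.Icc (-(M : ℤ)) M := by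
    intro a ha
    have := abs_le.1 ha
    rw [Finset.mem_Icc]
    omega
  set G2 : ℝ := 1 / 3 * ‖p 2 - Complex.I * r 2‖ ^ 2 - (hQ : ℝ) / 2 * (‖p 2‖ ^ 2 + ‖r 2‖ ^ 2) with hG2
  set K1 : ℤ → ℝ := fun n => evn (kP (1 / 12) tC xC) n * ‖p n‖ ^ 2 + evn (kR (1 / 12) tC yC) n * ‖r n‖ ^ 2
    + 2 * odn (kX (1 / 12) tC xC yC) n * (r n * (starRingEnd ℂ) (p n)).im with hK1
  set K4 : ℤ → ℝ := fun n => (wb n + 1 / 9000) * ‖s n‖ ^ 2 + 0 * (s n * s (-n)).re
    + 1 / 750 * ‖p n‖ ^ 2 + 1 / 750 * ‖r n‖ ^ 2 + 2 * 0 * (r n * (starRingEnd ℂ) (p n)).im with hK4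
  set K5 : ℤ → ℝ := fun n => 1 / 25000 * ‖s n‖ ^ 2 + 0 * (s n * s (-n)).re
    + 1 / 1000 * ‖p n‖ ^ 2 + 1 / 1000 * ‖r n‖ ^ 2 + 2 * 0 * (r n * (starRingEnd ℂ) (p n)).im with hK5
  set K2 : ℤ → ℝ := fun n => z2 n * ‖s n‖ ^ 2 + s2 n * (s n * s (-n)).re
    + p2 n * ‖p n‖ ^ 2 + r2 n * ‖r n‖ ^ 2 + 2 * x2 n * (r n * (starRingEnd ℂ) (p n)).im with hK2
  have e1 : ∀ n ∈ Finset.Icc (-(M : ℤ)) M, (qz n * ‖s n‖ ^ 2 + qs n * (s n * s (-n)).re + qp n * ‖p n‖ ^ 2
      + qq n * ‖r n‖ ^ 2 + 2 * qx n * (r n * (starRingEnd ℂ) (p n)).im) =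
      (-K1 n - K4 n - K5 n - (wQ : ℝ) * K2 n)
        + ((if n = 2 then G2 else 0) + (if n = -2 then G2 else 0) + (if n = 0 then -(44 / 5) * ‖p 0‖ ^ 2 else 0)
        + (if n = 3 then -(1 / 65) * ‖s 3‖ ^ 2 else 0) + (if n = -3 then -(1 / 6) * ‖s (-3)‖ ^ 2 else 0)
        + (if n = -5 then -(1 / 6) * ‖s (-5)‖ ^ 2 else 0)) := by
    intro n _
    simp only [hK1, hK4, hK5, hK2]
    by_cases h2 : n = 2
    · subst h2
      rw [hG2, sig_norm]
      unfold qz qs qp qq qx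
      norm_num
      ring
    by_cases h2' : n = -2
    · subst h2'
      rw [hG2, sig_norm]
      have a1 := hP.pc 2
      have a2 := hP.rc 2
      have a3 : (r (-2) * (starRingEnd ℂ) (p (-2))).im = -(r 2 * (starRingEnd ℂ) (p 2)).im := by
        rw [a1, a2, Complex.conj_conj]
        simp only [Complex.mul_im, Complex.conj_re, Complex.conj_im]
        ring
      have a4 : ‖p (-2)‖ = ‖p 2‖ := by rw [a1, Complex.norm_conj]
      have a5 : ‖r (-2)‖ = ‖r 2‖ := by rw [a2, Complex.norm_conj]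
      unfold qz qs qp qq qx
      rw [a3, a4, a5]
      norm_num
      ring
    by_cases h0 : n = 0
    · subst h0
      unfold qz qs qp qq qx
      norm_num
      ring
    by_cases h3 : n = 3
    · subst h3
      unfold qz qs qp qq qx
      norm_num
      ring
    by_cases h3' : n = -3
    · subst h3'
      unfold qz qs qp qq qx
      norm_num
      ring
    by_cases h5 : n = -5
    · subst h5
      unfold qz qs qp qq qx
      norm_num
      ring
    unfold qz qs qp qq qx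
    simp only [if_neg h2, if_neg h2', if_neg h0, if_neg h3, if_neg h3', if_neg h5]
    ring
  unfold FL
  rw [Finset.sum_congr rfl e1, Finset.sum_add_distrib]
  simp only [Finset.sum_add_distrib, Finset.sum_sub_distrib, Finset.sum_neg_distrib, Finset.sum_ite_eq']
  rw [if_pos (mem 2 (by norm_num)), if_pos (mem (-2) (by norm_num)), if_pos (mem 0 (by norm_num)),
    if_pos (mem 3 (by norm_num)), if_pos (mem (-3) (by norm_num)), if_pos (mem (-5) (by norm_num)),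
    ← Finset.mul_sum]
  unfold QE KC KF F4 F5 FL
  rw [hG2]
  ring

/-! ### the coefficients -/

/-- the price of the cross terms -/
noncomputable def yY (n : ℤ) : ℝ := if n = 1 then 2 * (wQ : ℝ) else if n = -1 then (wQ : ℝ) / 8 else
  (wQ : ℝ) / 2 / ((n : ℝ) ^ 2 - 1)

theorem wQ_pos : (0 : ℝ) < (wQ : ℝ) := by
  unfold wQ thQ
  norm_num

/-- `zQ` without the penalty -/
noncomputable def z0 (n : ℤ) : ℝ := (zQ n : ℝ) - (if n = -3 ∨ n = -5 then 10 else 0)

theorem coefZ (n : ℤ) : 287 / 400 + qz n = (fQ : ℝ) + z0 n + yY n := by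
  unfold qz z0 zQ yY fQ wb
  rw [z2_cast]
  by_cases h3 : n = 3
  · subst h3
    push_cast
    norm_num
    ring
  by_cases h3' : n = -3
  · subst h3'
    push_cast
    norm_num
    ring
  by_cases h5 : n = -5
  · subst h5
    push_cast
    norm_num
    ring
  by_cases h1 : n = 1
  · subst h1
    push_cast
    norm_num
    ring
  by_cases h1' : n = -1
  · subst h1'
    push_cast
    norm_num
    ring
  by_cases h6 : n = 5
  · subst h6
    push_cast
    norm_num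
    ring
  by_cases h7 : n = 7
  · subst h7
    push_cast
    norm_num
    ring
  have a1 : ¬ (n = -3 ∨ n = -5) := by tauto
  have a2 : ¬ (n = 1 ∨ n = 3 ∨ n = 5 ∨ n = 7) := by tauto
  simp only [if_neg h3, if_neg h3', if_neg h5, if_neg h1, if_neg h1', if_neg a1, if_neg a2]
  push_cast
  ring

theorem row_ge {n : ℤ} (he : Even n) (h4 : 4 ≤ |n|) : lk (rowOf n) = |(n : ℝ)| ∧ rowOf n ≠ 0 := by
  obtain ⟨j, hj⟩ := he
  have e1 : (n.natAbs : ℤ) = |n| := Int.natCast_natAbs n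
  have e2 : 2 * rowOf n + 2 = n.natAbs := by
    unfold rowOf
    omega
  refine ⟨?_, ?_⟩
  · unfold lk
    have e3 : ((n.natAbs : ℕ) : ℝ) = |(n : ℝ)| := by rw [Nat.cast_natAbs, Int.cast_abs]
    rw [← e3, ← e2]
    push_cast
    ring
  · unfold rowOf
    omega

theorem kC {n : ℤ} (he : Even n) (h4 : 4 ≤ |n|) :
    evn (kP (1 / 12) tC xC) n = 39 / 2 / ((n : ℝ) ^ 2 - 1) ∧
    evn (kR (1 / 12) tC yC) n = 39 / 8 * ((n : ℝ) ^ 2 / ((n : ℝ) ^ 2 - 1)) ∧
    odn (kX (1 / 12) tC xC yC) n = 39 / 4 * ((n : ℝ) / ((n : ℝ) ^ 2 - 1)) := by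
  obtain ⟨h1, h2⟩ := row_ge he h4
  have hn0 : n ≠ 0 := by
    intro h
    rw [h] at h4
    norm_num at h4
  have hd : (0 : ℝ) < (n : ℝ) ^ 2 - 1 := by
    have h5 : ((4 : ℤ) : ℝ) ≤ ((|n| : ℤ) : ℝ) := by exact_mod_cast h4
    rw [Int.cast_abs] at h5
    have h6 := sq_abs (n : ℝ)
    push_cast at h5
    nlinarith
  have hsq : |(n : ℝ)| ^ 2 = (n : ℝ) ^ 2 := sq_abs _
  have hd0 := hd.ne'
  refine ⟨?_, ?_, ?_⟩
  · unfold evn kP aK tC xC
    rw [if_neg hn0, if_neg h2, if_neg h2, if_neg h2, h1, hsq]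
    field_simp
    norm_num
  · unfold evn kR bK tC yC
    rw [if_neg hn0, if_neg h2, if_neg h2, if_neg h2, h1, hsq]
    field_simp
    rw [show (12 * |(n : ℝ)| - 0) ^ 2 = 144 * |(n : ℝ)| ^ 2 by ring, hsq]
    ring
  · unfold odn kX aK bK tC xC yC
    rw [if_neg h2, if_neg h2, if_neg h2, if_neg h2, if_neg h2, h1, hsq]
    rcases lt_or_gt_of_ne hn0 with h | h
    · have h7 : (n : ℝ) < 0 := by exact_mod_cast h
      rw [if_neg (by omega), if_pos h, abs_of_neg h7]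
      field_simp
      ring
    · have h7 : (0 : ℝ) < n := by exact_mod_cast h
      rw [if_pos h, abs_of_pos h7]
      field_simp
      ring

theorem coefP {n : ℤ} (he : Even n) : 391 / 50 + qp n = (e2Q n : ℝ) := by
  unfold qp e2Q
  rw [p2_cast]
  by_cases h2 : n = 2
  · subst h2
    unfold evn kP aK tC xC rowOf lk
    norm_num
    ring
  by_cases h2' : n = -2
  · subst h2'
    unfold evn kP aK tC xC rowOf lk
    norm_num
    ring
  by_cases h0 : n = 0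
  · subst h0
    unfold evn
    norm_num
    ring
  have h4 : 4 ≤ |n| := by
    obtain ⟨j, hj⟩ := he
    rw [le_abs]
    omega
  rw [(kC he h4).1, if_neg h0, if_neg h2, if_neg h2', if_neg h0, if_neg (by tauto)]
  push_cast
  ring

theorem coefR {n : ℤ} (he : Even n) : 739 / 100 + qq n = (e3Q n : ℝ) := by
  unfold qq e3Q
  rw [r2_cast]
  by_cases h2 : n = 2
  · subst h2
    unfold evn kR bK tC yC rowOf lk
    norm_num
    ring
  by_cases h2' : n = -2
  · subst h2'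
    unfold evn kR bK tC yC rowOf lk
    norm_num
    ring
  by_cases h0 : n = 0
  · subst h0
    unfold evn
    norm_num
    ring
  have h4 : 4 ≤ |n| := by
    obtain ⟨j, hj⟩ := he
    rw [le_abs]
    omega
  rw [(kC he h4).2.1, if_neg h2, if_neg h2', if_neg h0, if_neg (by tauto)]
  unfold L2Q
  push_cast
  ring

theorem coefX {n : ℤ} (he : Even n) : qx n = (xQ n : ℝ) := by
  unfold qx xQ
  rw [x2_cast]
  by_cases h2 : n = 2
  · subst h2
    unfold odn kX aK bK tC xC yC rowOf lk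
    norm_num
    ring
  by_cases h2' : n = -2
  · subst h2'
    unfold odn kX aK bK tC xC yC rowOf lk
    norm_num
    ring
  by_cases h0 : n = 0
  · subst h0
    unfold odn
    norm_num
  have h4 : 4 ≤ |n| := by
    obtain ⟨j, hj⟩ := he
    rw [le_abs]
    omega
  rw [(kC he h4).2.2, if_neg h2, if_neg h2', if_neg h0, if_neg h2, if_neg h2']
  unfold L1Q
  push_cast
  ring

theorem cross {n : ℤ} (ho : Odd n) (u v : ℂ) :
    0 ≤ (287 / 800 - (fQ : ℝ) / 2 + qs n) * (u * v).re + 1 / 2 * (yY n * ‖u‖ ^ 2 + yY (-n) * ‖v‖ ^ 2) := by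
  have hre := Complex.abs_re_le_norm (u * v)
  rw [norm_mul] at hre
  have h1 := abs_le.1 hre
  by_cases hn1 : n = 1
  · subst hn1
    have e1 : (287 / 800 - (fQ : ℝ) / 2 + qs 1) = (wQ : ℝ) / 2 := by
      unfold qs s2 un fQ
      push_cast
      norm_num
      ring
    have e2 : yY 1 = 2 * (wQ : ℝ) := by unfold yY; norm_num
    have e3 : yY (-1) = (wQ : ℝ) / 8 := by unfold yY; norm_num
    rw [e1, e2, e3]
    nlinarith [mul_nonneg wQ_pos.le (sq_nonneg (‖u‖ - ‖v‖ / 4)), mul_le_mul_of_nonneg_left h1.1 wQ_pos.le]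
  by_cases hn2 : n = -1
  · subst hn2
    have e1 : (287 / 800 - (fQ : ℝ) / 2 + qs (-1)) = (wQ : ℝ) / 2 := by
      unfold qs s2 un fQ
      push_cast
      norm_num
      ring
    have e2 : yY (-(-1)) = 2 * (wQ : ℝ) := by unfold yY; norm_num
    have e3 : yY (-1) = (wQ : ℝ) / 8 := by unfold yY; norm_num
    rw [e1, e2, e3]
    nlinarith [mul_nonneg wQ_pos.le (sq_nonneg (‖v‖ - ‖u‖ / 4)), mul_le_mul_of_nonneg_left h1.1 wQ_pos.le]
  have h3 : 3 ≤ |n| := by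
    obtain ⟨j, hj⟩ := ho
    rw [le_abs]
    omega
  have hd : (0 : ℝ) < (n : ℝ) ^ 2 - 1 := by
    have h5 : ((3 : ℤ) : ℝ) ≤ ((|n| : ℤ) : ℝ) := by exact_mod_cast h3
    rw [Int.cast_abs] at h5
    have h6 := sq_abs (n : ℝ)
    push_cast at h5
    nlinarith
  have hp1 : (n : ℝ) + 1 ≠ 0 := by
    intro h
    have : (n : ℝ) ^ 2 - 1 = 0 := by nlinarith
    linarith
  have hp2 : -(n : ℝ) + 1 ≠ 0 := by
    intro h
    have : (n : ℝ) ^ 2 - 1 = 0 := by nlinarith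
    linarith
  set y : ℝ := (wQ : ℝ) / 2 / ((n : ℝ) ^ 2 - 1) with hy
  have hy0 : 0 < y := div_pos (div_pos wQ_pos (by norm_num)) hd
  have e1 : (287 / 800 - (fQ : ℝ) / 2 + qs n) = -y := by
    unfold qs s2 un fQ
    rw [if_neg hn2, if_neg (by omega), hy]
    have e4 : (n : ℝ) / (n + 1) * (((-n : ℤ) : ℝ) / (((-n : ℤ) : ℝ) + 1)) = 1 + 1 / ((n : ℝ) ^ 2 - 1) := by
      have hd0 := hd.ne'
      push_cast
      rw [div_mul_div_comm, div_eq_iff (mul_ne_zero hp1 hp2)]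
      field_simp
      ring
    rw [e4]
    push_cast
    ring
  have e2 : yY n = y := by unfold yY; rw [if_neg hn1, if_neg hn2]
  have e3 : yY (-n) = y := by
    unfold yY
    rw [if_neg (by omega), if_neg (by omega), hy]
    push_cast
    ring
  rw [e1, e2, e3]
  nlinarith [sq_nonneg (‖u‖ - ‖v‖), mul_nonneg hy0.le (sq_nonneg (‖u‖ - ‖v‖)), mul_le_mul_of_nonneg_left h1.2 hy0.le]

/-! ### the passage -/

noncomputable def e2T (K : ℕ) (n : ℤ) : ℝ := (e2Q n : ℝ) - (if |n| ≤ K then 0 else |(xQ n : ℝ)|)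
noncomputable def e3T (K : ℕ) (n : ℤ) : ℝ := (e3Q n : ℝ) - (if |n| ≤ K then 0 else |(xQ n : ℝ)|)

/-- the extra form of the sections, window `W` -/
noncomputable def ES (K W : ℕ) (p r s : ℤ → ℂ) : ℝ :=
  ∑ n ∈ Finset.Icc (-(W : ℤ)) W, ((zQ n : ℝ) * ‖s n‖ ^ 2
    + (if |n| ≤ K then 2 * (xQ n : ℝ) * (r n * (starRingEnd ℂ) (p n)).im else 0))

theorem freq {K : ℕ} {p r s : ℤ → ℂ} (hP : Par p r s) (n : ℤ) :
    Lg (fQ : ℝ) (e2T K) (e3T K) p r s n + (z0 n * ‖s n‖ ^ 2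
        + (if |n| ≤ K then 2 * (xQ n : ℝ) * (r n * (starRingEnd ℂ) (p n)).im else 0))
        + 1 / 2 * (yY n * ‖s n‖ ^ 2 - yY (-n) * ‖s (-n)‖ ^ 2) ≤
      Lg (287 / 400) (fun _ => 391 / 50) (fun _ => 739 / 100) p r s n
      + (qz n * ‖s n‖ ^ 2 + qs n * (s n * s (-n)).re + qp n * ‖p n‖ ^ 2
        + qq n * ‖r n‖ ^ 2 + 2 * qx n * (r n * (starRingEnd ℂ) (p n)).im) := by
  unfold Lg
  rcases Int.even_or_odd n with he | ho
  · have h1 := hP.se n he
    have h2 := hP.se (-n) he.neg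
    rw [h1, h2, norm_zero, zero_mul, Complex.zero_re]
    have c1 := coefP he
    have c2 := coefR he
    have c3 := coefX he
    unfold e2T e3T
    by_cases hK : |n| ≤ K
    · rw [if_pos hK, if_pos hK, c3]
      nlinarith [c1, c2]
    · rw [if_neg hK, if_neg hK, c3]
      have h3 := Complex.abs_im_le_norm (r n * (starRingEnd ℂ) (p n))
      rw [norm_mul, Complex.norm_conj] at h3
      have h4 : |(xQ n : ℝ) * (r n * (starRingEnd ℂ) (p n)).im| ≤ |(xQ n : ℝ)| * (‖r n‖ * ‖p n‖) := by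
        rw [abs_mul]
        exact mul_le_mul_of_nonneg_left h3 (abs_nonneg _)
      have h5 := (abs_le.1 h4).1
      have h6 : 2 * (|(xQ n : ℝ)| * (‖r n‖ * ‖p n‖)) ≤ |(xQ n : ℝ)| * (‖r n‖ ^ 2 + ‖p n‖ ^ 2) := by
        nlinarith [mul_nonneg (abs_nonneg (xQ n : ℝ)) (sq_nonneg (‖r n‖ - ‖p n‖))]
      nlinarith [c1, c2]
  · have h1 := hP.po n ho
    have h2 := hP.ro n ho
    have c0 := coefZ n
    have c1 := cross ho (s n) (s (-n))
    rw [h1, h2, norm_zero, map_zero, mul_zero, Complex.zero_im]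
    have e : (if |n| ≤ (K : ℤ) then 2 * (xQ n : ℝ) * 0 else 0) = 0 := by split_ifs <;> simp
    rw [e]
    nlinarith [c0, c1]

theorem sum_anti (g : ℤ → ℝ) (M : ℕ) : ∑ n ∈ Finset.Icc (-(M : ℤ)) M, (g n - g (-n)) = 0 := by
  rw [Finset.sum_sub_distrib]
  have h : ∑ n ∈ Finset.Icc (-(M : ℤ)) M, g (-n) = ∑ n ∈ Finset.Icc (-(M : ℤ)) M, g n := by
    refine Finset.sum_bij (fun n _ => -n) ?_ ?_ ?_ ?_
    · intro n hn
      rw [Finset.mem_Icc] at hn ⊢
      omega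
    · intro a _ b _ hab
      have : -a = -b := hab
      omega
    · intro n hn
      rw [Finset.mem_Icc] at hn
      exact ⟨-n, Finset.mem_Icc.2 (by omega), by omega⟩
    · intro n _
      rfl
  rw [h, sub_self]

theorem sum_win {g : ℤ → ℝ} {M W : ℕ} (hMW : M ≤ W) (h : ∀ n : ℤ, n ∉ Finset.Icc (-(M : ℤ)) M → g n = 0) :
    ∑ n ∈ Finset.Icc (-(W : ℤ)) W, g n = ∑ n ∈ Finset.Icc (-(M : ℤ)) M, g n := by
  symm
  apply Finset.sum_subset
  · intro n hn
    rw [Finset.mem_Icc] at hn ⊢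
    omega
  · intro n _ hn
    exact h n hn

/-- **FROM THE CHARGE FORM TO THE TABLE** -/
theorem rg_qe {ψ : ℝ → ℝ} {S : Finset ℤ} {K M W : ℕ} {p r s : ℤ → ℂ} (hP : Par p r s) (sp : Sup M p) (sr : Sup M r)
    (ss : Sup M s) (hM : 5 ≤ M) (hMW : M ≤ W) :
    RG ψ (fun _ => 0) (fQ : ℝ) (e2T K) (e3T K) S (Finset.Icc (-(W : ℤ)) W) p r s + ES K W p r s ≤
      RG ψ (fun _ => 0) (287 / 400) (fun _ => 391 / 50) (fun _ => 739 / 100) S (Finset.Icc (-(W : ℤ)) W) p r s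
      + QE M p r s + 10 * (‖s (-3)‖ ^ 2 + ‖s (-5)‖ ^ 2) := by
  have hL : ∀ (f : ℝ) (e2 e3 : ℤ → ℝ), ∀ n : ℤ, n ∉ Finset.Icc (-(M : ℤ)) M → Lg f e2 e3 p r s n = 0 := by
    intro f e2 e3 n hn
    unfold Lg
    rw [sp n hn, sr n hn, ss n hn]
    simp
  have mem : ∀ a : ℤ, |a| ≤ 5 → a ∈ Finset.Icc (-(M : ℤ)) M := by
    intro a ha
    have := abs_le.1 ha
    rw [Finset.mem_Icc]
    omega
  have hsum := Finset.sum_le_sum fun (n : ℤ) (_ : n ∈ Finset.Icc (-(M : ℤ)) M) => freq (K := K) hP n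
  have hA := sum_anti (fun n => yY n * ‖s n‖ ^ 2) M
  have hES : ES K W p r s = ∑ n ∈ Finset.Icc (-(M : ℤ)) M, (z0 n * ‖s n‖ ^ 2
        + (if |n| ≤ K then 2 * (xQ n : ℝ) * (r n * (starRingEnd ℂ) (p n)).im else 0))
        + 10 * (‖s (-3)‖ ^ 2 + ‖s (-5)‖ ^ 2) := by
    unfold ES
    rw [sum_win hMW (fun n hn => by
      rw [sp n hn, sr n hn, ss n hn]
      simp)]
    have e1 : ∀ n ∈ Finset.Icc (-(M : ℤ)) M, ((zQ n : ℝ) * ‖s n‖ ^ 2
        + (if |n| ≤ K then 2 * (xQ n : ℝ) * (r n * (starRingEnd ℂ) (p n)).im else 0)) =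
        (z0 n * ‖s n‖ ^ 2 + (if |n| ≤ K then 2 * (xQ n : ℝ) * (r n * (starRingEnd ℂ) (p n)).im else 0))
        + ((if n = -3 then 10 * ‖s (-3)‖ ^ 2 else 0) + (if n = -5 then 10 * ‖s (-5)‖ ^ 2 else 0)) := by
      intro n _
      unfold z0
      by_cases h3 : n = -3
      · subst h3
        norm_num
        ring
      by_cases h5 : n = -5
      · subst h5
        norm_num
        ring
      have h35 : ¬ (n = -3 ∨ n = -5) := by tauto
      rw [if_neg h3, if_neg h5, if_neg h35]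
      ring
    rw [Finset.sum_congr rfl e1]
    simp only [Finset.sum_add_distrib, Finset.sum_ite_eq']
    rw [if_pos (mem (-3) (by norm_num)), if_pos (mem (-5) (by norm_num))]
    ring
  rw [hES, QE_FL hP hM]
  unfold RG FL
  rw [sum_win hMW (hL _ _ _), sum_win hMW (hL _ _ _)]
  simp only [Finset.sum_add_distrib] at hsum
  rw [← Finset.mul_sum, hA] at hsum
  simp only [Finset.sum_add_distrib]
  linarith

end Pool.Agent.Helper61.RC.QC
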