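import Pool.Agent.Helper56.RC.St
import Pool.Agent.Helper44.RC.M_INTL

/-! # Project RC: module DEL -/

open MeasureTheory Set Filter Metric

namespace Pool.Agent.Helper61.RC

open Helper49.LT hiding sg
open Helper49.RC Helper44.RC
open Helper87.RC hiding KK
open Helper56.RC hiding KK

section gen

variable {m : ℕ}

/-- termwise integration -/
theorem ser_int {e : ℝ → Fin m → ℂ} (he : ∀ k, Measurable fun t => e t k) {C : ℝ}
    (hC : ∀ t k, ‖e t k‖ ≤ C) {c : ℕ → ℂ} (hc : Summable fun k => ‖c k‖) (ν : ℕ → ℕ) :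
    HasSum (fun k => ((starRingEnd ℂ) (c k) * ∫ s in (0 : ℝ)..(2 * Real.pi), EE e (ν k) s).re)
      (∫ s in (0 : ℝ)..(2 * Real.pi), ∑' k, ((starRingEnd ℂ) (c k) * EE e (ν k) s).re) := by
  have hE : ∀ n, IntervalIntegrable (EE e n) volume 0 (2 * Real.pi) := fun n =>
    intg_of_bddC (EE_meas he n) (EE_le hC n) _ _
  have hb : ∀ k s, ‖((starRingEnd ℂ) (c k) * EE e (ν k) s).re‖ ≤ ‖c k‖ * (m * C) := fun k s => by
    rw [Real.norm_eq_abs]
    exact cm_re_le le_rfl (EE_le hC (ν k) s)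
  have hs : Summable fun k => ‖c k‖ * (m * C) := hc.mul_right _
  have h := intervalIntegral.hasSum_integral_of_dominated_convergence (μ := volume)
    (a := 0) (b := 2 * Real.pi)
    (F := fun (k : ℕ) s => ((starRingEnd ℂ) (c k) * EE e (ν k) s).re)
    (f := fun s => ∑' k, ((starRingEnd ℂ) (c k) * EE e (ν k) s).re)
    (fun k _ => ‖c k‖ * (m * C))
    (fun k => by
      have hi : Measurable (fun s => ((starRingEnd ℂ) (c k) * EE e (ν k) s).re) :=
        Complex.measurable_re.comp ((EE_meas he (ν k)).const_mul _)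
      exact hi.aestronglyMeasurable)
    (fun k => Filter.Eventually.of_forall fun s _ => hb k s)
    (Filter.Eventually.of_forall fun s _ => hs)
    intervalIntegrable_const
    (Filter.Eventually.of_forall fun s _ =>
      (Summable.of_norm_bounded hs (fun k => hb k s)).hasSum)
  have e1 : (fun k : ℕ => ∫ s in (0 : ℝ)..(2 * Real.pi), ((starRingEnd ℂ) (c k) * EE e (ν k) s).re) =
      fun k : ℕ => ((starRingEnd ℂ) (c k) * ∫ s in (0 : ℝ)..(2 * Real.pi), EE e (ν k) s).re := by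
    funext k
    rw [int_cm _ (hE _)]
  rw [e1] at h
  exact h

theorem dk_pos (k : ℕ) : 0 < (2 * (k : ℝ) + 2) ^ 2 - 1 := by
  have : (0 : ℝ) ≤ k := k.cast_nonneg
  nlinarith

theorem dk_summable : Summable (fun k : ℕ => 1 / ((2 * (k : ℝ) + 2) ^ 2 - 1)) := by
  refine Summable.of_nonneg_of_le (fun k => (one_div_pos.2 (dk_pos k)).le) (fun k => ?_)
    (bd2_summable 1 1)
  have hk : (0 : ℝ) ≤ k := k.cast_nonneg
  have h3 : ((k : ℝ) + 2) ^ 2 - 1 ≤ (2 * (k : ℝ) + 2) ^ 2 - 1 := by nlinarith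
  have h4 := one_div_le_one_div_of_le (den_pos k) h3
  refine h4.trans ?_
  have h5 := one_div_pos.2 (den_pos k)
  rw [show 2 * ((1 : ℝ) * 1) / (((k : ℝ) + 2) ^ 2 - 1) = 2 * (1 / (((k : ℝ) + 2) ^ 2 - 1)) by ring]
  linarith

theorem re_cc (a b : ℂ) : ((starRingEnd ℂ) a * b).re = ((starRingEnd ℂ) b * a).re := by
  simp [Complex.mul_re]
  ring

/-- the coefficients for a fixed vector `z` -/
noncomputable def cz (z : ℂ) (k : ℕ) : ℂ :=
  ((2 / ((2 * (k : ℝ) + 2) ^ 2 - 1) : ℝ) : ℂ) * nn (2 * k + 2) z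

theorem cz_summable (z : ℂ) : Summable fun k => ‖cz z k‖ := by
  refine Summable.of_nonneg_of_le (fun k => norm_nonneg _) (fun k => ?_)
    (dk_summable.mul_left (2 * ‖z‖))
  unfold cz
  have h := dk_pos k
  rw [norm_mul, Complex.norm_real, Real.norm_eq_abs, abs_of_pos (by positivity)]
  have h1 := norm_nn_le (2 * k + 2) z
  calc 2 / ((2 * (k : ℝ) + 2) ^ 2 - 1) * ‖nn (2 * k + 2) z‖
      ≤ 2 / ((2 * (k : ℝ) + 2) ^ 2 - 1) * ‖z‖ := mul_le_mul_of_nonneg_left h1 (by positivity)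
    _ = 2 * ‖z‖ * (1 / ((2 * (k : ℝ) + 2) ^ 2 - 1)) := by ring

theorem cz_re (z w : ℂ) (k : ℕ) : ((starRingEnd ℂ) (cz z k) * w).re =
    2 / ((2 * (k : ℝ) + 2) ^ 2 - 1) * ((starRingEnd ℂ) (nn (2 * k + 2) z) * w).re := by
  unfold cz
  rw [map_mul, Complex.conj_ofReal, mul_assoc, Complex.re_ofReal_mul]

theorem EE_zero_re (e : ℝ → Fin m → ℂ) (t : ℝ) : EE e 0 t = ((∑ j, ‖e t j‖ : ℝ) : ℂ) := by
  unfold EE
  simp_rw [nn_zero]
  push_cast
  rfl

theorem EE_zero_int (e : ℝ → Fin m → ℂ) : (∫ t in (0 : ℝ)..(2 * Real.pi), EE e 0 t) =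
    ((∫ t in (0 : ℝ)..(2 * Real.pi), ∑ j, ‖e t j‖ : ℝ) : ℂ) := by
  simp_rw [EE_zero_re]
  exact intervalIntegral.integral_ofReal

/-- step A -/
theorem stepA (h1 : StAsn) {e : ℝ → Fin m → ℂ} (he : ∀ k, Measurable fun t => e t k) {C : ℝ}
    (hC : ∀ t k, ‖e t k‖ ≤ C) (z : ℂ) :
    HasSum (fun k : ℕ => ((starRingEnd ℂ) (cz z k) *
        ∫ t in (0 : ℝ)..(2 * Real.pi), EE e (2 * k + 2) t).re)
      ((∫ t in (0 : ℝ)..(2 * Real.pi), ∑ j, ‖e t j‖) * ‖z‖ -
        Real.pi / 2 * ∫ t in (0 : ℝ)..(2 * Real.pi), ∑ j, |(z * (starRingEnd ℂ) (e t j)).im|) := by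
  have h := ser_int he hC (cz_summable z) (fun k => 2 * k + 2)
  have hp : ∀ t, ∑' k, ((starRingEnd ℂ) (cz z k) * EE e (2 * k + 2) t).re =
      (∑ j, ‖e t j‖) * ‖z‖ - Real.pi / 2 * ∑ j, |(z * (starRingEnd ℂ) (e t j)).im| := by
    intro t
    have h2 : HasSum (fun k : ℕ => ∑ j, 2 * ((starRingEnd ℂ) (nn (2 * k + 2) (e t j)) *
        nn (2 * k + 2) z).re / ((2 * (k : ℝ) + 2) ^ 2 - 1))
        (∑ j, (‖e t j‖ * ‖z‖ - Real.pi / 2 * |(z * (starRingEnd ℂ) (e t j)).im|)) :=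
      hasSum_sum fun j _ => h1 (e t j) z
    have e1 : (fun k : ℕ => ∑ j, 2 * ((starRingEnd ℂ) (nn (2 * k + 2) (e t j)) *
        nn (2 * k + 2) z).re / ((2 * (k : ℝ) + 2) ^ 2 - 1)) =
        fun k : ℕ => ((starRingEnd ℂ) (cz z k) * EE e (2 * k + 2) t).re := by
      funext k
      rw [cz_re]
      unfold EE
      rw [Finset.mul_sum, Complex.re_sum, Finset.mul_sum]
      refine Finset.sum_congr rfl fun j _ => ?_
      rw [re_cc]
      ring
    rw [e1] at h2
    rw [h2.tsum_eq, Finset.sum_sub_distrib, Finset.sum_mul, Finset.mul_sum]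
  simp_rw [hp] at h
  have hm1 : Measurable (fun t => ∑ j, ‖e t j‖) := Finset.measurable_sum _ fun j _ => (he j).norm
  have hb1 : ∀ t, |∑ j, ‖e t j‖| ≤ m * C := by
    intro t
    have := EE_le hC 0 t
    rw [EE_zero_re, Complex.norm_real, Real.norm_eq_abs] at this
    exact this
  have hm2 : Measurable (fun t => ∑ j, |(z * (starRingEnd ℂ) (e t j)).im|) := by
    refine Finset.measurable_sum _ fun j _ => ?_
    exact (Complex.measurable_im.comp
      ((Complex.continuous_conj.measurable.comp (he j)).const_mul z)).abs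
  have hb2 : ∀ t, abs (∑ j, |(z * (starRingEnd ℂ) (e t j)).im|) ≤ m * (‖z‖ * C) := by
    intro t
    refine (Finset.abs_sum_le_sum_abs _ _).trans ?_
    have : ∑ j : Fin m, abs (|(z * (starRingEnd ℂ) (e t j)).im|) ≤ ∑ j : Fin m, ‖z‖ * C := by
      refine Finset.sum_le_sum fun j _ => ?_
      rw [abs_abs]
      refine (Complex.abs_im_le_norm _).trans ?_
      rw [norm_mul, Complex.norm_conj]
      exact mul_le_mul_of_nonneg_left (hC t j) (norm_nonneg z)
    refine this.trans (le_of_eq ?_)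
    simp
  have hi1 := intg_of_bdd hm1 hb1 0 (2 * Real.pi)
  have hi2 := intg_of_bdd hm2 hb2 0 (2 * Real.pi)
  rw [intervalIntegral.integral_sub (hi1.mul_const _) (hi2.const_mul _),
    intervalIntegral.integral_mul_const, intervalIntegral.integral_const_mul] at h
  exact h

end gen

variable {β P : ℝ → ℂ}

/-- the edges 1, 2 -/
noncomputable def e2 (β P : ℝ → ℂ) (t : ℝ) : Fin 2 → ℂ :=
  ![ee t * f1 (β t) (P t), ee t * f2 (β t) (P t)]

theorem e2_le (h : Adm β P) (t : ℝ) (k : Fin 2) : ‖e2 β P t k‖ ≤ 6 := by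
  have hb := beta_le h t
  have hp := P_le h t
  fin_cases k
  · exact f1_le hb hp t
  · exact f2_le hb hp t

theorem e2_meas (h : Adm β P) (k : Fin 2) : Measurable (fun t => e2 β P t k) := by
  fin_cases k
  · exact m1 h.mb h.mp
  · exact m2 h.mb h.mp

theorem sN_EE (n : ℕ) : sN β P n = (1 / (2 * Real.pi) : ℂ) *
    ∫ t in (0 : ℝ)..(2 * Real.pi), EE (e2 β P) n t := by
  unfold sN EE
  simp_rw [Fin.sum_univ_two]
  rfl

/-- an integral over the period of absolute values, lower bound -/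
theorem abs_low {q G : ℝ → ℂ} (hq : Measurable q) {C : ℝ} (hC : ∀ t, ‖q t‖ ≤ C)
    (hG : Measurable G) (hGC : ∀ t, ‖G t‖ ≤ C)
    (hper : ∀ t, q (t + 2 * Real.pi) = q t) (hd : ∀ t, q t - q (t + Real.pi) = 2 * G t)
    (ha : ∀ t, G (t + Real.pi) = -G t) (z : ℂ) (φ : ℝ) :
    2 * (z * (starRingEnd ℂ) (∫ t in (φ - Real.pi)..φ, G t)).im ≤
      ∫ t in (0 : ℝ)..(2 * Real.pi), |(z * (starRingEnd ℂ) (q t)).im| := by
  have hmi : ∀ {u : ℝ → ℂ}, Measurable u → Measurable (fun t => (z * (starRingEnd ℂ) (u t)).im) :=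
    fun hu => Complex.measurable_im.comp ((Complex.continuous_conj.measurable.comp hu).const_mul z)
  have hbi : ∀ {u : ℝ → ℂ}, (∀ t, ‖u t‖ ≤ C) → ∀ t, |(z * (starRingEnd ℂ) (u t)).im| ≤ ‖z‖ * C := by
    intro u hu t
    refine (Complex.abs_im_le_norm _).trans ?_
    rw [norm_mul, Complex.norm_conj]
    exact mul_le_mul_of_nonneg_left (hu t) (norm_nonneg z)
  have hi : IntervalIntegrable (fun t => |(z * (starRingEnd ℂ) (q t)).im|) volume 0 (2 * Real.pi) :=
    intg_of_bdd (hmi hq).abs (fun t => by rw [abs_abs]; exact hbi hC t) _ _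
  have hq2 : Measurable (fun t => q (t + Real.pi)) := hq.comp (measurable_id.add_const _)
  have hi2 : IntervalIntegrable (fun t => |(z * (starRingEnd ℂ) (q (t + Real.pi))).im|) volume 0
      (2 * Real.pi) :=
    intg_of_bdd (hmi hq2).abs (fun t => by rw [abs_abs]; exact hbi (fun t => hC _) t) _ _
  have hs : ∫ t in (0 : ℝ)..(2 * Real.pi), |(z * (starRingEnd ℂ) (q (t + Real.pi))).im| =
      ∫ t in (0 : ℝ)..(2 * Real.pi), |(z * (starRingEnd ℂ) (q t)).im| := by
    have h1 := intervalIntegral.integral_comp_add_right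
      (f := fun t => |(z * (starRingEnd ℂ) (q t)).im|) (a := 0) (b := 2 * Real.pi) Real.pi
    rw [h1]
    have h2 := int_perR (g := fun t => |(z * (starRingEnd ℂ) (q t)).im|)
      (fun t => by simp only [hper]) Real.pi
    rw [h2]
    congr 1 <;> ring
  have hsm : Measurable (fun t => (sgs (φ - t) : ℂ) * G t) :=
    (Complex.measurable_ofReal.comp (sgs_meas.comp (measurable_const.sub measurable_id))).mul hG
  have hsb : ∀ t, ‖(sgs (φ - t) : ℂ) * G t‖ ≤ C := by
    intro t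
    rw [norm_mul, Complex.norm_real, Real.norm_eq_abs]
    have := mul_le_mul (sgs_abs (φ - t)) (hGC t) (norm_nonneg _) (by norm_num)
    linarith
  have h3 := im_int z (intg_of_bddC hsm hsb 0 (2 * Real.pi))
  rw [int_sgs hG hGC ha φ] at h3
  have h4 : ∫ t in (0 : ℝ)..(2 * Real.pi), 2 * (z * (starRingEnd ℂ) ((sgs (φ - t) : ℂ) * G t)).im ≤
      ∫ t in (0 : ℝ)..(2 * Real.pi), (|(z * (starRingEnd ℂ) (q t)).im| +
        |(z * (starRingEnd ℂ) (q (t + Real.pi))).im|) := by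
    refine intervalIntegral.integral_mono_on (by positivity) ?_ (hi.add hi2) fun t _ => ?_
    · exact (intg_of_bdd (hmi hsm) (hbi hsb) _ _).const_mul 2
    · have h5 : (z * (starRingEnd ℂ) ((sgs (φ - t) : ℂ) * G t)).im =
          sgs (φ - t) * (z * (starRingEnd ℂ) (G t)).im := by
        rw [map_mul, Complex.conj_ofReal, mul_left_comm, Complex.im_ofReal_mul]
      have h6 : 2 * (z * (starRingEnd ℂ) (G t)).im = (z * (starRingEnd ℂ) (q t)).im -
          (z * (starRingEnd ℂ) (q (t + Real.pi))).im := by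
        rw [← Complex.sub_im, ← mul_sub, ← map_sub, hd, map_mul]
        simp only [map_ofNat, Complex.mul_im, Complex.mul_re, Complex.re_ofNat, Complex.im_ofNat]
        ring
      have h7 := sgs_abs (φ - t)
      rw [h5]
      have h8 : 2 * (sgs (φ - t) * (z * (starRingEnd ℂ) (G t)).im) ≤
          |2 * (z * (starRingEnd ℂ) (G t)).im| := by
        have h9 : 2 * (sgs (φ - t) * (z * (starRingEnd ℂ) (G t)).im) =
          sgs (φ - t) * (2 * (z * (starRingEnd ℂ) (G t)).im) := by ring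
        rw [h9]
        refine (le_abs_self _).trans ?_
        rw [abs_mul]
        exact mul_le_of_le_one_left (abs_nonneg _) h7
      refine h8.trans ?_
      rw [h6]
      exact abs_sub _ _
  rw [intervalIntegral.integral_add hi hi2, hs, intervalIntegral.integral_const_mul, h3] at h4
  have h5 : (z * (starRingEnd ℂ) (2 * ∫ t in (φ - Real.pi)..φ, G t)).im =
      2 * (z * (starRingEnd ℂ) (∫ t in (φ - Real.pi)..φ, G t)).im := by
    rw [map_mul]
    simp only [map_ofNat, Complex.mul_im, Complex.mul_re, Complex.re_ofNat, Complex.im_ofNat]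
    ring
  rw [h5] at h4
  linarith

/-- integral of a character -/
theorem int_char (n : ℤ) : ∫ t in (0 : ℝ)..(2 * Real.pi), ee (-((n : ℝ) * t)) =
    if n = 0 then (2 * Real.pi : ℂ) else 0 := by
  split_ifs with hn
  · subst hn
    simp [ee_zero]
  · have hn' : (n : ℂ) ≠ 0 := by exact_mod_cast hn
    have hc : (((-(n : ℝ) : ℝ) : ℂ)) * Complex.I ≠ 0 := by
      refine mul_ne_zero ?_ Complex.I_ne_zero
      push_cast
      exact neg_ne_zero.2 hn'
    have h1 : ∀ t : ℝ, HasDerivAt (fun s : ℝ => ee (-(n : ℝ) * s) / (((-(n : ℝ) : ℝ) : ℂ) * Complex.I))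
        (ee (-(n : ℝ) * t)) t := by
      intro t
      have h2 := (hasDerivAt_ee (-(n : ℝ)) t).div_const (((-(n : ℝ) : ℝ) : ℂ) * Complex.I)
      rw [mul_div_assoc, mul_div_cancel₀] at h2
      · exact h2
      · exact hc
    have h3 : ∀ t : ℝ, ee (-((n : ℝ) * t)) = ee (-(n : ℝ) * t) := fun t => by rw [neg_mul]
    simp_rw [h3]
    rw [intervalIntegral.integral_eq_sub_of_hasDerivAt (fun t _ => h1 t)
      ((continuous_ee.comp (continuous_const.mul continuous_id)).intervalIntegrable _ _)]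
    have h4 : ee (-(n : ℝ) * (2 * Real.pi)) = 1 := by
      have h5 := ee_int (-n) 0
      rw [zero_add, mul_zero, ee_zero] at h5
      push_cast at h5
      exact h5
    rw [h4, mul_zero, ee_zero, sub_self]

theorem beta_two_pi (h : Adm β P) (t : ℝ) : β (t + 2 * Real.pi) = β t := by
  rw [two_mul, ← add_assoc, h.perb, h.perb]

/-- Fourier coefficients of a shifted function -/
theorem fc_shift (h : Adm β P) (c0 : ℂ) (a : ℝ) (n : ℤ) :
    fc (fun t => 1 + c0 * β (t - a)) n =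
      (if n = 0 then 1 else 0) + c0 * (ee (-((n : ℝ) * a)) * fc β n) := by
  have hpi : (2 * Real.pi : ℂ) ≠ 0 := by exact_mod_cast Real.two_pi_pos.ne'
  have hc : Continuous (fun t : ℝ => ee (-((n : ℝ) * t))) :=
    continuous_ee.comp (continuous_const.mul continuous_id).neg
  have hb1 : ∀ t, ‖β (t - a) * ee (-((n : ℝ) * t))‖ ≤ 2 := by
    intro t
    rw [norm_mul, norm_ee, mul_one]
    exact beta_le h _
  have hm1 : Measurable (fun t => β (t - a) * ee (-((n : ℝ) * t))) :=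
    (h.mb.comp (measurable_id.sub_const a)).mul hc.measurable
  have hi1 := intg_of_bddC hm1 hb1 0 (2 * Real.pi)
  have hi0 : IntervalIntegrable (fun t : ℝ => ee (-((n : ℝ) * t))) volume 0 (2 * Real.pi) :=
    hc.intervalIntegrable _ _
  have h1 : ∫ t in (0 : ℝ)..(2 * Real.pi), (1 + c0 * β (t - a)) * ee (-((n : ℝ) * t)) =
      (∫ t in (0 : ℝ)..(2 * Real.pi), ee (-((n : ℝ) * t))) +
        c0 * ∫ t in (0 : ℝ)..(2 * Real.pi), β (t - a) * ee (-((n : ℝ) * t)) := by
    rw [← intervalIntegral.integral_const_mul, ← intervalIntegral.integral_add hi0 (hi1.const_mul c0)]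
    refine intervalIntegral.integral_congr fun t _ => ?_
    show (1 + c0 * β (t - a)) * ee (-((n : ℝ) * t)) =
      ee (-((n : ℝ) * t)) + c0 * (β (t - a) * ee (-((n : ℝ) * t)))
    ring
  have h2 : ∫ t in (0 : ℝ)..(2 * Real.pi), β (t - a) * ee (-((n : ℝ) * t)) =
      ee (-((n : ℝ) * a)) * ∫ t in (0 : ℝ)..(2 * Real.pi), β t * ee (-((n : ℝ) * t)) := by
    have h3 := intervalIntegral.integral_comp_sub_right
      (f := fun t => β t * ee (-((n : ℝ) * (t + a)))) (a := 0) (b := 2 * Real.pi) a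
    have h4 : ∀ t : ℝ, β (t - a) * ee (-((n : ℝ) * (t - a + a))) = β (t - a) * ee (-((n : ℝ) * t)) :=
      fun t => by rw [sub_add_cancel]
    simp only [h4] at h3
    rw [h3]
    have h5 : ∀ t : ℝ, β t * ee (-((n : ℝ) * (t + a))) =
        ee (-((n : ℝ) * a)) * (β t * ee (-((n : ℝ) * t))) := by
      intro t
      rw [show -((n : ℝ) * (t + a)) = -((n : ℝ) * a) + -((n : ℝ) * t) by ring, ee_add]
      ring
    simp_rw [h5]
    rw [intervalIntegral.integral_const_mul]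
    congr 1
    have h6 := int_per (g := fun t => β t * ee (-((n : ℝ) * t))) (fun t => by
      rw [beta_two_pi h]
      have h7 := ee_int (-n) t
      push_cast at h7
      rw [show -((n : ℝ) * (t + 2 * Real.pi)) = -(n : ℝ) * (t + 2 * Real.pi) by ring, h7, neg_mul])
      (0 - a)
    rw [h6]
    congr 1
    ring
  unfold fc
  rw [h1, h2, int_char]
  split_ifs
  · field_simp
  · ring

theorem om_conj_mul : (starRingEnd ℂ) om * om = 1 := by
  unfold om
  exact ee_conj_mul _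

theorem om_four : om ^ 4 = -om := by
  have h := Helper87.RC.om_sq
  linear_combination (om ^ 2 + om) * h

theorem om_six : om ^ 6 = 1 := by
  have h := Helper87.RC.om_sq
  have h3 : om ^ 3 = -1 := by linear_combination (om + 1) * h
  calc om ^ 6 = (om ^ 3) ^ 2 := by ring
    _ = 1 := by rw [h3]; ring

theorem om_sum (k : ℕ) : om ^ (2 * k) + om ^ (4 * k) = if k % 3 = 0 then 2 else -1 := by
  have h2 := Helper87.RC.om_sq
  have h4 := om_four
  have h6 := om_six
  have hk : k = 3 * (k / 3) + k % 3 := (Nat.div_add_mod k 3).symm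
  have e1 : om ^ (2 * k) = om ^ (2 * (k % 3)) := by
    conv_lhs => rw [hk]
    rw [show 2 * (3 * (k / 3) + k % 3) = 6 * (k / 3) + 2 * (k % 3) by ring, pow_add, pow_mul, h6,
      one_pow, one_mul]
  have e2 : om ^ (4 * k) = om ^ (4 * (k % 3)) := by
    conv_lhs => rw [hk]
    rw [show 4 * (3 * (k / 3) + k % 3) = 6 * (2 * (k / 3)) + 4 * (k % 3) by ring, pow_add, pow_mul,
      h6, one_pow, one_mul]
  rw [e1, e2]
  have h3 : k % 3 < 3 := Nat.mod_lt _ (by norm_num)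
  interval_cases k % 3
  · norm_num
  · simp only [mul_one, one_ne_zero, if_false]
    rw [h4, h2]
    ring
  · simp only [OfNat.ofNat_ne_zero, if_false]
    have h8 : om ^ (4 * 2) = om ^ 2 := by
      calc om ^ (4 * 2) = om ^ 6 * om ^ 2 := by ring
        _ = om ^ 2 := by rw [h6, one_mul]
    rw [h8, show 2 * 2 = 4 by norm_num, h4, h2]
    ring

theorem ee_om (n : ℕ) (j : ℕ) : ee ((n : ℝ) * ((j : ℝ) * (Real.pi / 3))) = om ^ (j * n) := by
  have h := ee_int_mul ((j * n : ℕ) : ℤ) (Real.pi / 3)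
  rw [zpow_natCast] at h
  unfold om
  rw [← h]
  congr 1
  push_cast
  ring

/-- the coefficient of the frequency `2 k + 2`, summed over the edges -/
theorem coef_pos (k : ℕ) : (starRingEnd ℂ) om ^ 2 * ee (-((2 * (k : ℝ) + 2) * (Real.pi / 3))) +
    (starRingEnd ℂ) om ^ 4 * ee (-((2 * (k : ℝ) + 2) * (2 * (Real.pi / 3)))) = (chu k : ℂ) := by
  have h1 := ee_om (2 * k + 2) 1
  have h2 := ee_om (2 * k + 2) 2
  push_cast at h1 h2
  rw [one_mul, one_mul] at h1
  rw [ee_neg, ee_neg, h1, h2, ← map_pow, ← map_pow, ← map_mul, ← map_mul, ← map_add]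
  have h3 : om ^ 2 * om ^ (2 * k + 2) + om ^ 4 * om ^ (2 * (2 * k + 2)) =
      om ^ (2 * (k + 2)) + om ^ (4 * (k + 2)) := by ring
  rw [h3, om_sum]
  unfold chu
  have h4 : (k + 2) % 3 = 0 ↔ k % 3 = 1 := by omega
  simp only [h4]
  split_ifs
  · rw [map_ofNat]; norm_num
  · simp

/-- the coefficient of the frequency `-(2 k + 2)`, summed over the edges -/
theorem coef_neg (k : ℕ) : (starRingEnd ℂ) om ^ 2 * ee ((2 * (k : ℝ) + 2) * (Real.pi / 3)) +
    (starRingEnd ℂ) om ^ 4 * ee ((2 * (k : ℝ) + 2) * (2 * (Real.pi / 3))) = (chw k : ℂ) := by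
  have h1 := ee_om (2 * k + 2) 1
  have h2 := ee_om (2 * k + 2) 2
  push_cast at h1 h2
  rw [one_mul, one_mul] at h1
  have hc := om_conj_mul
  have h5 : (starRingEnd ℂ) om ^ 2 * om ^ 2 = 1 := by rw [← mul_pow, hc, one_pow]
  have h6 : (starRingEnd ℂ) om ^ 4 * om ^ 4 = 1 := by rw [← mul_pow, hc, one_pow]
  rw [h1, h2]
  have h3 : (starRingEnd ℂ) om ^ 2 * om ^ (2 * k + 2) + (starRingEnd ℂ) om ^ 4 *
      om ^ (2 * (2 * k + 2)) = om ^ (2 * k) + om ^ (4 * k) := by
    rw [pow_add, show 2 * (2 * k + 2) = 4 * k + 4 by ring, pow_add]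
    linear_combination om ^ (2 * k) * h5 + om ^ (4 * k) * h6
  rw [h3, om_sum]
  unfold chw
  split_ifs <;> simp

theorem coef_zero : (starRingEnd ℂ) om ^ 2 + (starRingEnd ℂ) om ^ 4 = -1 := by
  have h := om_sum 1
  simp only [mul_one] at h
  rw [← map_pow, ← map_pow, ← map_add, h]
  simp

/-- the values of `fc` for the two shifted functions -/
theorem fc_sum (h : Adm β P) :
    (fc (fun t => 1 + (starRingEnd ℂ) om ^ 2 * β (t - Real.pi / 3)) 0 +
      fc (fun t => 1 + (starRingEnd ℂ) om ^ 4 * β (t - 2 * (Real.pi / 3))) 0 = 2 - fc β 0) ∧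
    (∀ k : ℕ, fc (fun t => 1 + (starRingEnd ℂ) om ^ 2 * β (t - Real.pi / 3)) (2 * (k : ℤ) + 2) +
      fc (fun t => 1 + (starRingEnd ℂ) om ^ 4 * β (t - 2 * (Real.pi / 3))) (2 * (k : ℤ) + 2) =
        (chu k : ℂ) * uu β k) ∧
    (∀ k : ℕ, fc (fun t => 1 + (starRingEnd ℂ) om ^ 2 * β (t - Real.pi / 3)) (-(2 * (k : ℤ) + 2)) +
      fc (fun t => 1 + (starRingEnd ℂ) om ^ 4 * β (t - 2 * (Real.pi / 3))) (-(2 * (k : ℤ) + 2)) =
        (chw k : ℂ) * ww β k) := by
  refine ⟨?_, fun k => ?_, fun k => ?_⟩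
  · rw [fc_shift h, fc_shift h]
    simp only [Int.cast_zero, zero_mul, neg_zero, ee_zero, one_mul, if_true]
    linear_combination fc β 0 * coef_zero
  · rw [fc_shift h, fc_shift h, if_neg (by omega)]
    have h1 := coef_pos k
    push_cast
    unfold uu
    linear_combination fc β (2 * (k : ℤ) + 2) * h1
  · rw [fc_shift h, fc_shift h, if_neg (by omega)]
    have h1 := coef_neg k
    push_cast
    simp only [neg_mul, neg_neg]
    unfold ww
    linear_combination fc β (-(2 * (k : ℤ) + 2)) * h1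

theorem nn_conj_ee (n : ℕ) (r φ : ℝ) (hr : 0 ≤ r) :
    (starRingEnd ℂ) (nn n ((r : ℂ) * ee φ)) = (r : ℂ) * ee ((n : ℝ) * φ) := by
  have hn : ‖(r : ℂ) * ee φ‖ = r := by
    rw [norm_mul, norm_ee, mul_one, Complex.norm_real, Real.norm_eq_abs, abs_of_nonneg hr]
  unfold nn
  rw [hn]
  rcases eq_or_lt_of_le hr with h0 | h0
  · rw [← h0]; simp
  · have h1 : (r : ℂ) ≠ 0 := by exact_mod_cast h0.ne'
    have h2 := ee_int_mul (n : ℤ) φ
    rw [zpow_natCast, Int.cast_natCast] at h2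
    rw [h2, map_mul, map_pow, map_div₀, Complex.conj_ofReal, Complex.conj_conj,
      mul_div_cancel_left₀ _ h1]

/-- the bound for one direction -/
theorem low (h : Adm β P) (h2 : StSgn) (z : ℂ) :
    (Summable fun k => ‖GG β k‖) ∧
    4 * ((2 - b1 β) * ‖z‖ + 2 * ∑' k : ℕ, ((starRingEnd ℂ) (GG β k) * nn (2 * k + 2) z).re) ≤
      ∫ t in (0 : ℝ)..(2 * Real.pi), ∑ j, |(z * (starRingEnd ℂ) (e2 β P t j)).im| := by
  obtain ⟨φ, hφ⟩ : ∃ φ : ℝ, z = (‖z‖ : ℂ) * ee φ := ⟨an z, ee_arg z⟩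
  set c2 := (starRingEnd ℂ) om ^ 2 with hc2
  set c4 := (starRingEnd ℂ) om ^ 4 with hc4
  have ho : ‖om‖ = 1 := Helper87.RC.norm_om
  have hn2 : ‖c2‖ = 1 := by rw [hc2, norm_pow, Complex.norm_conj, ho, one_pow]
  have hn4 : ‖c4‖ = 1 := by rw [hc4, norm_pow, Complex.norm_conj, ho, one_pow]
  have hF : ∀ (c : ℂ) (a : ℝ), ‖c‖ = 1 → Measurable (fun t => 1 + c * β (t - a)) ∧
      (∃ C, ∀ t, ‖1 + c * β (t - a)‖ ≤ C) ∧ ∀ t, 1 + c * β (t + Real.pi - a) = 1 + c * β (t - a) := by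
    intro c a hc
    refine ⟨measurable_const.add ((h.mb.comp (measurable_id.sub_const a)).const_mul c), ⟨3, fun t => ?_⟩,
      fun t => ?_⟩
    · refine (norm_add_le _ _).trans ?_
      rw [norm_one, norm_mul, hc, one_mul]
      linarith [beta_le h (t - a)]
    · rw [show t + Real.pi - a = t - a + Real.pi by ring, h.perb]
  obtain ⟨f1m, f1b, f1p⟩ := hF c2 (Real.pi / 3) hn2
  obtain ⟨f2m, f2b, f2p⟩ := hF c4 (2 * (Real.pi / 3)) hn4
  obtain ⟨s1, g1⟩ := h2 (fun t => 1 + c2 * β (t - Real.pi / 3)) f1m f1b f1p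
  obtain ⟨s2, g2⟩ := h2 (fun t => 1 + c4 * β (t - 2 * (Real.pi / 3))) f2m f2b f2p
  obtain ⟨q0, q1, q2⟩ := fc_sum (P := P) h
  set H1 : ℕ → ℂ := fun k => fc (fun t => 1 + c2 * β (t - Real.pi / 3)) (2 * (k : ℤ) + 2) / (2 * k + 3)
      - (starRingEnd ℂ) (fc (fun t => 1 + c2 * β (t - Real.pi / 3)) (-(2 * (k : ℤ) + 2))) / (2 * k + 1)
    with hH1
  set H2 : ℕ → ℂ := fun k =>
      fc (fun t => 1 + c4 * β (t - 2 * (Real.pi / 3))) (2 * (k : ℤ) + 2) / (2 * k + 3)
      - (starRingEnd ℂ) (fc (fun t => 1 + c4 * β (t - 2 * (Real.pi / 3))) (-(2 * (k : ℤ) + 2)))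
        / (2 * k + 1)
    with hH2
  have hG : ∀ k, H1 k + H2 k = 2 * GG β k := by
    intro k
    have a1 := q1 k
    have a2 := q2 k
    have a3 : (starRingEnd ℂ) (fc (fun t => 1 + c2 * β (t - Real.pi / 3)) (-(2 * (k : ℤ) + 2))) +
        (starRingEnd ℂ) (fc (fun t => 1 + c4 * β (t - 2 * (Real.pi / 3))) (-(2 * (k : ℤ) + 2))) =
        (chw k : ℂ) * (starRingEnd ℂ) (ww β k) := by
      rw [← map_add, a2, map_mul, Complex.conj_ofReal]
    rw [hH1, hH2]
    simp only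
    unfold GG
    rw [← a1, ← a3]
    ring
  have hs : Summable fun k => ‖GG β k‖ := by
    refine Summable.of_nonneg_of_le (fun k => norm_nonneg _) (fun k => ?_) (s1.add s2)
    have a1 := norm_add_le (H1 k) (H2 k)
    rw [hG k, norm_mul] at a1
    have a2 : ‖(2 : ℂ)‖ = 2 := by simp
    rw [a2] at a1
    have a3 := norm_nonneg (GG β k)
    refine le_trans ?_ a1
    linarith
  refine ⟨hs, ?_⟩
  have i1 : ∫ t in (φ - Real.pi)..φ, ee t * (1 + c2 * β (t - Real.pi / 3)) =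
      ∫ t in (φ - Real.pi / 3 - Real.pi)..(φ - Real.pi / 3), E1 β t := by
    have a1 := intervalIntegral.integral_comp_sub_right (f := fun t => E1 β t)
      (a := φ - Real.pi) (b := φ) (Real.pi / 3)
    rw [show φ - Real.pi - Real.pi / 3 = φ - Real.pi / 3 - Real.pi by ring] at a1
    rw [← a1]
    refine intervalIntegral.integral_congr fun t _ => ?_
    show ee t * (1 + c2 * β (t - Real.pi / 3)) = ee (t - Real.pi / 3) * f1 (β (t - Real.pi / 3)) 0
    rw [sub_eq_add_neg t, ee_add, ee_neg]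
    unfold f1
    have a2 := om_conj_mul
    unfold om at a2
    rw [hc2]
    unfold om
    linear_combination (-ee t) * a2
  have i2 : ∫ t in (φ - Real.pi)..φ, ee t * (1 + c4 * β (t - 2 * (Real.pi / 3))) =
      ∫ t in (φ - 2 * (Real.pi / 3) - Real.pi)..(φ - 2 * (Real.pi / 3)), E2 β t := by
    have a1 := intervalIntegral.integral_comp_sub_right (f := fun t => E2 β t)
      (a := φ - Real.pi) (b := φ) (2 * (Real.pi / 3))
    rw [show φ - Real.pi - 2 * (Real.pi / 3) = φ - 2 * (Real.pi / 3) - Real.pi by ring] at a1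
    rw [← a1]
    refine intervalIntegral.integral_congr fun t _ => ?_
    show ee t * (1 + c4 * β (t - 2 * (Real.pi / 3))) =
      ee (t - 2 * (Real.pi / 3)) * f2 (β (t - 2 * (Real.pi / 3))) 0
    have a3 : ee (t - 2 * (Real.pi / 3)) = ee t * (starRingEnd ℂ) om ^ 2 := by
      rw [sub_eq_add_neg t, ee_add, ee_neg, two_mul, ee_add, map_mul]
      unfold om
      ring
    rw [a3]
    unfold f2
    have a2 := om_conj_mul
    rw [hc4]
    linear_combination (-ee t) * ((starRingEnd ℂ) om * om + 1) * a2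
  have b1' := abs_low (q := fun t => e2 β P t 0) (G := E1 β) (e2_meas h 0) (C := 6)
    (fun t => e2_le h t 0) (E1_meas h) (E1_le h)
    (fun t => by
      show ee (t + 2 * Real.pi) * f1 (β (t + 2 * Real.pi)) (P (t + 2 * Real.pi)) =
        ee t * f1 (β t) (P t)
      rw [ee_per, beta_two_pi h, two_mul, ← add_assoc, h.perp, h.perp, neg_neg])
    (fun t => by
      show ee t * f1 (β t) (P t) - ee (t + Real.pi) * f1 (β (t + Real.pi)) (P (t + Real.pi)) =
        2 * (ee t * f1 (β t) 0)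
      rw [h.perb, h.perp, Helper87.RC.ee_add_pi]
      unfold f1
      ring)
    (E1_anti h) z (φ - Real.pi / 3)
  have b2' := abs_low (q := fun t => e2 β P t 1) (G := E2 β) (e2_meas h 1) (C := 6)
    (fun t => e2_le h t 1) (E2_meas h) (E2_le h)
    (fun t => by
      show ee (t + 2 * Real.pi) * f2 (β (t + 2 * Real.pi)) (P (t + 2 * Real.pi)) =
        ee t * f2 (β t) (P t)
      rw [ee_per, beta_two_pi h, two_mul, ← add_assoc, h.perp, h.perp, neg_neg])
    (fun t => by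
      show ee t * f2 (β t) (P t) - ee (t + Real.pi) * f2 (β (t + Real.pi)) (P (t + Real.pi)) =
        2 * (ee t * f2 (β t) 0)
      rw [h.perb, h.perp, Helper87.RC.ee_add_pi]
      unfold f2
      ring)
    (E2_anti h) z (φ - 2 * (Real.pi / 3))
  have hI : ∀ j, IntervalIntegrable (fun t => |(z * (starRingEnd ℂ) (e2 β P t j)).im|) volume 0
      (2 * Real.pi) := by
    intro j
    refine intg_of_bdd (C := ‖z‖ * 6) ?_ (fun t => ?_) _ _
    · exact (Complex.measurable_im.comp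
        ((Complex.continuous_conj.measurable.comp (e2_meas h j)).const_mul z)).abs
    · rw [abs_abs]
      refine (Complex.abs_im_le_norm _).trans ?_
      rw [norm_mul, Complex.norm_conj]
      exact mul_le_mul_of_nonneg_left (e2_le h t j) (norm_nonneg z)
  have hsplit : ∫ t in (0 : ℝ)..(2 * Real.pi), ∑ j, |(z * (starRingEnd ℂ) (e2 β P t j)).im| =
      (∫ t in (0 : ℝ)..(2 * Real.pi), |(z * (starRingEnd ℂ) (e2 β P t 0)).im|) +
        ∫ t in (0 : ℝ)..(2 * Real.pi), |(z * (starRingEnd ℂ) (e2 β P t 1)).im| := by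
    rw [← intervalIntegral.integral_add (hI 0) (hI 1)]
    refine intervalIntegral.integral_congr fun t _ => ?_
    exact Fin.sum_univ_two _
  rw [hsplit]
  rw [← i1] at b1'
  rw [← i2] at b2'
  have hz : ∀ w : ℂ, (z * w).im = ‖z‖ * (ee φ * w).im := by
    intro w
    conv_lhs => rw [hφ]
    rw [mul_assoc, Complex.im_ofReal_mul]
  rw [hz, g1 φ] at b1'
  rw [hz, g2 φ] at b2'
  refine le_trans (le_of_eq ?_) (add_le_add b1' b2')
  have hb : ∀ (c : ℂ) (k : ℕ), ‖(c * ee ((2 * (k : ℝ) + 2) * φ)).re‖ ≤ ‖c‖ := by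
    intro c k
    rw [Real.norm_eq_abs]
    refine (Complex.abs_re_le_norm _).trans ?_
    rw [norm_mul, norm_ee, mul_one]
  have t1 : Summable fun k : ℕ => (H1 k * ee ((2 * (k : ℝ) + 2) * φ)).re :=
    Summable.of_norm_bounded s1 (fun k => hb _ k)
  have t2 : Summable fun k : ℕ => (H2 k * ee ((2 * (k : ℝ) + 2) * φ)).re :=
    Summable.of_norm_bounded s2 (fun k => hb _ k)
  have e1 : ∑' k : ℕ, (H1 k * ee ((2 * (k : ℝ) + 2) * φ)).re +
      ∑' k : ℕ, (H2 k * ee ((2 * (k : ℝ) + 2) * φ)).re =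
      2 * ∑' k : ℕ, (GG β k * ee ((2 * (k : ℝ) + 2) * φ)).re := by
    rw [← t1.tsum_add t2, ← tsum_mul_left]
    refine tsum_congr fun k => ?_
    rw [← Complex.add_re, ← add_mul, hG, mul_assoc]
    simp only [Complex.mul_re, Complex.re_ofNat, Complex.im_ofNat]
    ring
  have e2' : ‖z‖ * ∑' k : ℕ, (GG β k * ee ((2 * (k : ℝ) + 2) * φ)).re =
      ∑' k : ℕ, ((starRingEnd ℂ) (GG β k) * nn (2 * k + 2) z).re := by
    rw [← tsum_mul_left]
    refine tsum_congr fun k => ?_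
    have a1 := nn_conj_ee (2 * k + 2) ‖z‖ φ (norm_nonneg z)
    rw [← hφ] at a1
    push_cast at a1
    have a2 : ((starRingEnd ℂ) (GG β k) * nn (2 * k + 2) z).re =
        (GG β k * (starRingEnd ℂ) (nn (2 * k + 2) z)).re := by
      simp [Complex.mul_re]
    rw [a2, a1, mul_left_comm, Complex.re_ofReal_mul]
  have e3 : (fc (fun t => 1 + c2 * β (t - Real.pi / 3)) 0).re +
      (fc (fun t => 1 + c4 * β (t - 2 * (Real.pi / 3))) 0).re = 2 - b1 β := by
    rw [← Complex.add_re, q0]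
    unfold b1
    simp
  rw [← e2']
  linear_combination (-4 * ‖z‖) * e3 + (-4 * ‖z‖) * e1

theorem int_EE (n : ℕ) : ∫ t in (0 : ℝ)..(2 * Real.pi), EE (e2 β P) n t =
    ((2 * Real.pi : ℝ) : ℂ) * sN β P n := by
  have hpi : (2 * Real.pi : ℂ) ≠ 0 := by exact_mod_cast Real.two_pi_pos.ne'
  rw [sN_EE]
  push_cast
  field_simp

theorem int_norm : ∫ t in (0 : ℝ)..(2 * Real.pi), ∑ j, ‖e2 β P t j‖ =
    2 * Real.pi * (sN β P 0).re := by
  have h1 := int_EE (β := β) (P := P) 0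
  rw [EE_zero_int] at h1
  have h2 := congrArg Complex.re h1
  rw [Complex.ofReal_re, Complex.re_ofReal_mul] at h2
  exact h2

theorem sN_le (h : Adm β P) (n : ℕ) : ‖sN β P n‖ ≤ 12 := by
  have hpi := Real.two_pi_pos
  have h1 : ‖∫ t in (0 : ℝ)..(2 * Real.pi), EE (e2 β P) n t‖ ≤ ((2 : ℕ) : ℝ) * 6 * |2 * Real.pi - 0| :=
    intervalIntegral.norm_integral_le_of_norm_le_const fun s _ => EE_le (e2_le h) n s
  rw [int_EE, norm_mul, Complex.norm_real, Real.norm_eq_abs, sub_zero, abs_of_pos hpi] at h1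
  have h2 : 2 * Real.pi * ‖sN β P n‖ ≤ 2 * Real.pi * 12 := by
    refine h1.trans (le_of_eq ?_)
    push_cast
    ring
  exact le_of_mul_le_mul_left h2 hpi

/-- the coefficients of the final series -/
noncomputable def cc (β P : ℝ → ℂ) (k : ℕ) : ℂ :=
  ((2 / ((2 * (k : ℝ) + 2) ^ 2 - 1) : ℝ) : ℂ) * sN β P (2 * k + 2) + 2 * GG β k

theorem cc1_summable (h : Adm β P) : Summable fun k : ℕ =>
    ‖((2 / ((2 * (k : ℝ) + 2) ^ 2 - 1) : ℝ) : ℂ) * sN β P (2 * k + 2)‖ := by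
  refine Summable.of_nonneg_of_le (fun k => norm_nonneg _) (fun k => ?_)
    (dk_summable.mul_left 24)
  have h0 := dk_pos k
  rw [norm_mul, Complex.norm_real, Real.norm_eq_abs, abs_of_pos (by positivity)]
  have h1 := sN_le h (2 * k + 2)
  calc 2 / ((2 * (k : ℝ) + 2) ^ 2 - 1) * ‖sN β P (2 * k + 2)‖
      ≤ 2 / ((2 * (k : ℝ) + 2) ^ 2 - 1) * 12 := mul_le_mul_of_nonneg_left h1 (by positivity)
    _ = 24 * (1 / ((2 * (k : ℝ) + 2) ^ 2 - 1)) := by ring

theorem cc_summable (h : Adm β P) (hG : Summable fun k => ‖GG β k‖) :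
    Summable fun k => ‖cc β P k‖ := by
  refine Summable.of_nonneg_of_le (fun k => norm_nonneg _) (fun k => ?_)
    ((cc1_summable h).add (hG.mul_left 2))
  unfold cc
  refine (norm_add_le _ _).trans (le_of_eq ?_)
  rw [norm_mul (2 : ℂ)]
  simp

/-- step C: one vector -/
theorem stepC (h : Adm β P) (h1 : StAsn) (h2 : StSgn) (z : ℂ) :
    ∑' k, ((starRingEnd ℂ) (cc β P k) * nn (2 * k + 2) z).re ≤ SS β P * ‖z‖ := by
  have hpi := Real.two_pi_pos
  obtain ⟨hG, hl⟩ := low h h2 z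
  have hA := stepA h1 (e2_meas h) (e2_le h) z
  rw [int_norm] at hA
  have hre : ∀ (c w : ℂ), ‖((starRingEnd ℂ) c * w).re‖ ≤ ‖c‖ * ‖w‖ := fun c w => by
    rw [Real.norm_eq_abs]
    exact cm_re_le le_rfl le_rfl
  have e1 : (fun k : ℕ => ((starRingEnd ℂ) (cz z k) *
      ∫ t in (0 : ℝ)..(2 * Real.pi), EE (e2 β P) (2 * k + 2) t).re) = fun k : ℕ => 2 * Real.pi *
      ((starRingEnd ℂ) (((2 / ((2 * (k : ℝ) + 2) ^ 2 - 1) : ℝ) : ℂ) * sN β P (2 * k + 2)) *
        nn (2 * k + 2) z).re := by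
    funext k
    have a1 : ((starRingEnd ℂ) (nn (2 * k + 2) z) *
        (((2 * Real.pi : ℝ) : ℂ) * sN β P (2 * k + 2))).re =
        2 * Real.pi * ((starRingEnd ℂ) (sN β P (2 * k + 2)) * nn (2 * k + 2) z).re := by
      rw [mul_left_comm, Complex.re_ofReal_mul, re_cc]
    have a2 : ((starRingEnd ℂ) (((2 / ((2 * (k : ℝ) + 2) ^ 2 - 1) : ℝ) : ℂ) *
        sN β P (2 * k + 2)) * nn (2 * k + 2) z).re = 2 / ((2 * (k : ℝ) + 2) ^ 2 - 1) *
        ((starRingEnd ℂ) (sN β P (2 * k + 2)) * nn (2 * k + 2) z).re := by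
      rw [map_mul, Complex.conj_ofReal, mul_assoc, Complex.re_ofReal_mul]
    rw [cz_re, int_EE, a1, a2]
    ring
  rw [e1] at hA
  have s1 : Summable fun k : ℕ =>
      ((starRingEnd ℂ) (((2 / ((2 * (k : ℝ) + 2) ^ 2 - 1) : ℝ) : ℂ) * sN β P (2 * k + 2)) *
        nn (2 * k + 2) z).re := by
    refine Summable.of_norm_bounded ((cc1_summable h).mul_right ‖z‖) (fun k => ?_)
    exact (hre _ _).trans (mul_le_mul_of_nonneg_left (norm_nn_le _ z) (norm_nonneg _))
  have s2 : Summable fun k : ℕ => ((starRingEnd ℂ) (GG β k) * nn (2 * k + 2) z).re := by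
    refine Summable.of_norm_bounded (hG.mul_right ‖z‖) (fun k => ?_)
    exact (hre _ _).trans (mul_le_mul_of_nonneg_left (norm_nn_le _ z) (norm_nonneg _))
  have hA3 := hA.tsum_eq
  rw [tsum_mul_left] at hA3
  have e2' : ∑' k, ((starRingEnd ℂ) (cc β P k) * nn (2 * k + 2) z).re =
      (∑' k : ℕ, ((starRingEnd ℂ) (((2 / ((2 * (k : ℝ) + 2) ^ 2 - 1) : ℝ) : ℂ) *
        sN β P (2 * k + 2)) * nn (2 * k + 2) z).re) +
      2 * ∑' k : ℕ, ((starRingEnd ℂ) (GG β k) * nn (2 * k + 2) z).re := by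
    rw [← tsum_mul_left, ← s1.tsum_add (s2.mul_left 2)]
    refine tsum_congr fun k => ?_
    unfold cc
    rw [map_add, add_mul, Complex.add_re, map_mul (starRingEnd ℂ) 2, map_ofNat, mul_assoc 2]
    congr 1
    simp only [Complex.mul_re, Complex.re_ofNat, Complex.im_ofNat]
    ring
  rw [e2']
  unfold SS
  set S1 := ∑' k : ℕ, ((starRingEnd ℂ) (((2 / ((2 * (k : ℝ) + 2) ^ 2 - 1) : ℝ) : ℂ) *
        sN β P (2 * k + 2)) * nn (2 * k + 2) z).re
  set S2 := ∑' k : ℕ, ((starRingEnd ℂ) (GG β k) * nn (2 * k + 2) z).re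
  set I := ∫ t in (0 : ℝ)..(2 * Real.pi), ∑ j, |(z * (starRingEnd ℂ) (e2 β P t j)).im|
  have h3 : Real.pi / 2 * (4 * ((2 - b1 β) * ‖z‖ + 2 * S2)) ≤ Real.pi / 2 * I :=
    mul_le_mul_of_nonneg_left hl (by positivity)
  have h4 : 2 * Real.pi * (S1 + 2 * S2) ≤ 2 * Real.pi * (((sN β P 0).re - 2 + b1 β) * ‖z‖) := by
    linarith
  exact le_of_mul_le_mul_left h4 hpi

/-- step D: integration -/
theorem hDEL (h1 : StAsn) (h2 : StSgn) : StDel := by
  intro β P h hb
  have hpi := Real.two_pi_pos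
  have hG := (low h h2 0).1
  have hc := cc_summable h hG
  have hre : ∀ (c w : ℂ), ‖((starRingEnd ℂ) c * w).re‖ ≤ ‖c‖ * ‖w‖ := fun c w => by
    rw [Real.norm_eq_abs]
    exact cm_re_le le_rfl le_rfl
  have hsq : Summable fun k : ℕ => ‖sN β P (2 * k + 2)‖ ^ 2 / ((2 * (k : ℝ) + 2) ^ 2 - 1) := by
    refine Summable.of_nonneg_of_le (fun k => div_nonneg (sq_nonneg _) (dk_pos k).le)
      (fun k => ?_) (dk_summable.mul_left 144)
    have h0 := dk_pos k
    have h3 := sN_le h (2 * k + 2)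
    have h4 : ‖sN β P (2 * k + 2)‖ ^ 2 ≤ 144 := by nlinarith [norm_nonneg (sN β P (2 * k + 2))]
    calc ‖sN β P (2 * k + 2)‖ ^ 2 / ((2 * (k : ℝ) + 2) ^ 2 - 1)
        ≤ 144 / ((2 * (k : ℝ) + 2) ^ 2 - 1) := div_le_div_of_nonneg_right h4 h0.le
      _ = 144 * (1 / ((2 * (k : ℝ) + 2) ^ 2 - 1)) := by ring
  refine ⟨hsq, ?_⟩
  have hL := ser_int (e2_meas h) (e2_le h) hc (fun k => 2 * k + 2)
  -- the pointwise bound
  have hs : ∀ t : ℝ, Summable fun k : ℕ =>
      ((starRingEnd ℂ) (cc β P k) * EE (e2 β P) (2 * k + 2) t).re := by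
    intro t
    refine Summable.of_norm_bounded (hc.mul_right (((2 : ℕ) : ℝ) * 6)) (fun k => ?_)
    exact (hre _ _).trans (mul_le_mul_of_nonneg_left (EE_le (e2_le h) _ t) (norm_nonneg _))
  have hp : ∀ t : ℝ, ∑' k : ℕ, ((starRingEnd ℂ) (cc β P k) * EE (e2 β P) (2 * k + 2) t).re ≤
      SS β P * ∑ j, ‖e2 β P t j‖ := by
    intro t
    have hsj : ∀ j : Fin 2, Summable fun k : ℕ =>
        ((starRingEnd ℂ) (cc β P k) * nn (2 * k + 2) (e2 β P t j)).re := by
      intro j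
      refine Summable.of_norm_bounded (hc.mul_right ‖e2 β P t j‖) (fun k => ?_)
      exact (hre _ _).trans (mul_le_mul_of_nonneg_left (norm_nn_le _ _) (norm_nonneg _))
    have e1 : ∑' k : ℕ, ((starRingEnd ℂ) (cc β P k) * EE (e2 β P) (2 * k + 2) t).re =
        ∑ j, ∑' k : ℕ, ((starRingEnd ℂ) (cc β P k) * nn (2 * k + 2) (e2 β P t j)).re := by
      rw [← Summable.tsum_finsetSum (fun j _ => hsj j)]
      refine tsum_congr fun k => ?_
      unfold EE
      rw [Finset.mul_sum, Complex.re_sum]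
    rw [e1, Finset.mul_sum]
    exact Finset.sum_le_sum fun j _ => stepC h h1 h2 _
  have hm : Measurable fun t : ℝ =>
      ∑' k : ℕ, ((starRingEnd ℂ) (cc β P k) * EE (e2 β P) (2 * k + 2) t).re := by
    refine measurable_of_tendsto_metrizable (f := fun (n : ℕ) (t : ℝ) =>
      ∑ k ∈ Finset.range n, ((starRingEnd ℂ) (cc β P k) * EE (e2 β P) (2 * k + 2) t).re)
      (fun n => Finset.measurable_sum _ fun k _ =>
        Complex.measurable_re.comp ((EE_meas (e2_meas h) _).const_mul _)) ?_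
    rw [tendsto_pi_nhds]
    intro t
    exact (hs t).hasSum.tendsto_sum_nat
  have hbd : ∀ t : ℝ, |∑' k : ℕ, ((starRingEnd ℂ) (cc β P k) * EE (e2 β P) (2 * k + 2) t).re| ≤
      ∑' k : ℕ, ‖cc β P k‖ * (((2 : ℕ) : ℝ) * 6) := by
    intro t
    have h3 : ∀ k : ℕ, ‖((starRingEnd ℂ) (cc β P k) * EE (e2 β P) (2 * k + 2) t).re‖ ≤
        ‖cc β P k‖ * (((2 : ℕ) : ℝ) * 6) := fun k =>
      (hre _ _).trans (mul_le_mul_of_nonneg_left (EE_le (e2_le h) _ t) (norm_nonneg _))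
    rw [← Real.norm_eq_abs]
    exact tsum_of_norm_bounded (hc.mul_right _).hasSum h3
  have hi := intg_of_bdd hm hbd 0 (2 * Real.pi)
  have hm1 : Measurable (fun t => ∑ j, ‖e2 β P t j‖) :=
    Finset.measurable_sum _ fun j _ => (e2_meas h j).norm
  have hb1 : ∀ t, |∑ j, ‖e2 β P t j‖| ≤ ((2 : ℕ) : ℝ) * 6 := by
    intro t
    have := EE_le (e2_le h) 0 t
    rw [EE_zero_re, Complex.norm_real, Real.norm_eq_abs] at this
    exact this
  have hi1 := intg_of_bdd hm1 hb1 0 (2 * Real.pi)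
  have h5 := intervalIntegral.integral_mono_on hpi.le hi (hi1.const_mul (SS β P))
    (fun t _ => hp t)
  rw [intervalIntegral.integral_const_mul, int_norm, ← hL.tsum_eq] at h5
  have s2 : Summable fun k : ℕ => (GG β k * (starRingEnd ℂ) (sN β P (2 * k + 2))).re := by
    refine Summable.of_norm_bounded (hG.mul_right 12) (fun k => ?_)
    rw [Real.norm_eq_abs]
    refine (Complex.abs_re_le_norm _).trans ?_
    rw [norm_mul, Complex.norm_conj]
    exact mul_le_mul_of_nonneg_left (sN_le h _) (norm_nonneg _)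
  have e3 : ∑' k : ℕ, ((starRingEnd ℂ) (cc β P k) *
      ∫ t in (0 : ℝ)..(2 * Real.pi), EE (e2 β P) (2 * k + 2) t).re =
      2 * Real.pi * (2 * ∑' k : ℕ, ‖sN β P (2 * k + 2)‖ ^ 2 / ((2 * (k : ℝ) + 2) ^ 2 - 1) +
        2 * ∑' k : ℕ, (GG β k * (starRingEnd ℂ) (sN β P (2 * k + 2))).re) := by
    rw [← tsum_mul_left, ← tsum_mul_left, ← (hsq.mul_left 2).tsum_add (s2.mul_left 2),
      ← tsum_mul_left]
    refine tsum_congr fun k => ?_
    rw [int_EE, mul_left_comm, Complex.re_ofReal_mul]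
    congr 1
    unfold cc
    rw [map_add, add_mul, Complex.add_re, map_mul (starRingEnd ℂ) 2, map_ofNat, mul_assoc 2,
      map_mul, Complex.conj_ofReal, mul_assoc, Complex.re_ofReal_mul]
    have h6 : ((starRingEnd ℂ) (sN β P (2 * k + 2)) * sN β P (2 * k + 2)).re =
        ‖sN β P (2 * k + 2)‖ ^ 2 := by
      rw [mul_comm, Complex.mul_conj, Complex.ofReal_re, Complex.normSq_eq_norm_sq]
    rw [h6]
    simp only [Complex.mul_re, Complex.re_ofNat, Complex.im_ofNat, Complex.conj_re, Complex.conj_im]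
    ring
  rw [e3] at h5
  have h7 : 2 * Real.pi * (2 * ∑' k : ℕ, ‖sN β P (2 * k + 2)‖ ^ 2 / ((2 * (k : ℝ) + 2) ^ 2 - 1) +
        2 * ∑' k : ℕ, (GG β k * (starRingEnd ℂ) (sN β P (2 * k + 2))).re) ≤
      2 * Real.pi * ((sN β P 0).re * SS β P) := by
    refine h5.trans (le_of_eq ?_)
    ring
  have h8 := le_of_mul_le_mul_left h7 hpi
  linarith

end Pool.Agent.Helper61.RC
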