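import Pool.Agent.Helper56.RC.StF

/-!
# Project RC, module G4 (certificate for kappa = 99/100, regime without a window)
-/

open MeasureTheory Set Filter Metric

namespace Pool.Agent.Helper61.RC

open Helper49.LT Helper49.RC Helper87.RC Helper44.RC Helper56.RC

namespace G4

theorem s3a : (173205 / 100000 : ℝ) < Real.sqrt 3 := by
  apply Real.lt_sqrt_of_sq_lt
  norm_num

theorem s3b : Real.sqrt 3 < 173206 / 100000 := by
  rw [Real.sqrt_lt' (by norm_num)]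
  norm_num

theorem s3s : Real.sqrt 3 * Real.sqrt 3 = 3 := Real.mul_self_sqrt (by norm_num)

theorem nsq (x y : ℝ) (u w : ℂ) :
    ‖(x : ℂ) * u + (y : ℂ) * (starRingEnd ℂ) w‖ ^ 2
      = (x * u.re + y * w.re) ^ 2 + (x * u.im - y * w.im) ^ 2 := by
  rw [Complex.sq_norm, Complex.normSq_apply]
  simp
  ring

theorem nsqm (x y : ℝ) (u w : ℂ) :
    ‖(x : ℂ) * u - (y : ℂ) * (starRingEnd ℂ) w‖ ^ 2
      = (x * u.re - y * w.re) ^ 2 + (x * u.im + y * w.im) ^ 2 := by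
  rw [Complex.sq_norm, Complex.normSq_apply]
  simp
  ring

theorem nsq1 (u w : ℂ) :
    ‖u + (starRingEnd ℂ) w‖ ^ 2 = (u.re + w.re) ^ 2 + (u.im - w.im) ^ 2 := by
  rw [Complex.sq_norm, Complex.normSq_apply]
  simp
  ring

theorem nsq0 (u : ℂ) : ‖u‖ ^ 2 = u.re ^ 2 + u.im ^ 2 := by
  rw [Complex.sq_norm, Complex.normSq_apply]
  ring

theorem psd (A B C a b c d : ℝ) (hA : 0 < A) (h : C ^ 2 ≤ A * B) :
    0 ≤ A * (a ^ 2 + b ^ 2) + B * (c ^ 2 + d ^ 2) + 2 * C * (a * c - b * d) := by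
  have h1 : 0 ≤ A * (A * (a ^ 2 + b ^ 2) + B * (c ^ 2 + d ^ 2) + 2 * C * (a * c - b * d)) := by
    have h2 : A * (A * (a ^ 2 + b ^ 2) + B * (c ^ 2 + d ^ 2) + 2 * C * (a * c - b * d))
        = (A * a + C * c) ^ 2 + (A * b - C * d) ^ 2 + (A * B - C ^ 2) * (c ^ 2 + d ^ 2) := by ring
    rw [h2]
    have h3 : 0 ≤ (A * B - C ^ 2) * (c ^ 2 + d ^ 2) := mul_nonneg (by linarith) (by positivity)
    positivity
  exact nonneg_of_mul_nonneg_right h1 hA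

/-- the block of index `k ≥ 1`, in real coordinates -/
theorem blkr (n α γ κ ν' F a2 c2 K cc a b c d : ℝ) (hn : 0 < n) (hν : 0 < ν')
    (hK : K ≤ κ - F / 4) (ha : α ^ 2 / ν' ≤ a2) (hc : γ ^ 2 / ν' ≤ c2)
    (hcc : (α * γ / ν' - F / 4) ^ 2 ≤ cc)
    (hA : 0 < K * (n + 2) + 1 - a2 * n) (hB : 0 < K * n - 1 - c2 * (n + 2))
    (hAB : cc * (n * (n + 2)) ≤ (K * (n + 2) + 1 - a2 * n) * (K * n - 1 - c2 * (n + 2))) :
    0 ≤ 1 / (n + 2) * (a ^ 2 + b ^ 2) - 1 / n * (c ^ 2 + d ^ 2)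
      - (n * (n + 2) / ν') * ((α / (n + 2) * a - γ / n * c) ^ 2 + (α / (n + 2) * b + γ / n * d) ^ 2)
      + κ * ((a ^ 2 + b ^ 2) + (c ^ 2 + d ^ 2)) - F / 4 * ((a + c) ^ 2 + (b - d) ^ 2) := by
  have hn2 : 0 < n + 2 := by linarith
  have hA1 : K * (n + 2) + 1 - a2 * n ≤ (κ - F / 4) * (n + 2) + 1 - α ^ 2 / ν' * n := by
    have h1 := mul_le_mul_of_nonneg_right hK hn2.le
    have h2 := mul_le_mul_of_nonneg_right ha hn.le
    linarith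
  have hB1 : K * n - 1 - c2 * (n + 2) ≤ (κ - F / 4) * n - 1 - γ ^ 2 / ν' * (n + 2) := by
    have h1 := mul_le_mul_of_nonneg_right hK hn.le
    have h2 := mul_le_mul_of_nonneg_right hc hn2.le
    linarith
  have hAB1 : (α * γ / ν' - F / 4) ^ 2 * (n * (n + 2))
      ≤ ((κ - F / 4) * (n + 2) + 1 - α ^ 2 / ν' * n) * ((κ - F / 4) * n - 1 - γ ^ 2 / ν' * (n + 2)) := by
    have h1 : (α * γ / ν' - F / 4) ^ 2 * (n * (n + 2)) ≤ cc * (n * (n + 2)) :=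
      mul_le_mul_of_nonneg_right hcc (by positivity)
    have h2 := mul_le_mul hA1 hB1 hB.le (hA.le.trans hA1)
    linarith
  have key := psd (((κ - F / 4) * (n + 2) + 1 - α ^ 2 / ν' * n) / (n + 2))
    (((κ - F / 4) * n - 1 - γ ^ 2 / ν' * (n + 2)) / n) (α * γ / ν' - F / 4) a b c d
    (div_pos (hA.trans_le hA1) hn2) (by
      rw [div_mul_div_comm, le_div_iff₀ (by positivity)]
      calc _ = (α * γ / ν' - F / 4) ^ 2 * (n * (n + 2)) := by ring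
        _ ≤ _ := hAB1)
  refine key.trans (le_of_eq ?_)
  field_simp
  ring

theorem QB_one (ν : ℝ) (k : ℕ) (hk : k ≠ 0) (u w : ℂ) :
    QB 1 ν 0 0 k u w = 1 / (2 * (k : ℝ) + 1 + 2) * (u.re ^ 2 + u.im ^ 2)
      - 1 / (2 * (k : ℝ) + 1) * (w.re ^ 2 + w.im ^ 2)
      - ((2 * (k : ℝ) + 1) * (2 * (k : ℝ) + 1 + 2) / (8 * ν))
        * (((gg 1 k + ν * chu k) / (2 * (k : ℝ) + 1 + 2) * u.re
            - (gg 1 k + ν * chw k) / (2 * (k : ℝ) + 1) * w.re) ^ 2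
          + ((gg 1 k + ν * chu k) / (2 * (k : ℝ) + 1 + 2) * u.im
            + (gg 1 k + ν * chw k) / (2 * (k : ℝ) + 1) * w.im) ^ 2) := by
  unfold QB
  rw [if_neg hk, nsqm, nsq0, nsq0]
  have e1 : (2 * (k : ℝ) + 3) = 2 * (k : ℝ) + 1 + 2 := by ring
  have e2 : ((2 * (k : ℝ) + 2) ^ 2 - 1) = (2 * (k : ℝ) + 1) * (2 * (k : ℝ) + 1 + 2) := by ring
  rw [e1, e2]
  ring

theorem gg_even (k : ℕ) (h : k % 2 = 0) : gg 1 k = 2 + Real.sqrt 3 := by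
  unfold gg
  rw [Odd.neg_one_pow (Nat.odd_iff.2 (by omega))]
  ring

theorem gg_odd (k : ℕ) (h : k % 2 = 1) : gg 1 k = 2 - Real.sqrt 3 := by
  unfold gg
  rw [Even.neg_one_pow (Nat.even_iff.2 (by omega))]
  ring

theorem FS_eq : FSc 1 (11 / 20) = 9 / 10 + Real.sqrt 3 := by
  unfold FSc
  ring

/-- blocks, `k ≥ 1` -/
theorem blk1 (k : ℕ) (hk : k ≠ 0) (u w : ℂ) :
    63 / 100 * (‖u‖ ^ 2 + ‖w‖ ^ 2) ≤ QB 1 (11 / 20) 0 0 k u w + 891 / 100 * (‖u‖ ^ 2 + ‖w‖ ^ 2)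
      - FSc 1 (11 / 20) / 4 * ‖u + (starRingEnd ℂ) w‖ ^ 2 := by
  rw [QB_one _ k hk, nsq0, nsq0, nsq1, FS_eq]
  have ha := s3a
  have hb := s3b
  have hs := s3s
  set s := Real.sqrt 3 with hsdef
  have hk1 : (1 : ℝ) ≤ (k : ℝ) := by exact_mod_cast Nat.one_le_iff_ne_zero.2 hk
  set n : ℝ := 2 * (k : ℝ) + 1 with hn
  have hn3 : 3 ≤ n := by linarith
  have main : ∀ (g χ χ' a2 c2 cc : ℝ), gg 1 k = g → chu k = χ → chw k = χ' →
      (g + 11 / 20 * χ) ^ 2 * (5 / 22) ≤ a2 → (g + 11 / 20 * χ') ^ 2 * (5 / 22) ≤ c2 →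
      ((g + 11 / 20 * χ) * (g + 11 / 20 * χ') * (5 / 22) - (9 / 10 + s) / 4) ^ 2 ≤ cc →
      0 < (76219 / 10000) * (n + 2) + 1 - a2 * n → 0 < (76219 / 10000) * n - 1 - c2 * (n + 2) →
      cc * (n * (n + 2)) ≤ ((76219 / 10000) * (n + 2) + 1 - a2 * n)
        * ((76219 / 10000) * n - 1 - c2 * (n + 2)) →
      63 / 100 * (u.re ^ 2 + u.im ^ 2 + (w.re ^ 2 + w.im ^ 2)) ≤
        1 / (n + 2) * (u.re ^ 2 + u.im ^ 2) - 1 / n * (w.re ^ 2 + w.im ^ 2) -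
            n * (n + 2) / (8 * (11 / 20)) *
              (((gg 1 k + 11 / 20 * chu k) / (n + 2) * u.re - (gg 1 k + 11 / 20 * chw k) / n * w.re) ^ 2 +
                ((gg 1 k + 11 / 20 * chu k) / (n + 2) * u.im
                  + (gg 1 k + 11 / 20 * chw k) / n * w.im) ^ 2) +
          891 / 100 * (u.re ^ 2 + u.im ^ 2 + (w.re ^ 2 + w.im ^ 2)) -
        (9 / 10 + s) / 4 * ((u.re + w.re) ^ 2 + (u.im - w.im) ^ 2) := by
    intro g χ χ' a2 c2 cc h1 h2 h3 h4 h5 h6 h7 h8 h9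
    have := blkr n (g + 11 / 20 * χ) (g + 11 / 20 * χ') (828 / 100) (8 * (11 / 20)) (9 / 10 + s)
      a2 c2 (76219 / 10000) cc u.re u.im w.re w.im (by linarith) (by norm_num) (by linarith)
      (by rw [show (8 * (11 / 20) : ℝ) = 22 / 5 by norm_num, div_eq_mul_inv,
        show (22 / 5 : ℝ)⁻¹ = 5 / 22 by norm_num]; exact h4)
      (by rw [show (8 * (11 / 20) : ℝ) = 22 / 5 by norm_num, div_eq_mul_inv,
        show (22 / 5 : ℝ)⁻¹ = 5 / 22 by norm_num]; exact h5)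
      (by rw [show (8 * (11 / 20) : ℝ) = 22 / 5 by norm_num, div_eq_mul_inv _ (22 / 5 : ℝ),
        show (22 / 5 : ℝ)⁻¹ = 5 / 22 by norm_num]; exact h6) h7 h8 h9
    rw [h1, h2, h3]
    linarith
  have s1 : s ^ 2 = 3 := by rw [sq]; exact hs
  have c1 : (2 + s + 11 / 20 * (-1)) * (2 + s + 11 / 20 * 2) * (5 / 22) - (9 / 10 + s) / 4
      = 1301 / 880 + 69 / 88 * s := by linear_combination (5 / 22) * s1
  have c2 : (2 + s + 11 / 20 * (-1)) * (2 + s + 11 / 20 * (-1)) * (5 / 22) - (9 / 10 + s) / 4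
      = 1645 / 1760 + 36 / 88 * s := by linear_combination (5 / 22) * s1
  have c3 : (2 - s + 11 / 20 * (-1)) * (2 - s + 11 / 20 * 2) * (5 / 22) - (9 / 10 + s) / 4
      = 1301 / 880 - 113 / 88 * s := by linear_combination (5 / 22) * s1
  have c4 : (2 - s + 11 / 20 * (-1)) * (2 - s + 11 / 20 * (-1)) * (5 / 22) - (9 / 10 + s) / 4
      = 1645 / 1760 - 80 / 88 * s := by linear_combination (5 / 22) * s1
  rcases Nat.mod_two_eq_zero_or_one k with he | ho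
  · have hg := gg_even k he
    rw [← hsdef] at hg
    have h3 : k % 3 = 0 ∨ k % 3 = 1 ∨ k % 3 = 2 := by omega
    rcases h3 with h3 | h3 | h3
    · have hk6 : 6 ≤ k := by omega
      have hk6' : (6 : ℝ) ≤ (k : ℝ) := by exact_mod_cast hk6
      have hn13 : 13 ≤ n := by linarith
      refine main (2 + s) (-1) 2 (23013 / 10000) (53066 / 10000) (80460 / 10000) hg
        (by simp [chu, h3]) (by simp [chw, h3]) (by nlinarith) (by nlinarith) ?_ ?_ ?_ ?_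
      · rw [c1]
        nlinarith
      · nlinarith
      · nlinarith
      · nlinarith [mul_nonneg (sub_nonneg.2 hn13) (sub_nonneg.2 hn13)]
    · have hk6 : 4 ≤ k := by omega
      have hk6' : (4 : ℝ) ≤ (k : ℝ) := by exact_mod_cast hk6
      have hn13 : 9 ≤ n := by linarith
      refine main (2 + s) 2 (-1) (53066 / 10000) (23013 / 10000) (80460 / 10000) hg
        (by simp [chu, h3]) (by simp [chw, h3]) (by nlinarith) (by nlinarith) ?_ ?_ ?_ ?_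
      · rw [mul_comm (2 + s + 11 / 20 * 2), c1]
        nlinarith
      · nlinarith
      · nlinarith
      · nlinarith [mul_nonneg (sub_nonneg.2 hn13) (sub_nonneg.2 hn13)]
    · have hk6 : 2 ≤ k := by omega
      have hk6' : (2 : ℝ) ≤ (k : ℝ) := by exact_mod_cast hk6
      have hn13 : 5 ≤ n := by linarith
      refine main (2 + s) (-1) (-1) (23013 / 10000) (23013 / 10000) (27010 / 10000) hg
        (by simp [chu, h3]) (by simp [chw, h3]) (by nlinarith) (by nlinarith) ?_ ?_ ?_ ?_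
      · rw [c2]
        nlinarith
      · nlinarith
      · nlinarith
      · nlinarith [mul_nonneg (sub_nonneg.2 hn13) (sub_nonneg.2 hn13)]
  · have hg := gg_odd k ho
    rw [← hsdef] at hg
    have h3 : k % 3 = 0 ∨ k % 3 = 1 ∨ k % 3 = 2 := by omega
    rcases h3 with h3 | h3 | h3
    · refine main (2 - s) (-1) 2 (2 / 100) (43 / 100) (56 / 100) hg
        (by simp [chu, h3]) (by simp [chw, h3]) (by nlinarith) (by nlinarith) ?_ ?_ ?_ ?_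
      · rw [c3]
        nlinarith
      · nlinarith
      · nlinarith
      · nlinarith [mul_nonneg (sub_nonneg.2 hn3) (sub_nonneg.2 hn3)]
    · refine main (2 - s) 2 (-1) (43 / 100) (2 / 100) (56 / 100) hg
        (by simp [chu, h3]) (by simp [chw, h3]) (by nlinarith) (by nlinarith) ?_ ?_ ?_ ?_
      · rw [mul_comm (2 - s + 11 / 20 * 2), c3]
        nlinarith
      · nlinarith
      · nlinarith
      · nlinarith [mul_nonneg (sub_nonneg.2 hn3) (sub_nonneg.2 hn3)]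
    · refine main (2 - s) (-1) (-1) (2 / 100) (2 / 100) (41 / 100) hg
        (by simp [chu, h3]) (by simp [chw, h3]) (by nlinarith) (by nlinarith) ?_ ?_ ?_ ?_
      · rw [c4]
        nlinarith
      · nlinarith
      · nlinarith
      · nlinarith [mul_nonneg (sub_nonneg.2 hn3) (sub_nonneg.2 hn3)]

/-- block `k = 0` -/
theorem blk0 (u w : ℂ) :
    78 / 10 * ‖u‖ ^ 2 + 59 / 10 * ‖w‖ ^ 2 ≤ QB 1 (11 / 20) 0 0 0 u w
      + 891 / 100 * (‖u‖ ^ 2 + ‖w‖ ^ 2) - FSc 1 (11 / 20) / 4 * ‖u + (starRingEnd ℂ) w‖ ^ 2 := by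
  unfold QB
  rw [if_pos rfl, nsq, gg_even 0 (by norm_num), FS_eq, nsq1]
  have e : ‖(3 / 2 : ℂ) * (starRingEnd ℂ) w - (1 / 2 : ℂ) * u‖ ^ 2
      = (3 / 2 * w.re - 1 / 2 * u.re) ^ 2 + (3 / 2 * w.im + 1 / 2 * u.im) ^ 2 := by
    rw [Complex.sq_norm, Complex.normSq_apply]
    simp
    ring
  rw [e, nsq0, nsq0]
  have ha := s3a
  have hb := s3b
  have hs := s3s
  set s := Real.sqrt 3 with hsdef
  have s1 : s ^ 2 = 3 := by rw [sq]; exact hs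
  obtain ⟨p, hp⟩ : ∃ p : ℝ, p = ((2 + s) - 11 / 20 - 2) / 3 := ⟨_, rfl⟩
  obtain ⟨q, hq⟩ : ∃ q : ℝ, q = 2 - (2 + s) - 2 * (11 / 20) := ⟨_, rfl⟩
  rw [← hp, ← hq]
  have p1 : p ^ 2 = (33025 / 10000 - 11 / 10 * s) / 9 := by
    rw [hp]
    linear_combination (1 / 9) * s1
  have p2 : q ^ 2 = 421 / 100 + 22 / 10 * s := by
    rw [hq]
    linear_combination s1
  have p3 : p * q = - (2395 / 3000) - 55 / 300 * s := by
    rw [hp, hq]
    linear_combination (-1 / 3) * s1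
  have key := psd (1 / 3 + 1 / 6 - 30 / 124 * p ^ 2 + 891 / 100 - (9 / 10 + s) / 4 - 78 / 10)
    (-1 + 3 / 2 - 30 / 124 * q ^ 2 + 891 / 100 - (9 / 10 + s) / 4 - 59 / 10)
    (-1 / 2 - 30 / 124 * (p * q) - (9 / 10 + s) / 4) u.re u.im w.re w.im
    (by rw [p1]; nlinarith) (by rw [p1, p2, p3]; nlinarith)
  refine sub_nonneg.1 (key.trans (le_of_eq ?_))
  push_cast
  ring

theorem cubic_le (x y : ℝ) (u w : ℂ) (hx : 0 ≤ x) (hy : 0 ≤ y) :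
    ‖((x : ℝ) : ℂ) * (starRingEnd ℂ) w - ((y : ℝ) : ℂ) * u‖ ≤ x * ‖w‖ + y * ‖u‖ := by
  refine (norm_sub_le _ _).trans ?_
  rw [norm_mul, norm_mul, Complex.norm_real, Complex.norm_real, RCLike.norm_conj,
    Real.norm_of_nonneg hx, Real.norm_of_nonneg hy]

/-- sum of the blocks -/
theorem blocks (β : ℝ → ℂ) (hs : Summable fun k : ℕ => ‖uu β k‖ ^ 2 + ‖ww β k‖ ^ 2)
    (hq : Summable fun k : ℕ => QB 1 (11 / 20) 0 0 k (uu β k) (ww β k)) :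
    63 / 100 * ∑' k : ℕ, (‖uu β k‖ ^ 2 + ‖ww β k‖ ^ 2)
      + (717 / 100 * ‖uu β 0‖ ^ 2 + 527 / 100 * ‖ww β 0‖ ^ 2)
    ≤ ∑' k : ℕ, QB 1 (11 / 20) 0 0 k (uu β k) (ww β k)
      + 891 / 100 * ∑' k : ℕ, (‖uu β k‖ ^ 2 + ‖ww β k‖ ^ 2)
      - FSc 1 (11 / 20) / 2 * ∑' k : ℕ, 1 / 2 * ‖uu β k + (starRingEnd ℂ) (ww β k)‖ ^ 2 := by
  have hr : Summable fun k : ℕ => 1 / 2 * ‖uu β k + (starRingEnd ℂ) (ww β k)‖ ^ 2 := by
    refine Summable.of_nonneg_of_le (fun k => by positivity) (fun k => ?_) hs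
    rw [nsq1, nsq0, nsq0]
    nlinarith [sq_nonneg ((uu β k).re - (ww β k).re), sq_nonneg ((uu β k).im + (ww β k).im)]
  have hF : HasSum (fun k : ℕ => QB 1 (11 / 20) 0 0 k (uu β k) (ww β k)
      + 891 / 100 * (‖uu β k‖ ^ 2 + ‖ww β k‖ ^ 2)
      - FSc 1 (11 / 20) / 2 * (1 / 2 * ‖uu β k + (starRingEnd ℂ) (ww β k)‖ ^ 2)
      - 63 / 100 * (‖uu β k‖ ^ 2 + ‖ww β k‖ ^ 2))
      (∑' k : ℕ, QB 1 (11 / 20) 0 0 k (uu β k) (ww β k)
      + 891 / 100 * ∑' k : ℕ, (‖uu β k‖ ^ 2 + ‖ww β k‖ ^ 2)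
      - FSc 1 (11 / 20) / 2 * ∑' k : ℕ, 1 / 2 * ‖uu β k + (starRingEnd ℂ) (ww β k)‖ ^ 2
      - 63 / 100 * ∑' k : ℕ, (‖uu β k‖ ^ 2 + ‖ww β k‖ ^ 2)) :=
    ((hq.hasSum.add (hs.hasSum.mul_left _)).sub (hr.hasSum.mul_left _)).sub (hs.hasSum.mul_left _)
  have h0 := le_hasSum hF 0 (fun k hk => by
    have := blk1 k hk (uu β k) (ww β k)
    linarith)
  have h1 := blk0 (uu β 0) (ww β 0)
  linarith

theorem scal (s S r m x y U W T : ℝ) (ha : 173205 / 100000 < s) (hb : s < 173206 / 100000)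
    (hm : m ≤ 1 / 10) (hm0 : 0 ≤ m) (hr0 : 0 ≤ r) (hrm : r ≤ m) (hy0 : 0 ≤ y) (hym : y ^ 2 ≤ m)
    (hxy : x ^ 2 ≤ y ^ 2) (hS1 : 1 / 5 - 1 / 2 * r ≤ S) (hS2 : S ≤ 3 / 2) (hU : 0 ≤ U) (hW : 0 ≤ W)
    (hT : 63 / 100 * (m - y ^ 2) + (717 / 100 * U ^ 2 + 527 / 100 * W ^ 2) + (9 / 10 + s) / 2 * (r - x ^ 2)
      ≤ T) :
    891 / 100 ≤ 5 + 2 * s + (9 / 10 + s) * S - 11 / 20 * S ^ 2 + (2 - s + 11 / 20) * S * x
      + (4 - 3 * s) * x - (2 - s) * x ^ 2 + y ^ 2 + T + 891 / 100 * y ^ 2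
      - 30 / 31 * m * ((2 + s + 22 / 10) * W + (2 + s + 11 / 20) / 3 * U) := by
  have hx : x ^ 2 ≤ 1 / 10 := by linarith
  have hx1 : |x| ≤ 317 / 1000 := by
    rw [← sq_abs] at hx
    nlinarith [abs_nonneg x]
  obtain ⟨hx2, hx3⟩ := abs_le.1 hx1
  obtain ⟨F, hF⟩ : ∃ F : ℝ, F = 9 / 10 + s := ⟨_, rfl⟩
  obtain ⟨G, hG⟩ : ∃ G : ℝ, G = 2 - s + 11 / 20 := ⟨_, rfl⟩
  have hG1 : 0 ≤ G := by linarith
  have hG2 : G ≤ 82 / 100 := by linarith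
  have hGx : -(26 / 100) ≤ G * x := by nlinarith
  have t1 : F * (1 / 5 - 1 / 2 * r) - 11 / 20 * (1 / 5 - 1 / 2 * r) ^ 2 + G * (1 / 5 - 1 / 2 * r) * x
      ≤ F * S - 11 / 20 * S ^ 2 + G * S * x := by
    have h1 : 0 ≤ (S - (1 / 5 - 1 / 2 * r)) * (F - 11 / 20 * (S + (1 / 5 - 1 / 2 * r)) + G * x) := by
      apply mul_nonneg
      · linarith
      · linarith
    linarith
  have t2 : 0 ≤ 11 / 100 * r - 11 / 80 * r ^ 2 := by nlinarith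
  have t3 : G * r * x ≤ 26 / 100 * m := by
    have h1 : G * x ≤ 26 / 100 := by nlinarith
    have h2 : (G * x) * r ≤ 26 / 100 * r := mul_le_mul_of_nonneg_right h1 hr0
    linarith
  have t4 : 30 / 31 * m * ((2 + s + 22 / 10) * W) ≤ 527 / 100 * W ^ 2 + 1565 / 1000 * m ^ 2 := by
    have h1 : 30 / 31 * (2 + s + 22 / 10) ≤ 57408 / 10000 := by linarith
    have h2 := mul_le_mul_of_nonneg_right h1 (mul_nonneg hm0 hW)
    nlinarith [sq_nonneg (527 / 100 * W - 28704 / 10000 * m)]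
  have t5 : 30 / 31 * m * ((2 + s + 11 / 20) / 3 * U) ≤ 717 / 100 * U ^ 2 + 67 / 1000 * m ^ 2 := by
    have h1 : 30 / 31 * ((2 + s + 11 / 20) / 3) ≤ 13815 / 10000 := by linarith
    have h2 := mul_le_mul_of_nonneg_right h1 (mul_nonneg hm0 hU)
    nlinarith [sq_nonneg (717 / 100 * U - 69075 / 100000 * m)]
  have t6 : m ^ 2 ≤ 1 / 10 * m := by nlinarith
  have t7 : (0 : ℝ) ≤ 58 / 1000 - 10326 / 10000 * x + 76 / 10 * x ^ 2 := by
    nlinarith [sq_nonneg (76 / 10 * x - 5163 / 10000)]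
  have t8 : -(10326 / 10000) * x - 1 / 10000 ≤ (G / 5 + (4 - 3 * s)) * x := by
    have : G / 5 + (4 - 3 * s) = 451 / 100 - 16 / 5 * s := by rw [hG]; ring
    rw [this]
    nlinarith
  have t9 : -(2 - s) * x ^ 2 - F / 2 * x ^ 2 + 928 / 100 * y ^ 2 ≥ 769 / 100 * x ^ 2 := by
    have h1 : 0 ≤ (F / 2 + (2 - s)) := by linarith
    have h2 : F / 2 + (2 - s) ≤ 159 / 100 := by linarith
    nlinarith [sq_nonneg x]
  have e1 : (9 / 10 + s) = F := hF.symm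
  rw [← hG]
  rw [← hF] at hT ⊢
  nlinarith [t1, t2, t3, t4, t5, t6, t7, t8, t9, sq_nonneg x]

end G4

theorem hG4 (h1 : StLbt) (h3 : StPar) : StG4 := by
  intro β P hA hβ hm hS1 hS2
  obtain ⟨hs, hmB, -, hrB, -⟩ := h3 β P hA hβ
  obtain ⟨hq, hL⟩ := h1 β P hA hβ 1 (11 / 20) 0 0 1 (by norm_num) (by norm_num) (by norm_num)
    (by norm_num) (by rw [abs_zero]; linarith [Real.pi_pos]) (by norm_num)
  have hB := G4.blocks β hs hq
  have hFS := G4.FS_eq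
  have hF1 : F1c 1 (11 / 20) = 2 - Real.sqrt 3 + 11 / 20 := by
    unfold F1c
    ring
  have hg0 := G4.gg_even 0 (by norm_num)
  have hss : 0 ≤ ∑' k : ℕ, (‖uu β k‖ ^ 2 + ‖ww β k‖ ^ 2) := tsum_nonneg (fun k => by positivity)
  have hrs : Summable fun k : ℕ => 1 / 2 * ‖uu β k + (starRingEnd ℂ) (ww β k)‖ ^ 2 := by
    refine Summable.of_nonneg_of_le (fun k => by positivity) (fun k => ?_) hs
    rw [G4.nsq1, G4.nsq0, G4.nsq0]
    nlinarith [sq_nonneg ((uu β k).re - (ww β k).re), sq_nonneg ((uu β k).im + (ww β k).im)]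
  have hr1 : 0 ≤ ∑' k : ℕ, 1 / 2 * ‖uu β k + (starRingEnd ℂ) (ww β k)‖ ^ 2 :=
    tsum_nonneg (fun k => by positivity)
  have hr2 : ∑' k : ℕ, 1 / 2 * ‖uu β k + (starRingEnd ℂ) (ww β k)‖ ^ 2
      ≤ ∑' k : ℕ, (‖uu β k‖ ^ 2 + ‖ww β k‖ ^ 2) := by
    refine hrs.tsum_le_tsum (fun k => ?_) hs
    rw [G4.nsq1, G4.nsq0, G4.nsq0]
    nlinarith [sq_nonneg ((uu β k).re - (ww β k).re), sq_nonneg ((uu β k).im + (ww β k).im)]
  have hxy : b1 β ^ 2 ≤ ‖fc β 0‖ ^ 2 := by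
    rw [G4.nsq0]
    unfold b1
    nlinarith [sq_nonneg (fc β 0).im]
  have hc := G4.cubic_le (gg 1 0 + 4 * (11 / 20)) ((gg 1 0 + 11 / 20) / 3) (uu β 0) (ww β 0)
    (by rw [hg0]; positivity) (by rw [hg0]; positivity)
  have hm0 : 0 ≤ mB β := by rw [hmB]; positivity
  have hc2 : 30 / 31 * mB β * ‖((gg 1 0 + 4 * (11 / 20) : ℝ) : ℂ) * (starRingEnd ℂ) (ww β 0)
        - (((gg 1 0 + 11 / 20) / 3 : ℝ) : ℂ) * uu β 0‖
      ≤ 30 / 31 * mB β * ((2 + Real.sqrt 3 + 22 / 10) * ‖ww β 0‖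
        + (2 + Real.sqrt 3 + 11 / 20) / 3 * ‖uu β 0‖) := by
    refine mul_le_mul_of_nonneg_left (hc.trans (le_of_eq ?_)) (by positivity)
    rw [hg0]
    ring
  have key := G4.scal (Real.sqrt 3) (SS β P) (rB β) (mB β) (b1 β) ‖fc β 0‖ ‖uu β 0‖ ‖ww β 0‖
    (∑' k : ℕ, QB 1 (11 / 20) 0 0 k (uu β k) (ww β k)
      + 891 / 100 * ∑' k : ℕ, (‖uu β k‖ ^ 2 + ‖ww β k‖ ^ 2)) G4.s3a G4.s3b hm hm0
    (by rw [hrB]; positivity) (by rw [hrB, hmB]; linarith) (norm_nonneg _) (by rw [hmB]; linarith)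
    hxy hS1 hS2 (norm_nonneg _) (norm_nonneg _) (by
      have e1 : mB β - ‖fc β 0‖ ^ 2 = ∑' k : ℕ, (‖uu β k‖ ^ 2 + ‖ww β k‖ ^ 2) := by linarith
      have e2 : rB β - b1 β ^ 2 = ∑' k : ℕ, 1 / 2 * ‖uu β k + (starRingEnd ℂ) (ww β k)‖ ^ 2 := by
        linarith
      rw [e1, e2, ← hFS]
      linarith)
  rw [hFS, hF1] at hL
  have e3 : (3 : ℝ) / (2 * (1 + 11 / 20)) = 30 / 31 := by norm_num
  rw [e3] at hL
  have e4 : 891 / 100 * mB β = 891 / 100 * ‖fc β 0‖ ^ 2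
      + 891 / 100 * ∑' k : ℕ, (‖uu β k‖ ^ 2 + ‖ww β k‖ ^ 2) := by
    rw [hmB]
    ring
  have e5 : (1 - 1 : ℝ) = 0 := by norm_num
  rw [e5] at hL
  simp only [zero_mul, add_zero] at hL
  refine le_trans ?_ hL
  linarith

end Pool.Agent.Helper61.RC
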