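import Pool.Agent.Helper20.RC.Target
import Pool.Agent.Helper44.RC.M_BRQ
import Pool.Agent.Helper87.RC.M_N0
import Pool.Agent.Helper95.RC.StF

/-!
# Project RC, SHARP, link 3: Fourier coefficients of the families in the gauge `q`

`F1Q w q b z θ = ee θ + ee (θ - π/3) * X1 (θ - π/3)`, `F2Q w q b z θ = ee θ + ee (θ - 2π/3) * X2 (θ - 2π/3)` with
`X1 = om W0 + conj om W2 + g1 W3 + WZ`, `X2 = om² W0 + conj om² W2 + g2 W3 - WZ`,
`W0 = w - 1`, `W2 = w b₂`, `W3 = w b₃`, `WZ = w z`, `g1, g2 = q √3/2 ± i/(2q)`.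
-/

set_option autoImplicit false

open MeasureTheory Set Filter Metric

namespace Pool.Agent.Helper61.RC.FQ

open Helper49.LT hiding sg
open Helper49.RC Helper44.RCG Helper87.RC
open Helper44.GQ Helper44.GQ.SELQ
open Helper56.RC (fc)
open Pool.Agent.Helper20.RC (wt wR wt_wR bm_wt fc_wt bm_one fc_one)

noncomputable def g1 (q : ℝ) : ℂ := ((q * (Real.sqrt 3 / 2) : ℝ) : ℂ) + Complex.I * ((1 / (2 * q) : ℝ) : ℂ)
noncomputable def g2 (q : ℝ) : ℂ := ((q * (Real.sqrt 3 / 2) : ℝ) : ℂ) - Complex.I * ((1 / (2 * q) : ℝ) : ℂ)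

/-- the data functions (times the weight) -/
noncomputable def W0 (w : ℝ → ℝ) (t : ℝ) : ℂ := (w t : ℂ) - 1
noncomputable def W2 (w : ℝ → ℝ) (b : ℝ → ℂ) (t : ℝ) : ℂ := ((w t * (b t).re : ℝ) : ℂ)
noncomputable def W3 (w : ℝ → ℝ) (b : ℝ → ℂ) (t : ℝ) : ℂ := ((w t * (b t).im : ℝ) : ℂ)
noncomputable def WZ (w : ℝ → ℝ) (z : ℝ → ℂ) (t : ℝ) : ℂ := (w t : ℂ) * z t

noncomputable def X1 (w : ℝ → ℝ) (q : ℝ) (b z : ℝ → ℂ) (t : ℝ) : ℂ :=
  om * W0 w t + (starRingEnd ℂ) om * W2 w b t + g1 q * W3 w b t + WZ w z t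
noncomputable def X2 (w : ℝ → ℝ) (q : ℝ) (b z : ℝ → ℂ) (t : ℝ) : ℂ :=
  om ^ 2 * W0 w t + (starRingEnd ℂ) om ^ 2 * W2 w b t + g2 q * W3 w b t - WZ w z t

theorem om_val : om = (1 / 2 : ℂ) + ((Real.sqrt 3 / 2 : ℝ) : ℂ) * Complex.I := by
  apply Complex.ext
  · rw [om_re]; simp
  · rw [om_im]; simp

theorem om_cval : (starRingEnd ℂ) om = (1 / 2 : ℂ) - ((Real.sqrt 3 / 2 : ℝ) : ℂ) * Complex.I := by
  apply Complex.ext
  · rw [Complex.conj_re, om_re]; simp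
  · rw [Complex.conj_im, om_im]; simp

theorem om2_val : om ^ 2 = -(1 / 2 : ℂ) + ((Real.sqrt 3 / 2 : ℝ) : ℂ) * Complex.I := by
  rw [om_sq, om_val]; ring

theorem om2_cval : (starRingEnd ℂ) om ^ 2 = -(1 / 2 : ℂ) - ((Real.sqrt 3 / 2 : ℝ) : ℂ) * Complex.I := by
  rw [← map_pow, om_sq, map_sub, map_one, om_cval]; ring

theorem cQ_add (q : ℝ) (b : ℂ) :
    cQ q b + 1 / 2 * aQ q b = om + (b.re : ℂ) * (starRingEnd ℂ) om + (b.im : ℂ) * g1 q := by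
  rw [om_cval, om_val]
  unfold cQ aQ g1
  push_cast
  rcases eq_or_ne (q : ℂ) 0 with h0 | h0
  · rw [h0]; simp; ring
  · field_simp; ring

theorem cQ_sub (q : ℝ) (b : ℂ) :
    cQ q b - 1 / 2 * aQ q b = om ^ 2 + (b.re : ℂ) * (starRingEnd ℂ) om ^ 2 + (b.im : ℂ) * g2 q := by
  rw [om2_cval, om2_val]
  unfold cQ aQ g2
  push_cast
  rcases eq_or_ne (q : ℂ) 0 with h0 | h0
  · rw [h0]; simp; ring
  · field_simp; ring

theorem ee_om (θ : ℝ) : ee (θ - Real.pi / 3) * om = ee θ := by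
  unfold om
  rw [← ee_add]; congr 1; ring

theorem ee_om2 (θ : ℝ) : ee (θ - 2 * Real.pi / 3) * om ^ 2 = ee θ := by
  have h : om ^ 2 = ee (2 * Real.pi / 3) := by
    unfold om
    rw [sq, ← ee_add]; congr 1; ring
  rw [h, ← ee_add]; congr 1; ring

theorem F1_form (w : ℝ → ℝ) (q : ℝ) (b z : ℝ → ℂ) (θ : ℝ) :
    F1Q w q b z θ = ee θ + ee (θ - Real.pi / 3) * X1 w q b z (θ - Real.pi / 3) := by
  unfold F1Q G1 AAQ vvS X1 W0 W2 W3 WZ
  rw [cQ_add, ← ee_om θ]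
  push_cast
  ring

theorem F2_form (w : ℝ → ℝ) (q : ℝ) (b z : ℝ → ℂ) (θ : ℝ) :
    F2Q w q b z θ = ee θ + ee (θ - 2 * Real.pi / 3) * X2 w q b z (θ - 2 * Real.pi / 3) := by
  unfold F2Q G2 BBQ vvS X2 W0 W2 W3 WZ
  rw [cQ_sub, ← ee_om2 θ]
  push_cast
  ring

section data

variable {w : ℝ → ℝ} {q : ℝ} {b z : ℝ → ℂ}

theorem bm_all (hq : 0 < q) (h : AdmQ q b z) (hw : Wgt w) :
    ∃ C : ℝ, BM (W0 w) C ∧ BM (W2 w b) C ∧ BM (W3 w b) C ∧ BM (WZ w z) C := by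
  obtain ⟨D, hD0, -, -, hDz⟩ := REDQ.data_bdd q hq b z h
  obtain ⟨Cw, hCw⟩ := hw.bd
  obtain ⟨δ, hδ, hb⟩ := h.bdb
  have hCw0 : 0 ≤ Cw := le_trans (hw.nonneg 0) (hCw 0)
  have hb1 : ∀ t, ‖b t‖ ≤ 1 := fun t => by linarith [hb t]
  have hwm : Measurable fun t => ((w t : ℝ) : ℂ) := Complex.measurable_ofReal.comp hw.m
  have hwn : ∀ t, ‖(w t : ℂ)‖ ≤ Cw := fun t => by
    rw [Complex.norm_real, Real.norm_eq_abs, abs_of_nonneg (hw.nonneg t)]; exact hCw t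
  refine ⟨Cw * (D + 1) + 1, ⟨?_, ?_⟩, ⟨?_, ?_⟩, ⟨?_, ?_⟩, ⟨?_, ?_⟩⟩
  · exact hwm.sub measurable_const
  · intro t
    unfold W0
    refine (norm_sub_le _ _).trans ?_
    rw [norm_one]
    have := hwn t
    nlinarith [mul_nonneg hCw0 hD0]
  · exact Complex.measurable_ofReal.comp (hw.m.mul (Complex.measurable_re.comp h.mb))
  · intro t
    unfold W2
    rw [Complex.norm_real, Real.norm_eq_abs, abs_mul, abs_of_nonneg (hw.nonneg t)]
    have h1 : |(b t).re| ≤ 1 := (Complex.abs_re_le_norm _).trans (hb1 t)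
    have h2 : w t * |(b t).re| ≤ Cw * 1 := mul_le_mul (hCw t) h1 (abs_nonneg _) hCw0
    nlinarith [mul_nonneg hCw0 hD0]
  · exact Complex.measurable_ofReal.comp (hw.m.mul (Complex.measurable_im.comp h.mb))
  · intro t
    unfold W3
    rw [Complex.norm_real, Real.norm_eq_abs, abs_mul, abs_of_nonneg (hw.nonneg t)]
    have h1 : |(b t).im| ≤ 1 := (Complex.abs_im_le_norm _).trans (hb1 t)
    have h2 : w t * |(b t).im| ≤ Cw * 1 := mul_le_mul (hCw t) h1 (abs_nonneg _) hCw0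
    nlinarith [mul_nonneg hCw0 hD0]
  · exact hwm.mul h.mz
  · intro t
    unfold WZ
    rw [norm_mul]
    have h2 : ‖(w t : ℂ)‖ * ‖z t‖ ≤ Cw * D := mul_le_mul (hwn t) (hDz t) (norm_nonneg _) hCw0
    nlinarith [mul_nonneg hCw0 hD0]

theorem W0_per (hw : Wgt w) (t : ℝ) : W0 w (t + Real.pi) = W0 w t := by unfold W0; rw [hw.per]
theorem W2_per (h : AdmQ q b z) (hw : Wgt w) (t : ℝ) : W2 w b (t + Real.pi) = W2 w b t := by
  unfold W2; rw [hw.per, h.perb]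
theorem W3_per (h : AdmQ q b z) (hw : Wgt w) (t : ℝ) : W3 w b (t + Real.pi) = W3 w b t := by
  unfold W3; rw [hw.per, h.perb]
theorem WZ_anti (h : AdmQ q b z) (hw : Wgt w) (t : ℝ) : WZ w z (t + Real.pi) = -WZ w z t := by
  unfold WZ; rw [hw.per, h.perz]; ring

/-- parity -/
theorem fc_W0_odd (hq : 0 < q) (h : AdmQ q b z) (hw : Wgt w) {n : ℤ} (hn : Odd n) : fc (W0 w) n = 0 := by
  obtain ⟨C, h0, -⟩ := bm_all hq h hw
  exact fc_perpi h0 (W0_per hw) hn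

theorem fc_W2_odd (hq : 0 < q) (h : AdmQ q b z) (hw : Wgt w) {n : ℤ} (hn : Odd n) :
    fc (W2 w b) n = 0 := by
  obtain ⟨C, -, h0, -⟩ := bm_all hq h hw
  exact fc_perpi h0 (W2_per h hw) hn

theorem fc_W3_odd (hq : 0 < q) (h : AdmQ q b z) (hw : Wgt w) {n : ℤ} (hn : Odd n) :
    fc (W3 w b) n = 0 := by
  obtain ⟨C, -, -, h0, -⟩ := bm_all hq h hw
  exact fc_perpi h0 (W3_per h hw) hn

theorem fc_WZ_even (hq : 0 < q) (h : AdmQ q b z) (hw : Wgt w) {n : ℤ} (hn : Even n) :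
    fc (WZ w z) n = 0 := by
  obtain ⟨C, -, -, -, h0⟩ := bm_all hq h hw
  exact fc_anti h0 (WZ_anti h hw) hn

/-- reality -/
theorem fc_real (f : ℝ → ℝ) (n : ℤ) :
    fc (fun t => ((f t : ℝ) : ℂ)) (-n) = (starRingEnd ℂ) (fc (fun t => ((f t : ℝ) : ℂ)) n) := by
  have h := fc_conj (fun t => ((f t : ℝ) : ℂ)) (-n)
  simp only [Complex.conj_ofReal, neg_neg] at h
  exact h

theorem fc_W0_neg (w : ℝ → ℝ) (n : ℤ) : fc (W0 w) (-n) = (starRingEnd ℂ) (fc (W0 w) n) := by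
  have e : W0 w = fun t => ((w t - 1 : ℝ) : ℂ) := by
    funext t; unfold W0; push_cast; rfl
  rw [e]
  exact fc_real _ _

theorem fc_W2_neg (w : ℝ → ℝ) (b : ℝ → ℂ) (n : ℤ) :
    fc (W2 w b) (-n) = (starRingEnd ℂ) (fc (W2 w b) n) := fc_real _ _

theorem fc_W3_neg (w : ℝ → ℝ) (b : ℝ → ℂ) (n : ℤ) :
    fc (W3 w b) (-n) = (starRingEnd ℂ) (fc (W3 w b) n) := fc_real _ _

/-- coefficients of `X1`, `X2` -/
theorem fc_X1 (hq : 0 < q) (h : AdmQ q b z) (hw : Wgt w) (n : ℤ) : fc (X1 w q b z) n =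
    om * fc (W0 w) n + (starRingEnd ℂ) om * fc (W2 w b) n + g1 q * fc (W3 w b) n + fc (WZ w z) n := by
  obtain ⟨C, h0, h2, h3, hZ⟩ := bm_all hq h hw
  have e : X1 w q b z = fun t => ((om * W0 w t + (starRingEnd ℂ) om * W2 w b t) + g1 q * W3 w b t)
    + WZ w z t := rfl
  rw [e, fc_add (((h0.cmul om).add (h2.cmul _)).add (h3.cmul _)) hZ,
    fc_add ((h0.cmul om).add (h2.cmul _)) (h3.cmul _), fc_add (h0.cmul om) (h2.cmul _), fc_cmul,
    fc_cmul, fc_cmul]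

theorem fc_X2 (hq : 0 < q) (h : AdmQ q b z) (hw : Wgt w) (n : ℤ) : fc (X2 w q b z) n =
    om ^ 2 * fc (W0 w) n + (starRingEnd ℂ) om ^ 2 * fc (W2 w b) n + g2 q * fc (W3 w b) n
      - fc (WZ w z) n := by
  obtain ⟨C, h0, h2, h3, hZ⟩ := bm_all hq h hw
  have e : X2 w q b z = fun t => ((om ^ 2 * W0 w t + (starRingEnd ℂ) om ^ 2 * W2 w b t)
    + g2 q * W3 w b t) - WZ w z t := rfl
  rw [e, fc_sub (((h0.cmul _).add (h2.cmul _)).add (h3.cmul _)) hZ,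
    fc_add ((h0.cmul _).add (h2.cmul _)) (h3.cmul _), fc_add (h0.cmul _) (h2.cmul _), fc_cmul,
    fc_cmul, fc_cmul]

theorem X_bm (hq : 0 < q) (h : AdmQ q b z) (hw : Wgt w) :
    ∃ C : ℝ, BM (X1 w q b z) C ∧ BM (X2 w q b z) C := by
  obtain ⟨C, h0, h2, h3, hZ⟩ := bm_all hq h hw
  have h1 := (((h0.cmul om).add (h2.cmul ((starRingEnd ℂ) om))).add (h3.cmul (g1 q))).add hZ
  have h2' := (((h0.cmul (om ^ 2)).add (h2.cmul ((starRingEnd ℂ) om ^ 2))).add (h3.cmul (g2 q))).sub hZ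
  refine ⟨max (‖om‖ * C + ‖(starRingEnd ℂ) om‖ * C + ‖g1 q‖ * C + C)
    (‖om ^ 2‖ * C + ‖(starRingEnd ℂ) om ^ 2‖ * C + ‖g2 q‖ * C + C),
    ⟨h1.m, fun t => (h1.b t).trans (le_max_left _ _)⟩,
    ⟨h2'.m, fun t => (h2'.b t).trans (le_max_right _ _)⟩⟩

theorem X1_per (h : AdmQ q b z) (hw : Wgt w) (t : ℝ) :
    X1 w q b z (t + 2 * Real.pi) = X1 w q b z t := by
  unfold X1
  rw [two_per' (W0_per hw), two_per' (W2_per h hw), two_per' (W3_per h hw), two_per (WZ_anti h hw)]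

theorem X2_per (h : AdmQ q b z) (hw : Wgt w) (t : ℝ) :
    X2 w q b z (t + 2 * Real.pi) = X2 w q b z t := by
  unfold X2
  rw [two_per' (W0_per hw), two_per' (W2_per h hw), two_per' (W3_per h hw), two_per (WZ_anti h hw)]

theorem fc_ee1 (n : ℤ) : fc (fun t => ee t) n = if n = 1 then 1 else 0 := by
  have h := Pool.Agent.Helper20.RC.fc_eek 1 n
  simp only [Int.cast_one, one_mul] at h
  exact h

theorem fc_mul1 (f : ℝ → ℂ) (n : ℤ) : fc (fun t => ee t * f t) n = fc f (n - 1) := by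
  have h := fc_ee f 1 n
  simp only [Int.cast_one, one_mul] at h
  exact h

theorem fc_fam {X : ℝ → ℂ} {C : ℝ} (hX : BM X C) (hp : ∀ t, X (t + 2 * Real.pi) = X t) (c : ℝ)
    (m : ℤ) : fc (fun θ => ee θ + ee (θ - c) * X (θ - c)) m =
      (if m = 1 then 1 else 0) + ee (-(m : ℝ) * c) * fc X (m - 1) := by
  have he : BM (fun t => ee t) 1 := by
    have h := BM.eec 1
    simp only [one_mul] at h
    exact h
  have hk : BM (fun t => ee t * X t) (1 * C) := he.mul hX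
  have hkp : ∀ x, (fun t => ee t * X t) (x + 2 * Real.pi) = (fun t => ee t * X t) x := by
    intro x
    show ee (x + 2 * Real.pi) * X (x + 2 * Real.pi) = ee x * X x
    rw [ee_per, hp]
  have hs : BM (fun θ => ee (θ - c) * X (θ - c)) (1 * C) :=
    ⟨hk.m.comp (measurable_id.sub_const c), fun t => hk.b (t - c)⟩
  rw [fc_add he hs, fc_ee1]
  congr 1
  have h1 := fc_shift (k := fun t => ee t * X t) hkp c m
  rw [fc_mul1] at h1
  exact h1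

/-- **(3a)** the coefficients of the families 1 and 2 -/
theorem fc_F1Q (hq : 0 < q) (h : AdmQ q b z) (hw : Wgt w) (m : ℤ) : fc (F1Q w q b z) m =
    (if m = 1 then 1 else 0) + ee (-(m : ℝ) * (Real.pi / 3)) * fc (X1 w q b z) (m - 1) := by
  obtain ⟨C, h1, -⟩ := X_bm hq h hw
  have e : F1Q w q b z = fun θ => ee θ + ee (θ - Real.pi / 3) * X1 w q b z (θ - Real.pi / 3) := by
    funext θ; exact F1_form w q b z θ
  rw [e]
  exact fc_fam h1 (X1_per h hw) _ m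

theorem fc_F2Q (hq : 0 < q) (h : AdmQ q b z) (hw : Wgt w) (m : ℤ) : fc (F2Q w q b z) m =
    (if m = 1 then 1 else 0) + ee (-(m : ℝ) * (2 * Real.pi / 3)) * fc (X2 w q b z) (m - 1) := by
  obtain ⟨C, -, h1⟩ := X_bm hq h hw
  have e : F2Q w q b z = fun θ => ee θ + ee (θ - 2 * Real.pi / 3) * X2 w q b z (θ - 2 * Real.pi / 3) := by
    funext θ; exact F2_form w q b z θ
  rw [e]
  exact fc_fam h1 (X2_per h hw) _ m

/-- even frequencies: only `z` -/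
theorem fc_F1Q_even (hq : 0 < q) (h : AdmQ q b z) (hw : Wgt w) {m : ℤ} (hm : Even m) :
    fc (F1Q w q b z) m = ee (-(m : ℝ) * (Real.pi / 3)) * fc (WZ w z) (m - 1) := by
  have h1 : m ≠ 1 := by rintro rfl; exact absurd hm (by decide)
  have h2 : Odd (m - 1) := hm.sub_odd odd_one
  rw [fc_F1Q hq h hw, if_neg h1, fc_X1 hq h hw, fc_W0_odd hq h hw h2, fc_W2_odd hq h hw h2,
    fc_W3_odd hq h hw h2]
  ring

theorem fc_F2Q_even (hq : 0 < q) (h : AdmQ q b z) (hw : Wgt w) {m : ℤ} (hm : Even m) :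
    fc (F2Q w q b z) m = -(ee (-(m : ℝ) * (2 * Real.pi / 3)) * fc (WZ w z) (m - 1)) := by
  have h1 : m ≠ 1 := by rintro rfl; exact absurd hm (by decide)
  have h2 : Odd (m - 1) := hm.sub_odd odd_one
  rw [fc_F2Q hq h hw, if_neg h1, fc_X2 hq h hw, fc_W0_odd hq h hw h2, fc_W2_odd hq h hw h2,
    fc_W3_odd hq h hw h2]
  ring

/-- odd frequencies: only `w`, `b` -/
theorem fc_F1Q_odd (hq : 0 < q) (h : AdmQ q b z) (hw : Wgt w) {m : ℤ} (hm : Odd m) :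
    fc (F1Q w q b z) m = (if m = 1 then 1 else 0) + ee (-(m : ℝ) * (Real.pi / 3)) *
      (om * fc (W0 w) (m - 1) + (starRingEnd ℂ) om * fc (W2 w b) (m - 1)
        + g1 q * fc (W3 w b) (m - 1)) := by
  rw [fc_F1Q hq h hw, fc_X1 hq h hw, fc_WZ_even hq h hw (hm.sub_odd odd_one), add_zero]

theorem fc_F2Q_odd (hq : 0 < q) (h : AdmQ q b z) (hw : Wgt w) {m : ℤ} (hm : Odd m) :
    fc (F2Q w q b z) m = (if m = 1 then 1 else 0) + ee (-(m : ℝ) * (2 * Real.pi / 3)) *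
      (om ^ 2 * fc (W0 w) (m - 1) + (starRingEnd ℂ) om ^ 2 * fc (W2 w b) (m - 1)
        + g2 q * fc (W3 w b) (m - 1)) := by
  rw [fc_F2Q hq h hw, fc_X2 hq h hw, fc_WZ_even hq h hw (hm.sub_odd odd_one), sub_zero]

end data

/-- the coefficients of `w - 1` for the trigonometric weight -/
theorem fc_W0_wR (η2 η6 η10 : ℂ) (n : ℤ) : fc (W0 (wR η2 η6 η10)) n =
    (η2 * (if n = 2 then 1 else 0) + (starRingEnd ℂ) η2 * (if n = -2 then 1 else 0))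
    + (η6 * (if n = 6 then 1 else 0) + (starRingEnd ℂ) η6 * (if n = -6 then 1 else 0))
    + (η10 * (if n = 10 then 1 else 0) + (starRingEnd ℂ) η10 * (if n = -10 then 1 else 0)) := by
  have e : W0 (wR η2 η6 η10) = fun t => wt η2 η6 η10 t - (fun _ : ℝ => (1 : ℂ)) t := by
    funext t
    unfold W0
    rw [wt_wR]
  rw [e, fc_sub (bm_wt η2 η6 η10) bm_one, fc_wt, fc_one]
  ring

end Pool.Agent.Helper61.RC.FQ
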