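import Pool.Agent.Helper61.RC.NSR
import Pool.Agent.Helper41.RC.StRG

/-!
# Project RC, SHARP, link 7: the head form `HG` is the sum of two real quadratic forms

Sectors: `σ = 1`: `(P, U, S) = (Re p, Im r, Re s)`, `σ = -1`: `(P, U, S) = (Im p, -Re r, Im s)`.
The unmixed part is rational.
-/

set_option autoImplicit false

open MeasureTheory Set Filter Topology

namespace Pool.Agent.Helper61.RC.HFR

open Helper49.LT hiding sg
open Helper49.RC (om)
open Helper95.RC (c1 c2 kq NF)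
open Pool.Agent.Helper99.RC
open Pool.Agent.Helper61.RC
open Helper31.Bes (J J_neg_ord)
open Helper41.RC

theorem kq_two : kq 2 = ((Real.sqrt 3 : ℝ) : ℂ) + Complex.I / 4 := by
  unfold kq
  push_cast
  ring

theorem kq_two_conj : (starRingEnd ℂ) (kq 2) = ((Real.sqrt 3 : ℝ) : ℂ) - Complex.I / 4 := by
  rw [kq_two, map_add, map_div₀, Complex.conj_ofReal, Complex.conj_I]
  have h4 : (starRingEnd ℂ) (4 : ℂ) = 4 := Complex.conj_ofNat 4
  rw [h4]
  ring

theorem omc_sq : (starRingEnd ℂ) om ^ 2 = ee (-(2 * Real.pi / 3)) := by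
  rw [omc_e, sq, ← ee_add]
  congr 1
  ring

theorem aw_eq (p r s : ℤ → ℂ) : aw p r s = c1 2 (fun _ => 0) p r s := by
  funext m
  rw [c1_rest]
  unfold aw aA
  rw [kq_two, omc_e]
  congr 2
  ring

theorem bw_eq (p r s : ℤ → ℂ) : bw p r s = c2 2 (fun _ => 0) p r s := by
  funext m
  rw [c2_rest]
  unfold bw bB
  rw [kq_two_conj, omc_sq]
  congr 2
  ring

/-- `2 cos (π (m + 1) / 3)`, `m` odd -/
def cs (m : ℤ) : ℝ := if m % 6 = 5 then 2 else -1

/-- coefficient of `r`, `m` odd -/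
noncomputable def dr (m : ℤ) : ℝ := if m % 6 = 1 then 11 / 4 else if m % 6 = 3 then 1 / 2 else -(13 / 4)

theorem ee_m (m j c : ℤ) (h : m = 6 * j + c) :
    ee (-((m : ℝ) * (Real.pi / 3))) = ee (-((c : ℝ) * (Real.pi / 3))) := by
  have : -((m : ℝ) * (Real.pi / 3)) = -((c : ℝ) * (Real.pi / 3)) + (((-j : ℤ)) : ℝ) * (2 * Real.pi) := by
    rw [h]; push_cast; ring
  rw [this, ee_add, ee_int2pi, mul_one]

theorem ee_m2 (m j c : ℤ) (h : m = 6 * j + c) :
    ee (-((m : ℝ) * (2 * Real.pi / 3))) = ee (-((c : ℝ) * (2 * Real.pi / 3))) := by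
  have : -((m : ℝ) * (2 * Real.pi / 3)) = -((c : ℝ) * (2 * Real.pi / 3))
      + (((-2 * j : ℤ)) : ℝ) * (2 * Real.pi) := by
    rw [h]; push_cast; ring
  rw [this, ee_add, ee_int2pi, mul_one]

theorem eeA : ee (-(Real.pi / 3)) = (1 / 2 : ℂ) - Complex.I * ((Real.sqrt 3 / 2 : ℝ) : ℂ) := by
  apply Complex.ext
  · rw [ee_re, Real.cos_neg, Real.cos_pi_div_three]; simp
  · rw [ee_im, Real.sin_neg, Real.sin_pi_div_three]; simp

theorem eeB : ee (-(2 * Real.pi / 3)) = -(1 / 2 : ℂ) - Complex.I * ((Real.sqrt 3 / 2 : ℝ) : ℂ) := by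
  have h : 2 * Real.pi / 3 = Real.pi - Real.pi / 3 := by ring
  apply Complex.ext
  · rw [ee_re, Real.cos_neg, h, Real.cos_pi_sub, Real.cos_pi_div_three]; simp
  · rw [ee_im, Real.sin_neg, h, Real.sin_pi_sub, Real.sin_pi_div_three]; simp

theorem eeC : ee (Real.pi / 3) = (1 / 2 : ℂ) + Complex.I * ((Real.sqrt 3 / 2 : ℝ) : ℂ) := by
  apply Complex.ext
  · rw [ee_re, Real.cos_pi_div_three]; simp
  · rw [ee_im, Real.sin_pi_div_three]; simp

theorem eeD : ee (2 * Real.pi / 3) = -(1 / 2 : ℂ) + Complex.I * ((Real.sqrt 3 / 2 : ℝ) : ℂ) := by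
  have h : 2 * Real.pi / 3 = Real.pi - Real.pi / 3 := by ring
  apply Complex.ext
  · rw [ee_re, h, Real.cos_pi_sub, Real.cos_pi_div_three]; simp
  · rw [ee_im, h, Real.sin_pi_sub, Real.sin_pi_div_three]; simp

theorem s3c : (((Real.sqrt 3 : ℝ) : ℂ)) ^ 2 = 3 := by
  rw [← Complex.ofReal_pow, Real.sq_sqrt (by norm_num)]
  norm_num

/-- the sum of the two families, odd frequencies -/
theorem ab_sum (p r s : ℤ → ℂ) (m : ℤ) (hm : Odd m) :
    aw p r s m + bw p r s m - (ee (-((m : ℝ) * (Real.pi / 3))) * s (m - 1)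
      - ee (-((m : ℝ) * (2 * Real.pi / 3))) * s (m - 1))
      = ((cs m : ℝ) : ℂ) * p (m - 1) - Complex.I * ((dr m : ℝ) : ℂ) * r (m - 1) := by
  have hI := Complex.I_sq
  have h3 := s3c
  unfold aw bw
  have hc : m % 6 = 1 ∨ m % 6 = 3 ∨ m % 6 = 5 := by
    obtain ⟨t, ht⟩ := hm
    omega
  rcases hc with hc | hc | hc
  · have h6 : m = 6 * (m / 6) + 1 := by omega
    rw [ee_m m _ 1 h6, ee_m2 m _ 1 h6]
    have e1 : cs m = -1 := by unfold cs; rw [if_neg (by omega)]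
    have e2 : dr m = 11 / 4 := by unfold dr; rw [if_pos hc]
    rw [e1, e2, Int.cast_one, one_mul, one_mul, eeA, eeB]
    push_cast
    linear_combination (1 / 2 * ((Real.sqrt 3 : ℝ) : ℂ) ^ 2 * p (m - 1)) * hI
      + (-(1 / 2 : ℂ) * p (m - 1) - Complex.I * r (m - 1)) * h3
  · have h6 : m = 6 * (m / 6) + 3 := by omega
    rw [ee_m m _ 3 h6, ee_m2 m _ 3 h6]
    have e1 : cs m = -1 := by unfold cs; rw [if_neg (by omega)]
    have e2 : dr m = 1 / 2 := by unfold dr; rw [if_neg (by omega), if_pos hc]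
    have e3 : ee (-(((3 : ℤ) : ℝ) * (Real.pi / 3))) = -1 := by
      have : -(((3 : ℤ) : ℝ) * (Real.pi / 3)) = -Real.pi := by push_cast; ring
      rw [this, ee_neg, ee_pi]; simp
    have e4 : ee (-(((3 : ℤ) : ℝ) * (2 * Real.pi / 3))) = 1 := by
      have : -(((3 : ℤ) : ℝ) * (2 * Real.pi / 3)) = -(2 * Real.pi) := by push_cast; ring
      rw [this, ee_neg, ee_two_pi]; simp
    rw [e1, e2, e3, e4, eeA, eeB]
    push_cast
    ring
  · have h6 : m = 6 * (m / 6) + 5 := by omega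
    rw [ee_m m _ 5 h6, ee_m2 m _ 5 h6]
    have e1 : cs m = 2 := by unfold cs; rw [if_pos hc]
    have e2 : dr m = -(13 / 4) := by unfold dr; rw [if_neg (by omega), if_neg (by omega)]
    have e3 : ee (-(((5 : ℤ) : ℝ) * (Real.pi / 3))) = ee (Real.pi / 3) := by
      have : -(((5 : ℤ) : ℝ) * (Real.pi / 3)) = Real.pi / 3 + (((-1 : ℤ)) : ℝ) * (2 * Real.pi) := by
        push_cast; ring
      rw [this, ee_add, ee_int2pi, mul_one]
    have e4 : ee (-(((5 : ℤ) : ℝ) * (2 * Real.pi / 3))) = ee (2 * Real.pi / 3) := by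
      have : -(((5 : ℤ) : ℝ) * (2 * Real.pi / 3)) = 2 * Real.pi / 3
          + (((-2 : ℤ)) : ℝ) * (2 * Real.pi) := by
        push_cast; ring
      rw [this, ee_add, ee_int2pi, mul_one]
    rw [e1, e2, e3, e4, eeA, eeB, eeC, eeD]
    push_cast
    linear_combination (-(1 / 2 : ℂ) * ((Real.sqrt 3 : ℝ) : ℂ) ^ 2 * p (m - 1)) * hI
      + ((1 / 2 : ℂ) * p (m - 1) + Complex.I * r (m - 1)) * h3

/-- the unmixed part of one real sector, `b` = factor of the bilinear term -/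
noncomputable def stR (b : ℝ) (m : ℤ) (P U S : ℝ) : ℝ :=
  (2 * S ^ 2 + (3 + 2 * b * cs m) * P ^ 2 + (51 / 8 - b * dr m) * U ^ 2
    + (b * (2 * dr m - cs m) - 15 / 2) * (P * U)) / (m : ℝ)

theorem kq_norm : ‖kq 2‖ ^ 2 = 49 / 16 := by
  rw [kq_two, Complex.sq_norm, Complex.normSq_apply]
  simp
  have := Real.mul_self_sqrt (show (0 : ℝ) ≤ 3 by norm_num)
  linarith

theorem kq_dir : (ee (-(Real.pi / 6)) * kq 2).re = 13 / 8 := by
  rw [kq_two, Complex.mul_re, ee_re, ee_im, Real.cos_neg, Real.sin_neg, Real.cos_pi_div_six,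
    Real.sin_pi_div_six]
  simp
  have := Real.mul_self_sqrt (show (0 : ℝ) ≤ 3 by norm_num)
  linarith

/-- the unmixed part, both sectors -/
theorem st_R (b : ℝ) (p r s : ℤ → ℂ) (hP : Par p r s) (m : ℤ) :
    (‖alw p r (m - 1)‖ ^ 2 + 2 * b * (alw p r (m - 1)
        * (starRingEnd ℂ) (aw p r s m + bw p r s m)).re) / (m : ℝ) + dg 2 p r s m
      = stR b m (p (m - 1)).re (r (m - 1)).im (s (m - 1)).re
        + stR b m (p (m - 1)).im (-(r (m - 1)).re) (s (m - 1)).im := by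
  have hn : ∀ z : ℂ, ‖z‖ ^ 2 = z.re ^ 2 + z.im ^ 2 := fun z => by
    rw [← Complex.normSq_eq_norm_sq, Complex.normSq_apply]; ring
  unfold dg stR
  rw [kq_norm, kq_dir, ← add_div, ← add_div]
  congr 1
  by_cases hm : Odd m
  · have hs0 : s (m - 1) = 0 := hP.se _ (by
      obtain ⟨t, ht⟩ := hm
      exact ⟨t, by omega⟩)
    have h := ab_sum p r s m hm
    rw [hs0, mul_zero, mul_zero, sub_zero, sub_zero] at h
    rw [h, hs0]
    unfold alw
    rw [hn (p (m - 1) + Complex.I / 2 * r (m - 1)), hn 0, hn (p (m - 1)), hn (r (m - 1))]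
    simp only [map_sub, map_mul, Complex.conj_ofReal, Complex.conj_I, Complex.mul_re,
      Complex.mul_im, Complex.add_re, Complex.add_im, Complex.sub_re, Complex.sub_im,
      Complex.conj_re, Complex.conj_im, Complex.I_re, Complex.I_im, Complex.ofReal_re,
      Complex.ofReal_im, Complex.neg_re, Complex.neg_im, Complex.zero_re, Complex.zero_im]
    have h1 : (Complex.I / 2).re = 0 := by simp
    have h2 : (Complex.I / 2).im = 1 / 2 := by simp
    rw [h1, h2]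
    ring
  · have hm' : Odd (m - 1) := by
      rw [Int.not_odd_iff_even] at hm
      exact hm.sub_odd odd_one
    have hp0 := hP.po _ hm'
    have hr0 := hP.ro _ hm'
    unfold alw
    rw [hp0, hr0, hn (s (m - 1))]
    simp
    ring

/-- the real rest form of the sector `σ`, frequencies `|n| ≤ K` -/
noncomputable def QG (d k ε σ : ℝ) (bil : ℤ → ℝ) (f : ℝ) (e2 e3 : ℤ → ℝ) (K : ℕ) (P U S : ℤ → ℝ) : ℝ :=
  ∑ m ∈ Finset.Icc (1 - (K : ℤ)) (1 + K), stR (bil (m - 1)) m (P (m - 1)) (U (m - 1)) (S (m - 1))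
    + ∑ m ∈ Finset.Icc (1 - (K : ℤ)) (1 + K), ∑ n ∈ Finset.Icc (1 - (K : ℤ)) (1 + K),
        entR d k ε 2 P U S m n
    + ∑ n ∈ Finset.Icc (-(K : ℤ)) K, (f * (S n ^ 2 + σ / 2 * (S n * S (-n))) + e2 n * P n ^ 2
        + e3 n * U n ^ 2)

/-- the metric of a sector -/
noncomputable def MGR (gs gp gr : ℤ → ℝ) (L : Finset ℤ) (P U S : ℤ → ℝ) : ℝ :=
  ∑ n ∈ L, (gs n * S n ^ 2 + gp n * P n ^ 2 + gr n * U n ^ 2)

/-- **the head form in real sectors** -/
theorem HG_real (d k ph ε : ℝ) (he : ee ph = (ε : ℂ)) (bil : ℤ → ℝ) (f : ℝ) (e2 e3 : ℤ → ℝ) (K : ℕ)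
    (p r s : ℤ → ℂ) (hP : Par p r s) :
    HG d k ph bil f e2 e3 K p r s =
      QG d k ε 1 bil f e2 e3 K (fun l => (p l).re) (fun l => (r l).im) (fun l => (s l).re)
      + QG d k ε (-1) bil f e2 e3 K (fun l => (p l).im) (fun l => -(r l).re) (fun l => (s l).im) := by
  have hn : ∀ z : ℂ, ‖z‖ ^ 2 = z.re ^ 2 + z.im ^ 2 := fun z => by
    rw [← Complex.normSq_eq_norm_sq, Complex.normSq_apply]; ring
  have h1 := NS_rest d k ph 2 (Finset.Icc (1 - (K : ℤ)) (1 + K)) p r s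
    (fun l hl => hP.po l (Int.not_even_iff_odd.1 hl)) (fun l hl => hP.ro l (Int.not_even_iff_odd.1 hl))
    (fun l hl => hP.se l hl)
  have h2 : ∀ n : ℤ, Lg f e2 e3 p r s n =
      (f * ((s n).re ^ 2 + 1 / 2 * ((s n).re * (s (-n)).re)) + e2 n * (p n).re ^ 2
        + e3 n * (r n).im ^ 2)
      + (f * ((s n).im ^ 2 + (-1) / 2 * ((s n).im * (s (-n)).im)) + e2 n * (p n).im ^ 2
        + e3 n * (-(r n).re) ^ 2) := by
    intro n
    unfold Lg
    rw [hn (s n), hn (p n), hn (r n), Complex.mul_re]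
    ring
  unfold HG QG
  rw [aw_eq, bw_eq, h1, ← aw_eq, ← bw_eq]
  simp_rw [h2, entS_R d k ph 2 ε he]
  have h3 : ∑ m ∈ Finset.Icc (1 - (K : ℤ)) (1 + K), (‖alw p r (m - 1)‖ ^ 2
      + 2 * bil (m - 1) * (alw p r (m - 1) * (starRingEnd ℂ) (aw p r s m + bw p r s m)).re) / (m : ℝ)
      + ∑ m ∈ Finset.Icc (1 - (K : ℤ)) (1 + K), dg 2 p r s m
      = ∑ m ∈ Finset.Icc (1 - (K : ℤ)) (1 + K), stR (bil (m - 1)) m (p (m - 1)).re (r (m - 1)).im (s (m - 1)).re
        + ∑ m ∈ Finset.Icc (1 - (K : ℤ)) (1 + K),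
          stR (bil (m - 1)) m (p (m - 1)).im (-(r (m - 1)).re) (s (m - 1)).im := by
    rw [← Finset.sum_add_distrib, ← Finset.sum_add_distrib]
    exact Finset.sum_congr rfl fun m _ => st_R (bil (m - 1)) p r s hP m
  simp_rw [Finset.sum_add_distrib]
  linarith

theorem MG_real (gs gp gr : ℤ → ℝ) (L : Finset ℤ) (p r s : ℤ → ℂ) :
    MG gs gp gr L p r s = MGR gs gp gr L (fun l => (p l).re) (fun l => (r l).im) (fun l => (s l).re)
      + MGR gs gp gr L (fun l => (p l).im) (fun l => -(r l).re) (fun l => (s l).im) := by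
  have hn : ∀ z : ℂ, ‖z‖ ^ 2 = z.re ^ 2 + z.im ^ 2 := fun z => by
    rw [← Complex.normSq_eq_norm_sq, Complex.normSq_apply]; ring
  unfold MG MGR
  rw [← Finset.sum_add_distrib]
  refine Finset.sum_congr rfl fun n _ => ?_
  rw [hn (s n), hn (p n), hn (r n)]
  ring

/-- symmetries of a real sector -/
structure ParR (σ : ℝ) (P U S : ℤ → ℝ) : Prop where
  pc : ∀ n, P (-n) = σ * P n
  uc : ∀ n, U (-n) = -(σ * U n)
  po : ∀ n, Odd n → P n = 0
  uo : ∀ n, Odd n → U n = 0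
  se : ∀ n, Even n → S n = 0

theorem par_one {p r s : ℤ → ℂ} (h : Par p r s) :
    ParR 1 (fun l => (p l).re) (fun l => (r l).im) (fun l => (s l).re) := by
  refine ⟨fun n => ?_, fun n => ?_, fun n hn => ?_, fun n hn => ?_, fun n hn => ?_⟩
  · show (p (-n)).re = 1 * (p n).re
    rw [h.pc, Complex.conj_re, one_mul]
  · show (r (-n)).im = -(1 * (r n).im)
    rw [h.rc, Complex.conj_im, one_mul]
  · show (p n).re = 0
    rw [h.po n hn, Complex.zero_re]
  · show (r n).im = 0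
    rw [h.ro n hn, Complex.zero_im]
  · show (s n).re = 0
    rw [h.se n hn, Complex.zero_re]

theorem par_neg {p r s : ℤ → ℂ} (h : Par p r s) :
    ParR (-1) (fun l => (p l).im) (fun l => -(r l).re) (fun l => (s l).im) := by
  refine ⟨fun n => ?_, fun n => ?_, fun n hn => ?_, fun n hn => ?_, fun n hn => ?_⟩
  · show (p (-n)).im = -1 * (p n).im
    rw [h.pc, Complex.conj_im]; ring
  · show -(r (-n)).re = -(-1 * (-(r n).re))
    rw [h.rc, Complex.conj_re]; ring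
  · show (p n).im = 0
    rw [h.po n hn, Complex.zero_im]
  · show -(r n).re = 0
    rw [h.ro n hn, Complex.zero_re, neg_zero]
  · show (s n).im = 0
    rw [h.se n hn, Complex.zero_im]

/-- HEAD of one real sector -/
def HeadR (d k ε σ : ℝ) (bil : ℤ → ℝ) (f : ℝ) (e2 e3 : ℤ → ℝ) (E : (ℤ → ℝ) → (ℤ → ℝ) → (ℤ → ℝ) → ℝ)
    (gs gp gr : ℤ → ℝ) (K : ℕ) : Prop :=
  ∀ P U S : ℤ → ℝ, ParR σ P U S →
    MGR gs gp gr (Finset.Icc (-(K : ℤ)) K) P U S ≤ QG d k ε σ bil f e2 e3 K P U S + E P U S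

/-- **the complex head certificate from the two real ones** -/
theorem headG_of_real (d k ph ε : ℝ) (he : ee ph = (ε : ℂ)) (bil : ℤ → ℝ) (f : ℝ) (e2 e3 : ℤ → ℝ)
    (E : Seq3) (E1 E2 : (ℤ → ℝ) → (ℤ → ℝ) → (ℤ → ℝ) → ℝ) (gs gp gr : ℤ → ℝ) (K : ℕ)
    (hE : ∀ p r s, Par p r s →
      E1 (fun l => (p l).re) (fun l => (r l).im) (fun l => (s l).re)
        + E2 (fun l => (p l).im) (fun l => -(r l).re) (fun l => (s l).im) ≤ E p r s)
    (h1 : HeadR d k ε 1 bil f e2 e3 E1 gs gp gr K) (h2 : HeadR d k ε (-1) bil f e2 e3 E2 gs gp gr K) :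
    HeadG d k ph bil f e2 e3 E gs gp gr K := by
  intro p r s hP
  rw [MG_real, HG_real d k ph ε he bil f e2 e3 K p r s hP]
  have a := h1 _ _ _ (par_one hP)
  have b := h2 _ _ _ (par_neg hP)
  have c := hE p r s hP
  linarith

/-! ### the second harmonic and the penalty -/

/-- the real form of `s2 |alw (-2) + aw (-1) + bw (-1)|² + G (|s (-3)|² + |s (-5)|²)` -/
noncomputable def PR (s2 G : ℝ) (P U S : ℤ → ℝ) : ℝ :=
  s2 * (3 * P (-2) - 15 / 4 * U (-2)) ^ 2 + G * (S (-3) ^ 2 + S (-5) ^ 2)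

theorem Pw_real (s2 G : ℝ) (p r s : ℤ → ℂ) (hP : Par p r s) : Pw s2 G p r s =
    PR s2 G (fun l => (p l).re) (fun l => (r l).im) (fun l => (s l).re)
      + PR s2 G (fun l => (p l).im) (fun l => -(r l).re) (fun l => (s l).im) := by
  have hn : ∀ z : ℂ, ‖z‖ ^ 2 = z.re ^ 2 + z.im ^ 2 := fun z => by
    rw [← Complex.normSq_eq_norm_sq, Complex.normSq_apply]; ring
  have h := ab_sum p r s (-1) (by decide)
  have e0 : ((-1 : ℤ) - 1) = -2 := by norm_num
  have hs0 : s (-2) = 0 := hP.se _ (by decide)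
  have e1 : cs (-1) = 2 := by unfold cs; rw [if_pos (by decide)]
  have e2 : dr (-1) = -(13 / 4) := by
    unfold dr
    rw [if_neg (by decide), if_neg (by decide)]
  rw [e0, hs0, mul_zero, mul_zero, sub_zero, sub_zero, e1, e2] at h
  unfold Pw PR
  have h2 : alw p r (-2) + aw p r s (-1) + bw p r s (-1)
      = 3 * p (-2) + (15 / 4 : ℂ) * Complex.I * r (-2) := by
    rw [add_assoc, h]
    unfold alw
    push_cast
    ring
  rw [h2, hn (3 * p (-2) + (15 / 4 : ℂ) * Complex.I * r (-2)), hn (s (-3)), hn (s (-5))]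
  have r1 : (3 * p (-2) + (15 / 4 : ℂ) * Complex.I * r (-2)).re = 3 * (p (-2)).re - 15 / 4 * (r (-2)).im := by
    simp [Complex.mul_re, Complex.mul_im]
    norm_num
    ring
  have r2 : (3 * p (-2) + (15 / 4 : ℂ) * Complex.I * r (-2)).im = 3 * (p (-2)).im + 15 / 4 * (r (-2)).re := by
    simp [Complex.mul_re, Complex.mul_im]
  rw [r1, r2]
  ring

/-! ### explicit entries, `κ = kq 2 = √3 + i/4` -/

theorem k_rr (x : ℝ) : (kq 2 ^ 2 * ee x).re = 47 / 16 * Real.cos x - Real.sqrt 3 / 2 * Real.sin x := by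
  have h := Real.mul_self_sqrt (show (0 : ℝ) ≤ 3 by norm_num)
  have e : kq 2 ^ 2 = ((47 / 16 : ℝ) : ℂ) + Complex.I * ((Real.sqrt 3 / 2 : ℝ) : ℂ) := by
    rw [kq_two]
    have hI := Complex.I_sq
    have h3 := s3c
    push_cast
    linear_combination h3 + (1 / 16 : ℂ) * hI
  rw [e, Complex.mul_re, ee_re, ee_im]
  simp

theorem k_ur (x : ℝ) : (kq 2 * ee (x + Real.pi / 6)).re =
    Real.sqrt 3 * Real.cos (x + Real.pi / 6) - 1 / 4 * Real.sin (x + Real.pi / 6) := by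
  rw [kq_two, Complex.mul_re, ee_re, ee_im]
  simp

theorem k_us (x : ℝ) : (kq 2 * ee x).im = Real.sqrt 3 * Real.sin x + 1 / 4 * Real.cos x := by
  rw [kq_two, Complex.mul_im, ee_re, ee_im]
  simp

/-- the real form of a pair, explicit -/
theorem BrR_two (x p u s p' u' s' : ℝ) : BrR (kq 2) x p u s p' u' s' =
    -Real.cos x * (s * s') + Real.cos (x + Real.pi / 3) * (p * p')
    + (47 / 16 * Real.cos x - Real.sqrt 3 / 2 * Real.sin x) * (u * u')
    - (Real.sqrt 3 * Real.cos (x + Real.pi / 6) - 1 / 4 * Real.sin (x + Real.pi / 6)) * (u * p' + p * u')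
    - Real.sin (x + Real.pi / 6) * (s * p' + p * s')
    + (Real.sqrt 3 * Real.sin x + 1 / 4 * Real.cos x) * (s * u' + u * s') := by
  unfold BrR
  rw [k_rr, k_ur, k_us]

end Pool.Agent.Helper61.RC.HFR
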