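import Pool.Agent.Helper61.RC.HFR
import Pool.Agent.Helper46.RC.StHd

/-!
# Project RC, SHARP, link 7: from the finite real certificate `StPos` to `HeadG` and `StHead`

`LC c S p r s` is the complex local form of the rational data `c : Loc`; `locG` are the data of the head form `HG`
(everything except the part `QR` of link 3).
-/

set_option autoImplicit false

open MeasureTheory Set Filter Topology

namespace Pool.Agent.Helper61.RC.HdLoc

open Helper49.LT hiding sg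
open Helper49.RC (om)
open Helper95.RC (c1 c2 kq NF)
open Pool.Agent.Helper99.RC
open Pool.Agent.Helper61.RC
open Pool.Agent.Helper61.RC.HFR
open Pool.Agent.Helper46.RC.Hd (Loc LF Sec StPos)
open Helper41.RC

/-- the complex local form of rational data -/
noncomputable def LC (c : Loc) (S : Finset ℤ) (p r s : ℤ → ℂ) : ℝ :=
  ∑ m ∈ S, ((c.z m : ℝ) * ‖s (m - 1)‖ ^ 2 + (c.p m : ℝ) * ‖p (m - 1)‖ ^ 2
    + (c.r m : ℝ) * ‖r (m - 1)‖ ^ 2
    + 2 * (c.x m : ℝ) * (r (m - 1) * (starRingEnd ℂ) (p (m - 1))).im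
    + (c.f2 : ℝ) * (s (m - 1) * s (1 - m)).re)

/-- real sectors of a local form -/
theorem LC_real (c : Loc) (S : Finset ℤ) (p r s : ℤ → ℂ) :
    LC c S p r s = LF c 1 S (fun l => (p l).re) (fun l => (r l).im) (fun l => (s l).re)
      + LF c (-1) S (fun l => (p l).im) (fun l => -(r l).re) (fun l => (s l).im) := by
  have hn : ∀ z : ℂ, ‖z‖ ^ 2 = z.re ^ 2 + z.im ^ 2 := fun z => by
    rw [← Complex.normSq_eq_norm_sq, Complex.normSq_apply]; ring
  unfold LC LF
  rw [← Finset.sum_add_distrib]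
  refine Finset.sum_congr rfl fun m _ => ?_
  rw [hn (s (m - 1)), hn (p (m - 1)), hn (r (m - 1)), Complex.mul_im, Complex.mul_re,
    Complex.conj_re, Complex.conj_im]
  ring

/-- rational `cs` -/
def csQ (m : ℤ) : ℚ := if m % 6 = 5 then 2 else -1

/-- rational `dr` -/
def drQ (m : ℤ) : ℚ := if m % 6 = 1 then 11 / 4 else if m % 6 = 3 then 1 / 2 else -(13 / 4)

theorem csQ_cast (m : ℤ) : ((csQ m : ℚ) : ℝ) = cs m := by
  unfold csQ cs
  split_ifs <;> norm_num

theorem drQ_cast (m : ℤ) : ((drQ m : ℚ) : ℝ) = dr m := by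
  unfold drQ dr
  split_ifs <;> norm_num

/-- **the local data of the head form minus the metric plus an extra local form** -/
def locG (f : ℚ) (bil e2 e3 gs gp gr : ℤ → ℚ) (c : Loc) : Loc where
  z m := f - gs (m - 1) + c.z m
  p m := (1 + 2 * bil (m - 1) * csQ m) / m + e2 (m - 1) - gp (m - 1) + c.p m
  r m := (1 / 4 - bil (m - 1) * drQ m) / m + e3 (m - 1) - gr (m - 1) + c.r m
  x m := (bil (m - 1) * (2 * drQ m - csQ m) - 1) / (2 * m) + c.x m
  f2 := f / 2 + c.f2

theorem LF_add (f : ℚ) (bil e2 e3 gs gp gr : ℤ → ℚ) (c : Loc) (sg : ℝ) (S : Finset ℤ) (P U s : ℤ → ℝ) :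
    LF (locG f bil e2 e3 gs gp gr c) sg S P U s =
      ∑ m ∈ S, (stR (bil (m - 1)) m (P (m - 1)) (U (m - 1)) (s (m - 1)) - dgR 2 P U s m
        + (f * (s (m - 1) ^ 2 + sg / 2 * (s (m - 1) * s (1 - m))) + e2 (m - 1) * P (m - 1) ^ 2
          + e3 (m - 1) * U (m - 1) ^ 2)
        - (gs (m - 1) * s (m - 1) ^ 2 + gp (m - 1) * P (m - 1) ^ 2 + gr (m - 1) * U (m - 1) ^ 2))
      + LF c sg S P U s := by
  unfold LF
  rw [← Finset.sum_add_distrib]
  refine Finset.sum_congr rfl fun m _ => ?_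
  unfold locG stR dgR
  rw [kq_norm, kq_dir]
  push_cast
  rw [csQ_cast, drQ_cast]
  ring

theorem sum_shift (K : ℕ) (g : ℤ → ℝ) :
    ∑ m ∈ Finset.Icc (1 - (K : ℤ)) (1 + K), g (m - 1) = ∑ n ∈ Finset.Icc (-(K : ℤ)) K, g n := by
  refine Finset.sum_bij (fun m _ => m - 1) ?_ ?_ ?_ ?_
  · intro m hm
    rw [Finset.mem_Icc] at hm ⊢
    omega
  · intro a _ b _ h
    have : a - 1 = b - 1 := h
    omega
  · intro n hn
    rw [Finset.mem_Icc] at hn
    exact ⟨n + 1, Finset.mem_Icc.2 (by omega), by omega⟩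
  · intro m _
    rfl

theorem sec_of_par {σ : ℝ} {P U S : ℤ → ℝ} (h : ParR σ P U S) : Sec σ P U S where
  po n hn := h.po n (Int.not_even_iff_odd.1 hn)
  uo n hn := h.uo n (Int.not_even_iff_odd.1 hn)
  se n hn := h.se n hn
  pm n := h.pc n
  um n := by rw [h.uc n]; ring

/-- the real head certificate of a sector -/
theorem headR_of_pos {d k : ℝ} {K : ℕ} {f : ℚ} {bil e2 e3 gs gp gr : ℤ → ℚ} {c : Loc} {σ : ℝ}
    (hσ : σ = 1 ∨ σ = -1) (h : StPos d k K (locG f bil e2 e3 gs gp gr c)) :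
    HeadR d k (-1) σ (fun n => (bil n : ℝ)) f (fun n => (e2 n : ℝ)) (fun n => (e3 n : ℝ))
      (fun P U S => LF c σ (Finset.Icc (1 - (K : ℤ)) (1 + K)) P U S)
      (fun n => (gs n : ℝ)) (fun n => (gp n : ℝ)) (fun n => (gr n : ℝ)) K := by
  intro P U S hP
  have h1 := h σ hσ P U S (sec_of_par hP)
  rw [LF_add] at h1
  have s1 := sum_shift K (fun n => gs n * S n ^ 2 + gp n * P n ^ 2 + gr n * U n ^ 2)
  have s2 := sum_shift K (fun n => f * (S n ^ 2 + σ / 2 * (S n * S (-n))) + e2 n * P n ^ 2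
    + e3 n * U n ^ 2)
  have e : ∀ m : ℤ, -(m - 1) = 1 - m := fun m => by ring
  simp_rw [e] at s2
  unfold MGR QG
  rw [← s1, ← s2]
  unfold QR at h1
  simp only [Finset.sum_add_distrib, Finset.sum_sub_distrib] at h1 ⊢
  linarith

theorem ee_pi_real : ee Real.pi = (((-1 : ℝ)) : ℂ) := by
  rw [ee_pi]
  push_cast
  rfl

/-- **HeadG from the finite certificate**, `E` at least the local form of `c` -/
theorem headG_of_pos (d k : ℝ) (K : ℕ) (f : ℚ) (bil e2 e3 gs gp gr : ℤ → ℚ) (c : Loc) (E : Seq3)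
    (hE : ∀ p r s, Par p r s → LC c (Finset.Icc (1 - (K : ℤ)) (1 + K)) p r s ≤ E p r s)
    (h : StPos d k K (locG f bil e2 e3 gs gp gr c)) :
    HeadG d k Real.pi (fun n => (bil n : ℝ)) f (fun n => (e2 n : ℝ)) (fun n => (e3 n : ℝ)) E
      (fun n => (gs n : ℝ)) (fun n => (gp n : ℝ)) (fun n => (gr n : ℝ)) K := by
  refine headG_of_real d k Real.pi (-1) ee_pi_real _ _ _ _ E
    (fun P U S => LF c 1 (Finset.Icc (1 - (K : ℤ)) (1 + K)) P U S)
    (fun P U S => LF c (-1) (Finset.Icc (1 - (K : ℤ)) (1 + K)) P U S) _ _ _ K ?_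
    (headR_of_pos (Or.inl rfl) h) (headR_of_pos (Or.inr rfl) h)
  intro p r s hP
  have h1 := hE p r s hP
  rw [LC_real] at h1
  exact h1

/-! ### the first version `StHead` -/

/-- the local data of the second harmonic and of the penalty -/
def locP (s2 G : ℚ) : Loc where
  z m := if m = -2 then G else if m = -4 then G else 0
  p m := if m = -1 then 9 * s2 else 0
  r m := if m = -1 then 225 / 16 * s2 else 0
  x m := if m = -1 then -(45 / 4) * s2 else 0
  f2 := 0

theorem LF_locP (s2 G : ℚ) (σ : ℝ) (K : ℕ) (hK : 5 ≤ K) (P U S : ℤ → ℝ) :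
    LF (locP s2 G) σ (Finset.Icc (1 - (K : ℤ)) (1 + K)) P U S = PR s2 G P U S := by
  have m1 : (-1 : ℤ) ∈ Finset.Icc (1 - (K : ℤ)) (1 + K) := Finset.mem_Icc.2 (by omega)
  have m2 : (-2 : ℤ) ∈ Finset.Icc (1 - (K : ℤ)) (1 + K) := Finset.mem_Icc.2 (by omega)
  have m4 : (-4 : ℤ) ∈ Finset.Icc (1 - (K : ℤ)) (1 + K) := Finset.mem_Icc.2 (by omega)
  have e : ∀ m ∈ Finset.Icc (1 - (K : ℤ)) (1 + K),
      (((locP s2 G).z m : ℝ) * S (m - 1) ^ 2 + ((locP s2 G).p m : ℝ) * P (m - 1) ^ 2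
        + ((locP s2 G).r m : ℝ) * U (m - 1) ^ 2
        + 2 * ((locP s2 G).x m : ℝ) * (P (m - 1) * U (m - 1))
        + σ * ((locP s2 G).f2 : ℝ) * (S (m - 1) * S (1 - m)))
      = (if m = -1 then (s2 : ℝ) * (3 * P (-2) - 15 / 4 * U (-2)) ^ 2 else 0)
        + ((if m = -2 then (G : ℝ) * S (-3) ^ 2 else 0) + (if m = -4 then (G : ℝ) * S (-5) ^ 2 else 0)) := by
    intro m _
    unfold locP
    by_cases h1 : m = -1
    · subst h1
      norm_num
      ring
    · by_cases h2 : m = -2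
      · subst h2
        norm_num
      · by_cases h4 : m = -4
        · subst h4
          norm_num
        · simp [h1, h2, h4]
  unfold LF PR
  rw [Finset.sum_congr rfl e, Finset.sum_add_distrib, Finset.sum_add_distrib, Finset.sum_ite_eq',
    Finset.sum_ite_eq', Finset.sum_ite_eq', if_pos m1, if_pos m2, if_pos m4]
  ring

/-- **StHead from the finite certificate** -/
theorem stHead_of_pos (d k : ℝ) (K : ℕ) (hK : 5 ≤ K) (f e2 e3 s2 G gs gp gr : ℚ)
    (h : StPos d k K (locG f (fun _ => 1) (fun _ => e2) (fun _ => e3) (fun _ => gs) (fun _ => gp)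
      (fun _ => gr) (locP s2 G))) :
    StHead d k Real.pi f e2 e3 s2 G gs gp gr K := by
  have h0 := headG_of_pos d k K f (fun _ => 1) (fun _ => e2) (fun _ => e3) (fun _ => gs) (fun _ => gp)
    (fun _ => gr) (locP s2 G) (fun p r s => Pw s2 G p r s) (by
      intro p r s hP
      rw [LC_real, LF_locP s2 G 1 K hK, LF_locP s2 G (-1) K hK, Pw_real s2 G p r s hP]) h
  intro p r s hP
  have h1 := h0 p r s hP
  unfold MG HG at h1
  unfold Mw HF
  simp only [Rat.cast_one, mul_one] at h1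
  have e1 : ∀ n, Lg f (fun _ => (e2 : ℝ)) (fun _ => (e3 : ℝ)) p r s n = Lw f e2 e3 p r s n := fun n => rfl
  simp_rw [e1] at h1
  refine h1.trans (le_of_eq ?_)
  ring

end Pool.Agent.Helper61.RC.HdLoc
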