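import Pool.Agent.Helper95.RC.Coef
import Pool.Agent.Helper61.RC.NFB

/-!
# Project RC, SHARP, link 3: closed form of `NS` on the rest in the coordinates `p, r, s`

`x = m π/3 - (m + n) d/2`, `n = m + 3 j`, `κ = kq q`. The symmetrised entry is
`(4/(m+n)) J_j((m+n)k/2) Re (ee (j ph) * Br)`; real sectors for `ph = 0`, `π`.
-/

set_option autoImplicit false

open MeasureTheory Set Filter Topology

namespace Pool.Agent.Helper61.RC

open Helper49.LT hiding sg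
open Helper49.RC (om)
open Helper95.RC (c1 c2 kq NF)
open Pool.Agent.Helper99.RC
open Helper31.Bes (J J_neg_ord)

theorem om_e : om = ee (Real.pi / 3) := rfl
theorem omc_e : (starRingEnd ℂ) om = ee (-(Real.pi / 3)) := by rw [om_e, ee_neg]

theorem I_e : Complex.I = ee (Real.pi / 2) := by
  apply Complex.ext
  · rw [ee_re, Real.cos_pi_div_two]; simp
  · rw [ee_im, Real.sin_pi_div_two]; simp

theorem nI_e : -Complex.I = ee (-(Real.pi / 2)) := by
  rw [ee_neg, ← I_e, Complex.conj_I]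

theorem f1 (x : ℝ) : ee x * (starRingEnd ℂ) om = -Complex.I * ee (x + Real.pi / 6) := by
  rw [omc_e, nI_e, ← ee_add, ← ee_add]; congr 1; ring
theorem f2 (x : ℝ) : ee (-x) * (starRingEnd ℂ) om ^ 2 = -Complex.I * ee (-(x + Real.pi / 6)) := by
  rw [omc_e, nI_e, sq, ← ee_add, ← ee_add, ← ee_add]; congr 1; ring
theorem f3 (x : ℝ) : ee x * om ^ 2 = Complex.I * ee (x + Real.pi / 6) := by
  rw [om_e, I_e, sq, ← ee_add, ← ee_add, ← ee_add]; congr 1; ring
theorem f4 (x : ℝ) : ee (-x) * om = Complex.I * ee (-(x + Real.pi / 6)) := by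
  rw [om_e, I_e, ← ee_add, ← ee_add]; congr 1; ring
theorem f5 (x : ℝ) : ee x * om = ee (x + Real.pi / 3) := by rw [om_e, ← ee_add]
theorem f6 (x : ℝ) : ee (-x) * (starRingEnd ℂ) om = ee (-(x + Real.pi / 3)) := by
  rw [omc_e, ← ee_add]; congr 1; ring
theorem omoc : om * (starRingEnd ℂ) om = 1 := by rw [om_e]; exact ee_mul_conj _

theorem re2 (y : ℝ) (z : ℂ) : z * ee y + (starRingEnd ℂ) z * ee (-y) = 2 * (((z * ee y).re : ℝ) : ℂ) := by
  rw [ee_neg, ← map_mul, Complex.add_conj]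
  push_cast
  ring

theorem im2 (y : ℝ) (z : ℂ) :
    z * ee y - (starRingEnd ℂ) z * ee (-y) = 2 * Complex.I * (((z * ee y).im : ℝ) : ℂ) := by
  rw [ee_neg, ← map_mul, Complex.sub_conj]
  push_cast
  ring

theorem cos2 (y : ℝ) : ee y + ee (-y) = 2 * ((Real.cos y : ℝ) : ℂ) := by
  have h := re2 y 1
  rw [map_one, one_mul, one_mul, ee_re] at h
  exact h

theorem sin2 (y : ℝ) : ee y - ee (-y) = 2 * Complex.I * ((Real.sin y : ℝ) : ℂ) := by
  have h := im2 y 1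
  rw [map_one, one_mul, one_mul, ee_im] at h
  exact h

/-- half of the bracket of a pair of modes -/
noncomputable def BrH (κ : ℂ) (x : ℝ) (p r s p' r' s' : ℂ) : ℂ :=
  -(Real.cos x : ℂ) * (s * (starRingEnd ℂ) s')
  + (Real.cos (x + Real.pi / 3) : ℂ) * (p * (starRingEnd ℂ) p')
  + (((κ ^ 2 * ee x).re : ℝ) : ℂ) * (r * (starRingEnd ℂ) r')
  + Complex.I * (((κ * ee (x + Real.pi / 6)).re : ℝ) : ℂ) *
      (r * (starRingEnd ℂ) p' - p * (starRingEnd ℂ) r')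
  - s * ((Real.sin (x + Real.pi / 6) : ℂ) * (starRingEnd ℂ) p'
      - Complex.I * (((κ * ee x).im : ℝ) : ℂ) * (starRingEnd ℂ) r')
  - (starRingEnd ℂ) s' * ((Real.sin (x + Real.pi / 6) : ℂ) * p
      + Complex.I * (((κ * ee x).im : ℝ) : ℂ) * r)

theorem bracket (κ : ℂ) (x : ℝ) (p r s p' r' s' : ℂ) :
    ee x * (((starRingEnd ℂ) om * p + κ * r + s) *
      (starRingEnd ℂ) ((starRingEnd ℂ) om ^ 2 * p' + (starRingEnd ℂ) κ * r' - s'))
    + ee (-x) * (((starRingEnd ℂ) om ^ 2 * p + (starRingEnd ℂ) κ * r - s) *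
      (starRingEnd ℂ) ((starRingEnd ℂ) om * p' + κ * r' + s')) = 2 * BrH κ x p r s p' r' s' := by
  have hI := Complex.I_mul_I
  have e1 := f1 x
  have e2 := f2 x
  have e3 := f3 x
  have e4 := f4 x
  have e5 := f5 x
  have e6 := f6 x
  have ho := omoc
  have g1 := cos2 (x + Real.pi / 3)
  have g2 := cos2 x
  have g3 := sin2 (x + Real.pi / 6)
  have g4 := re2 (x + Real.pi / 6) κ
  have g5 := im2 x κ
  have g6 := re2 x (κ ^ 2)
  rw [map_pow] at g6
  unfold BrH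
  simp only [map_add, map_sub, map_mul, map_pow, Complex.conj_conj]
  linear_combination (p * (starRingEnd ℂ) p') * (g1 + e5 + e6)
    + (p * (starRingEnd ℂ) p') * (ee x * om + ee (-x) * (starRingEnd ℂ) om) * ho
    + (p * (starRingEnd ℂ) r') * (κ * e1 + (starRingEnd ℂ) κ * e2 - Complex.I * g4)
    + (r * (starRingEnd ℂ) p') * (κ * e3 + (starRingEnd ℂ) κ * e4 + Complex.I * g4)
    + (p * (starRingEnd ℂ) s') * (-e1 + e2 + Complex.I * g3 + 2 * (Real.sin (x + Real.pi / 6) : ℂ) * hI)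
    + (s * (starRingEnd ℂ) p') * (e3 - e4 + Complex.I * g3 + 2 * (Real.sin (x + Real.pi / 6) : ℂ) * hI)
    + (r * (starRingEnd ℂ) s') * (-g5) + (s * (starRingEnd ℂ) r') * g5
    + (r * (starRingEnd ℂ) r') * g6 - (s * (starRingEnd ℂ) s') * g2

theorem ee_int2pi (j : ℤ) : ee ((j : ℝ) * (2 * Real.pi)) = 1 := by
  rw [ee_int_mul, ee_two_pi, one_zpow]

theorem ee_intpi (j : ℤ) : ee ((j : ℝ) * Real.pi) = (-1) ^ j := by
  rw [ee_int_mul, ee_pi]

/-- the contents of the families -/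
noncomputable def aA (q : ℝ) (p r s : ℤ → ℂ) (l : ℤ) : ℂ :=
  (starRingEnd ℂ) om * p l + kq q * r l + s l
noncomputable def bB (q : ℝ) (p r s : ℤ → ℂ) (l : ℤ) : ℂ :=
  (starRingEnd ℂ) om ^ 2 * p l + (starRingEnd ℂ) (kq q) * r l - s l

theorem c1_rest (q : ℝ) (p r s : ℤ → ℂ) (m : ℤ) :
    c1 q (fun _ => 0) p r s m = ee (-(m : ℝ) * (Real.pi / 3)) * aA q p r s (m - 1) := by
  unfold c1 aA
  rw [mul_zero, zero_add]

theorem c2_rest (q : ℝ) (p r s : ℤ → ℂ) (m : ℤ) :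
    c2 q (fun _ => 0) p r s m = ee (-(m : ℝ) * (2 * Real.pi / 3)) * bB q p r s (m - 1) := by
  unfold c2 bB
  rw [mul_zero, zero_add]

/-- the argument `x` of a pair -/
noncomputable def xx (d : ℝ) (m n : ℤ) : ℝ := (m : ℝ) * (Real.pi / 3) - ((m + n : ℤ) : ℝ) * d / 2

theorem neg_one_sq_zpow (j : ℤ) : ((-1 : ℝ) ^ j) * (-1) ^ j = 1 := by
  rw [← mul_zpow]
  norm_num

/-- the symmetrised entry -/
theorem ent_sym (d k ph q : ℝ) (p r s : ℤ → ℂ) (m j : ℤ) :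
    ent d k ph (c1 q (fun _ => 0) p r s) (c2 q (fun _ => 0) p r s) m (m + 3 * j)
    + ent d k ph (c1 q (fun _ => 0) p r s) (c2 q (fun _ => 0) p r s) (m + 3 * j) m =
    8 / ((m + (m + 3 * j) : ℤ) : ℝ) * J j (((m + (m + 3 * j) : ℤ) : ℝ) * k / 2) *
      (ee ((j : ℝ) * ph) * BrH (kq q) (xx d m (m + 3 * j)) (p (m - 1)) (r (m - 1)) (s (m - 1))
        (p (m + 3 * j - 1)) (r (m + 3 * j - 1)) (s (m + 3 * j - 1))).re := by
  set n := m + 3 * j with hn
  set x := xx d m n with hx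
  have hnr : (n : ℝ) = m + 3 * j := by rw [hn]; push_cast; ring
  have hA : c1 q (fun _ => 0) p r s m * (starRingEnd ℂ) (c2 q (fun _ => 0) p r s n) * CS d k ph m n =
      ((J j (((m + n : ℤ) : ℝ) * k / 2) : ℝ) : ℂ) * (ee ((j : ℝ) * ph) *
        (ee x * (aA q p r s (m - 1) * (starRingEnd ℂ) (bB q p r s (n - 1))))) := by
    rw [c1_rest, c2_rest, map_mul, ← ee_neg]
    unfold CS
    rw [if_pos ⟨j, by omega⟩]
    have hj : (n - m) / 3 = j := by omega
    rw [hj]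
    have e : ee (-(m : ℝ) * (Real.pi / 3)) * ee (-(-(n : ℝ) * (2 * Real.pi / 3))) *
        ee (-(((m + n : ℤ) : ℝ) * d / 2)) = ee x := by
      rw [← ee_add, ← ee_add]
      have e2 : -(m : ℝ) * (Real.pi / 3) + -(-(n : ℝ) * (2 * Real.pi / 3)) +
          -(((m + n : ℤ) : ℝ) * d / 2) = x + (j : ℝ) * (2 * Real.pi) := by
        rw [hx]; unfold xx; rw [hnr]; ring
      rw [e2, ee_add, ee_int2pi, mul_one]
    rw [← e]
    ring
  have hB : (c1 q (fun _ => 0) p r s n * (starRingEnd ℂ) (c2 q (fun _ => 0) p r s m) *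
      CS d k ph n m).re = (((J j (((m + n : ℤ) : ℝ) * k / 2) : ℝ) : ℂ) * (ee ((j : ℝ) * ph) *
        (ee (-x) * (bB q p r s (m - 1) * (starRingEnd ℂ) (aA q p r s (n - 1)))))).re := by
    rw [← Complex.conj_re]
    congr 1
    rw [c1_rest, c2_rest]
    unfold CS
    rw [if_pos ⟨-j, by omega⟩]
    have hj : (m - n) / 3 = -j := by omega
    rw [hj]
    simp only [map_mul, Complex.conj_conj, Complex.conj_ofReal]
    rw [← ee_neg, ← ee_neg, ← ee_neg, J_neg_ord]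
    have hp : ((n + m : ℤ) : ℝ) = ((m + n : ℤ) : ℝ) := by push_cast; ring
    rw [hp]
    have e : ee (-(-(n : ℝ) * (Real.pi / 3))) * ee (-(m : ℝ) * (2 * Real.pi / 3)) *
        ee (-(-(((m + n : ℤ) : ℝ) * d / 2))) = ee (-x) * (-1) ^ j := by
      rw [← ee_add, ← ee_add, ← ee_intpi, ← ee_add]
      congr 1
      rw [hx]; unfold xx; rw [hnr]; ring
    have e3 : -((((-j : ℤ) : ℝ)) * ph) = (j : ℝ) * ph := by push_cast; ring
    rw [e3]
    have hs : ((((-1 : ℝ) ^ j * J j (((m + n : ℤ) : ℝ) * k / 2) : ℝ) : ℂ)) =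
        (-1 : ℂ) ^ j * ((J j (((m + n : ℤ) : ℝ) * k / 2) : ℝ) : ℂ) := by push_cast; ring
    rw [hs]
    have h1 : ((-1 : ℂ) ^ j) * (-1) ^ j = 1 := by
      rw [← mul_zpow]; norm_num
    linear_combination ((-1 : ℂ) ^ j * ((J j (((m + n : ℤ) : ℝ) * k / 2) : ℝ) : ℂ) * ee ((j : ℝ) * ph) *
      (bB q p r s (m - 1) * (starRingEnd ℂ) (aA q p r s (n - 1)))) * e
      + (((J j (((m + n : ℤ) : ℝ) * k / 2) : ℝ) : ℂ) * ee ((j : ℝ) * ph) * ee (-x) *
      (bB q p r s (m - 1) * (starRingEnd ℂ) (aA q p r s (n - 1)))) * h1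
  have hbr := bracket (kq q) x (p (m - 1)) (r (m - 1)) (s (m - 1)) (p (n - 1)) (r (n - 1)) (s (n - 1))
  have hnm : ((n + m : ℤ) : ℝ) = ((m + n : ℤ) : ℝ) := by push_cast; ring
  unfold ent
  rw [hA, hB, hnm, Complex.re_ofReal_mul, Complex.re_ofReal_mul]
  have h8 : (ee ((j : ℝ) * ph) * (ee x * (aA q p r s (m - 1) * (starRingEnd ℂ) (bB q p r s (n - 1))))).re
      + (ee ((j : ℝ) * ph) * (ee (-x) * (bB q p r s (m - 1) * (starRingEnd ℂ) (aA q p r s (n - 1))))).re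
      = 2 * (ee ((j : ℝ) * ph) * BrH (kq q) x (p (m - 1)) (r (m - 1)) (s (m - 1))
        (p (n - 1)) (r (n - 1)) (s (n - 1))).re := by
    rw [← Complex.add_re, ← mul_add]
    unfold aA bB
    rw [hbr]
    have : ee ((j : ℝ) * ph) * (2 * BrH (kq q) x (p (m - 1)) (r (m - 1)) (s (m - 1))
        (p (n - 1)) (r (n - 1)) (s (n - 1))) = ((2 : ℝ) : ℂ) * (ee ((j : ℝ) * ph) *
        BrH (kq q) x (p (m - 1)) (r (m - 1)) (s (m - 1)) (p (n - 1)) (r (n - 1)) (s (n - 1))) := by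
      push_cast; ring
    rw [this, Complex.re_ofReal_mul]
  linear_combination (4 / ((m + n : ℤ) : ℝ) * J j (((m + n : ℤ) : ℝ) * k / 2)) * h8

/-- the symmetrised entry as a function of `m, n` -/
noncomputable def entS (d k ph q : ℝ) (p r s : ℤ → ℂ) (m n : ℤ) : ℝ :=
  if (3 : ℤ) ∣ n - m then
    4 / ((m + n : ℤ) : ℝ) * J ((n - m) / 3) (((m + n : ℤ) : ℝ) * k / 2) *
      (ee ((((n - m) / 3 : ℤ) : ℝ) * ph) * BrH (kq q) (xx d m n) (p (m - 1)) (r (m - 1)) (s (m - 1))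
        (p (n - 1)) (r (n - 1)) (s (n - 1))).re
  else 0

theorem entS_eq (d k ph q : ℝ) (p r s : ℤ → ℂ) (m n : ℤ) :
    ent d k ph (c1 q (fun _ => 0) p r s) (c2 q (fun _ => 0) p r s) m n
    + ent d k ph (c1 q (fun _ => 0) p r s) (c2 q (fun _ => 0) p r s) n m =
      2 * entS d k ph q p r s m n := by
  unfold entS
  by_cases h : (3 : ℤ) ∣ n - m
  · rw [if_pos h]
    obtain ⟨j, hj⟩ := h
    have hn : n = m + 3 * j := by omega
    subst hn
    have hj' : (m + 3 * j - m) / 3 = j := by omega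
    rw [hj', ent_sym]
    ring
  · rw [if_neg h]
    unfold ent CS
    rw [if_neg h, if_neg (fun h' => h (by omega))]
    simp

theorem sum_ent (d k ph q : ℝ) (S : Finset ℤ) (p r s : ℤ → ℂ) :
    ∑ m ∈ S, ∑ n ∈ S, ent d k ph (c1 q (fun _ => 0) p r s) (c2 q (fun _ => 0) p r s) m n =
      ∑ m ∈ S, ∑ n ∈ S, entS d k ph q p r s m n := by
  have h1 : ∑ m ∈ S, ∑ n ∈ S, ent d k ph (c1 q (fun _ => 0) p r s) (c2 q (fun _ => 0) p r s) m n =
      ∑ m ∈ S, ∑ n ∈ S, ent d k ph (c1 q (fun _ => 0) p r s) (c2 q (fun _ => 0) p r s) n m :=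
    Finset.sum_comm
  have h2 : ∑ m ∈ S, ∑ n ∈ S, 2 * entS d k ph q p r s m n =
      ∑ m ∈ S, ∑ n ∈ S, ent d k ph (c1 q (fun _ => 0) p r s) (c2 q (fun _ => 0) p r s) m n
      + ∑ m ∈ S, ∑ n ∈ S, ent d k ph (c1 q (fun _ => 0) p r s) (c2 q (fun _ => 0) p r s) n m := by
    rw [← Finset.sum_add_distrib]
    refine Finset.sum_congr rfl fun m _ => ?_
    rw [← Finset.sum_add_distrib]
    exact Finset.sum_congr rfl fun n _ => (entS_eq d k ph q p r s m n).symm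
  simp_rw [← Finset.mul_sum] at h2
  linarith

/-- the diagonal -/
noncomputable def dg (q : ℝ) (p r s : ℤ → ℂ) (m : ℤ) : ℝ :=
  (2 * ‖s (m - 1)‖ ^ 2 + 2 * ‖p (m - 1)‖ ^ 2 + 2 * ‖kq q‖ ^ 2 * ‖r (m - 1)‖ ^ 2
    + 4 * (ee (-(Real.pi / 6)) * kq q).re * (p (m - 1) * (starRingEnd ℂ) (r (m - 1))).im) / (m : ℝ)

theorem norm_c1 (q : ℝ) (p r s : ℤ → ℂ) (m : ℤ) :
    ‖c1 q (fun _ => 0) p r s m‖ = ‖aA q p r s (m - 1)‖ := by
  rw [c1_rest, norm_mul, norm_ee, one_mul]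

theorem norm_c2 (q : ℝ) (p r s : ℤ → ℂ) (m : ℤ) :
    ‖c2 q (fun _ => 0) p r s m‖ = ‖bB q p r s (m - 1)‖ := by
  rw [c2_rest, norm_mul, norm_ee, one_mul]

theorem norm_om1 : ‖om‖ = 1 := norm_ee _

theorem dg_odd (q : ℝ) (p r : ℂ) :
    ‖(starRingEnd ℂ) om * p + kq q * r‖ ^ 2 + ‖(starRingEnd ℂ) om ^ 2 * p + (starRingEnd ℂ) (kq q) * r‖ ^ 2
      = 2 * ‖p‖ ^ 2 + 2 * ‖kq q‖ ^ 2 * ‖r‖ ^ 2
        + 4 * (ee (-(Real.pi / 6)) * kq q).re * (p * (starRingEnd ℂ) r).im := by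
  rw [nsq_add, nsq_add]
  have hn : ‖(starRingEnd ℂ) om‖ = 1 := by rw [Complex.norm_conj]; exact norm_om1
  rw [norm_mul, norm_mul, norm_mul, norm_mul, norm_pow, hn, Complex.norm_conj]
  have e1 : (starRingEnd ℂ) om * p * (starRingEnd ℂ) (kq q * r) =
      -Complex.I * (ee (Real.pi / 6) * (starRingEnd ℂ) (kq q)) * (p * (starRingEnd ℂ) r) := by
    have : (starRingEnd ℂ) om = -Complex.I * ee (Real.pi / 6) := by
      have h := f1 0
      rw [ee_zero, one_mul, zero_add] at h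
      exact h
    rw [this, map_mul]; ring
  have e2 : (starRingEnd ℂ) om ^ 2 * p * (starRingEnd ℂ) ((starRingEnd ℂ) (kq q) * r) =
      -Complex.I * (ee (-(Real.pi / 6)) * kq q) * (p * (starRingEnd ℂ) r) := by
    have : (starRingEnd ℂ) om ^ 2 = -Complex.I * ee (-(Real.pi / 6)) := by
      have h := f2 0
      rw [neg_zero, ee_zero, one_mul, zero_add] at h
      exact h
    rw [this, map_mul, Complex.conj_conj]; ring
  have e3 : ee (Real.pi / 6) * (starRingEnd ℂ) (kq q) = (starRingEnd ℂ) (ee (-(Real.pi / 6)) * kq q) := by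
    rw [map_mul, ← ee_neg, neg_neg]
  rw [e1, e2, e3]
  set Z := ee (-(Real.pi / 6)) * kq q
  set Y := p * (starRingEnd ℂ) r
  have e4 : (-Complex.I * (starRingEnd ℂ) Z * Y).re + (-Complex.I * Z * Y).re = 2 * Z.re * Y.im := by
    simp only [Complex.mul_re, Complex.mul_im, Complex.neg_re, Complex.neg_im, Complex.I_re,
      Complex.I_im, Complex.conj_re, Complex.conj_im]
    ring
  linear_combination 2 * e4

/-- **NS on the rest** -/
theorem NS_rest (d k ph q : ℝ) (S : Finset ℤ) (p r s : ℤ → ℂ) (hp : ∀ l, ¬ Even l → p l = 0)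
    (hr : ∀ l, ¬ Even l → r l = 0) (hs : ∀ l, Even l → s l = 0) :
    NS d k ph S (c1 q (fun _ => 0) p r s) (c2 q (fun _ => 0) p r s) =
      ∑ m ∈ S, dg q p r s m + ∑ m ∈ S, ∑ n ∈ S, entS d k ph q p r s m n := by
  unfold NS
  rw [sum_ent]
  have h0 : (c1 q (fun _ => 0) p r s 0 * (starRingEnd ℂ) (c2 q (fun _ => 0) p r s 0)).im = 0 := by
    have hne : ¬ Even ((0 : ℤ) - 1) := by decide
    rw [c1_rest, c2_rest]
    unfold aA bB
    rw [hp _ hne, hr _ hne]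
    simp only [Int.cast_zero, neg_zero, zero_mul, ee_zero, one_mul, mul_zero, zero_add, zero_sub,
      map_neg, mul_neg]
    rw [Complex.mul_conj]
    simp
  rw [h0, mul_zero, add_zero]
  congr 1
  refine Finset.sum_congr rfl fun m _ => ?_
  unfold dg
  congr 1
  rw [norm_c1, norm_c2]
  unfold aA bB
  by_cases hm : Even (m - 1)
  · rw [hs _ hm, add_zero, sub_zero, dg_odd, norm_zero]
    ring
  · rw [hp _ hm, hr _ hm]
    simp only [mul_zero, zero_add, zero_sub, norm_neg, norm_zero, zero_mul, Complex.zero_im]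
    ring

/-! ### real sectors -/

/-- the real form of a pair -/
noncomputable def BrR (κ : ℂ) (x : ℝ) (p u s p' u' s' : ℝ) : ℝ :=
  -Real.cos x * (s * s') + Real.cos (x + Real.pi / 3) * (p * p') + (κ ^ 2 * ee x).re * (u * u')
  - (κ * ee (x + Real.pi / 6)).re * (u * p' + p * u')
  - Real.sin (x + Real.pi / 6) * (s * p' + p * s') + (κ * ee x).im * (s * u' + u * s')

theorem BrH_re (κ : ℂ) (x : ℝ) (p r s p' r' s' : ℂ) : (BrH κ x p r s p' r' s').re =
    BrR κ x p.re r.im s.re p'.re r'.im s'.re + BrR κ x p.im (-r.re) s.im p'.im (-r'.re) s'.im := by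
  unfold BrH BrR
  simp only [Complex.add_re, Complex.sub_re, Complex.neg_re, Complex.mul_re, Complex.mul_im,
    Complex.add_im, Complex.sub_im, Complex.neg_im,
    Complex.conj_re, Complex.conj_im, Complex.ofReal_re, Complex.ofReal_im, Complex.I_re,
    Complex.I_im]
  ring

/-- the real entry; `ε = ± 1` is the sign of `ee ph` -/
noncomputable def entR (d k ε q : ℝ) (p u s : ℤ → ℝ) (m n : ℤ) : ℝ :=
  if (3 : ℤ) ∣ n - m then
    4 / ((m + n : ℤ) : ℝ) * J ((n - m) / 3) (((m + n : ℤ) : ℝ) * k / 2) * (ε ^ ((n - m) / 3) *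
      BrR (kq q) (xx d m n) (p (m - 1)) (u (m - 1)) (s (m - 1)) (p (n - 1)) (u (n - 1)) (s (n - 1)))
  else 0

noncomputable def dgR (q : ℝ) (p u s : ℤ → ℝ) (m : ℤ) : ℝ :=
  (2 * s (m - 1) ^ 2 + 2 * p (m - 1) ^ 2 + 2 * ‖kq q‖ ^ 2 * u (m - 1) ^ 2
    - 4 * (ee (-(Real.pi / 6)) * kq q).re * (p (m - 1) * u (m - 1))) / (m : ℝ)

/-- the real quadratic form of one sector -/
noncomputable def QR (d k ε q : ℝ) (S : Finset ℤ) (p u s : ℤ → ℝ) : ℝ :=
  ∑ m ∈ S, dgR q p u s m + ∑ m ∈ S, ∑ n ∈ S, entR d k ε q p u s m n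

theorem dg_R (q : ℝ) (p r s : ℤ → ℂ) (m : ℤ) : dg q p r s m =
    dgR q (fun l => (p l).re) (fun l => (r l).im) (fun l => (s l).re) m
    + dgR q (fun l => (p l).im) (fun l => -(r l).re) (fun l => (s l).im) m := by
  unfold dg dgR
  rw [← add_div]
  congr 1
  have h : ∀ z : ℂ, ‖z‖ ^ 2 = z.re ^ 2 + z.im ^ 2 := fun z => by
    rw [← Complex.normSq_eq_norm_sq, Complex.normSq_apply]; ring
  rw [h (s (m - 1)), h (p (m - 1)), h (r (m - 1)), Complex.mul_im, Complex.conj_re, Complex.conj_im]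
  ring

theorem entS_R (d k ph q ε : ℝ) (he : ee ph = (ε : ℂ)) (p r s : ℤ → ℂ) (m n : ℤ) :
    entS d k ph q p r s m n =
    entR d k ε q (fun l => (p l).re) (fun l => (r l).im) (fun l => (s l).re) m n
    + entR d k ε q (fun l => (p l).im) (fun l => -(r l).re) (fun l => (s l).im) m n := by
  unfold entS entR
  by_cases h : (3 : ℤ) ∣ n - m
  · rw [if_pos h, if_pos h, if_pos h]
    have e : ee ((((n - m) / 3 : ℤ) : ℝ) * ph) = (((ε ^ ((n - m) / 3) : ℝ)) : ℂ) := by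
      rw [ee_int_mul, he]; push_cast; rfl
    rw [e, Complex.re_ofReal_mul, BrH_re]
    ring
  · rw [if_neg h, if_neg h, if_neg h, add_zero]

/-- **real sectors**: `E = (Re p, Im r, Re s)` and `O = (Im p, - Re r, Im s)`, the same real form -/
theorem NS_real (d k ph q ε : ℝ) (he : ee ph = (ε : ℂ)) (S : Finset ℤ) (p r s : ℤ → ℂ)
    (hp : ∀ l, ¬ Even l → p l = 0) (hr : ∀ l, ¬ Even l → r l = 0) (hs : ∀ l, Even l → s l = 0) :
    NS d k ph S (c1 q (fun _ => 0) p r s) (c2 q (fun _ => 0) p r s) =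
      QR d k ε q S (fun l => (p l).re) (fun l => (r l).im) (fun l => (s l).re)
      + QR d k ε q S (fun l => (p l).im) (fun l => -(r l).re) (fun l => (s l).im) := by
  rw [NS_rest d k ph q S p r s hp hr hs]
  unfold QR
  simp_rw [dg_R, entS_R d k ph q ε he, Finset.sum_add_distrib]
  ring

end Pool.Agent.Helper61.RC
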