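import Pool.Agent.Helper43.SH.NSx
import Pool.Agent.Helper17.RC.TailQ
import Pool.Agent.Helper41.RC.M_RG
import Pool.Agent.Helper61.RC.HFR
import Pool.Agent.Helper95.SH.Pass2

/-!
# Project RC, SHARP, zone I: assembly of the quadratic part (Q)

`d2_split`: (D2) with `γ = 0`, the moments split into a kept part `N` (frequency local) and the rest `e - N`.
`quad_lower`: `QuadL` in the coefficient arrays, the bilinear rows still abstract.
-/

set_option autoImplicit false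

open MeasureTheory Set Filter Topology

namespace Pool.Agent.Helper61.RC.QC

open Helper49.LT hiding sg s3
open Helper49.RC (om)
open Helper49.Sharp
open Helper56.RC (fc)
open Helper87.RC (BM intg_of_bdd intg_of_bddC fc_add fc_sub fc_cmul fc_conj pars)
open Helper95.RC (Lf BF Sup c1 c2 wc kq NF av)
open Helper95.SH (br_bm mean_lin mean_Lf mean_S1 S1Q LQ)
open Pool.Agent.Helper20.RC (lk lk_ge lk_sq eD eM sM DensI)
open Pool.Agent.Helper17.RC (qr D2_sq qr_nonneg young)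
open Pool.Agent.Helper43.SH
open Helper41.RC

/-! ### splitting of (D2) -/

/-- **(D2) BY A KEPT PART AND THE REST** -/
theorem d2_split {ν : ℝ} (hν : 0 < ν) {H e N : ℕ → ℂ} {τ : ℕ → ℝ} (hτ : ∀ k, 0 < τ k)
    (sN : Summable fun k => (1 + τ k) * (‖qr ν H N k‖ ^ 2 / (lk k ^ 2 - 1)))
    (sx : Summable fun k => (1 + 1 / τ k) * (‖e k - N k‖ ^ 2 / (lk k ^ 2 - 1))) :
    -(2 / ν) * ∑' k, (1 + τ k) * (‖qr ν H N k‖ ^ 2 / (lk k ^ 2 - 1))
      - ν / 2 * ∑' k, (1 + 1 / τ k) * (‖e k - N k‖ ^ 2 / (lk k ^ 2 - 1)) ≤ D2 ν H e (fun _ => 0) := by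
  have key : ∀ k, ‖qr ν H e k‖ ^ 2 / (lk k ^ 2 - 1) ≤ (1 + τ k) * (‖qr ν H N k‖ ^ 2 / (lk k ^ 2 - 1))
      + ν ^ 2 / 4 * ((1 + 1 / τ k) * (‖e k - N k‖ ^ 2 / (lk k ^ 2 - 1))) := by
    intro k
    have hd := lk_sq k
    have e1 : qr ν H e k = qr ν H N k + (-((ν / 2 : ℝ) : ℂ)) * (e k - N k) := by
      unfold qr; ring
    rw [div_le_iff₀ hd, e1]
    refine (young _ _ (hτ k)).trans (le_of_eq ?_)
    rw [norm_mul, norm_neg, Complex.norm_real, mul_pow, Real.norm_eq_abs, sq_abs]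
    have h0 := hd.ne'
    set d := lk k ^ 2 - 1
    field_simp
    ring
  have s2 : Summable fun k => (1 + τ k) * (‖qr ν H N k‖ ^ 2 / (lk k ^ 2 - 1))
      + ν ^ 2 / 4 * ((1 + 1 / τ k) * (‖e k - N k‖ ^ 2 / (lk k ^ 2 - 1))) := sN.add (sx.mul_left _)
  have s1 : Summable fun k => ‖qr ν H e k‖ ^ 2 / (lk k ^ 2 - 1) :=
    Summable.of_nonneg_of_le (qr_nonneg ν H e) key s2
  rw [D2_sq hν]
  have h1 := s1.tsum_le_tsum key s2
  rw [sN.tsum_add (sx.mul_left _), tsum_mul_left] at h1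
  have h2 : 0 < 2 / ν := by positivity
  have h3 := mul_le_mul_of_nonneg_left h1 h2.le
  have h4 : 2 / ν * (ν ^ 2 / 4) = ν / 2 := by field_simp; ring
  calc _ = -(2 / ν * (∑' k, (1 + τ k) * (‖qr ν H N k‖ ^ 2 / (lk k ^ 2 - 1))
        + ν ^ 2 / 4 * ∑' k, (1 + 1 / τ k) * (‖e k - N k‖ ^ 2 / (lk k ^ 2 - 1)))) := by
        rw [mul_add, ← mul_assoc (2 / ν) (ν ^ 2 / 4), h4]; ring
    _ ≤ -(2 / ν * ∑' k, ‖qr ν H e k‖ ^ 2 / (lk k ^ 2 - 1)) := neg_le_neg h3
    _ = _ := by ring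

/-! ### means of quadratic forms of functions with finitely many coefficients -/

theorem fc_one' (m : ℤ) : fc (fun _ => (1 : ℂ)) m = if m = 0 then 1 else 0 := by
  have hpi := Real.pi_pos
  have hpc : (Real.pi : ℂ) ≠ 0 := by exact_mod_cast hpi.ne'
  rw [Helper87.RC.fc_eq]
  have e : ∀ t : ℝ, (1 : ℂ) * ee (-(m : ℝ) * t) = ee (((-m : ℤ) : ℝ) * t) := fun t => by
    rw [one_mul]; push_cast; rfl
  simp_rw [e]
  rw [Pool.Agent.Helper17.RC.int_ee_int]
  by_cases hm : m = 0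
  · subst hm
    rw [if_pos (by norm_num), if_pos rfl]
    field_simp
  · rw [if_neg (by omega), if_neg hm, mul_zero]

theorem mean_Lf1 {ρ : ℝ → ℂ} {C : ℝ} {M : ℕ} (h : BM ρ C) (s : Sup M (fc ρ)) :
    mean (fun t => Lf (ρ t)) =
      ∑ n ∈ Finset.Icc (-(M : ℤ)) M, (‖fc ρ n‖ ^ 2 + 1 / 2 * (fc ρ n * fc ρ (-n)).re) := by
  have h1 := mean_Lf (F := fun _ => (1 : ℝ)) (BR.const 1) h s
  have e : (fun t => (1 : ℝ) * Lf (ρ t)) = fun t => Lf (ρ t) := funext fun t => one_mul _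
  have e2 : (fun t : ℝ => (((1 : ℝ)) : ℂ)) = fun _ => (1 : ℂ) := by funext t; push_cast; rfl
  rw [e] at h1
  rw [h1, e2]
  unfold LQ
  rw [Complex.re_sum]
  refine Finset.sum_congr rfl fun m hm => ?_
  have e3 : ∑ k ∈ Finset.Icc (-(M : ℤ)) M, fc (fun _ => (1 : ℂ)) (m - k) * fc ρ k *
      ((starRingEnd ℂ) (fc ρ m) + 1 / 2 * fc ρ (-m)) = fc ρ m * ((starRingEnd ℂ) (fc ρ m) + 1 / 2 * fc ρ (-m)) := by
    rw [Finset.sum_eq_single m]
    · rw [fc_one', if_pos (sub_self m), one_mul]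
    · intro k _ hk
      rw [fc_one', if_neg (sub_ne_zero.2 hk.symm)]
      ring
    · intro h0
      exact absurd hm h0
  rw [e3, mul_add, Complex.add_re, Complex.mul_conj, Complex.ofReal_re, Complex.normSq_eq_norm_sq]
  congr 1
  rw [show fc ρ m * (1 / 2 * fc ρ (-m)) = ((1 / 2 : ℝ) : ℂ) * (fc ρ m * fc ρ (-m)) by push_cast; ring,
    Complex.re_ofReal_mul]

/-- coefficient of `p` in the kept part of the row -/
noncomputable def aK (ν : ℝ) (x : ℕ → ℝ) (k : ℕ) : ℝ := (if k = 0 then 0 else 1) + ν / 2 * x k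
/-- coefficient of `i r` in the kept part of the row -/
noncomputable def bK (ν : ℝ) (y : ℕ → ℝ) (k : ℕ) : ℝ := (if k = 0 then 0 else lk k / 2) - ν / 2 * y k

/-- the kept part of the moments -/
noncomputable def NK (x y : ℕ → ℝ) (p r : ℤ → ℂ) (k : ℕ) : ℂ :=
  (x k : ℂ) * p (2 * k + 2) + Complex.I * (y k : ℂ) * r (2 * k + 2)

/-- the data of the rest in the arrays -/
structure Rest (β ρ : ℝ → ℂ) (M : ℕ) (p r s : ℤ → ℂ) : Prop where
  cb : BF β
  cz : BF ρ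
  hp : fc (fun t => ((β t).re : ℂ)) = p
  hr : fc (fun t => ((β t).im : ℂ)) = r
  hs : fc ρ = s
  sp : Sup M p
  sr : Sup M r
  ss : Sup M s
  par : Par p r s

section

variable {P : Par} {f : ℝ → ℝ} {β ρ : ℝ → ℂ} {M : ℕ} {p r s : ℤ → ℂ}

namespace Rest

variable (R : Rest β ρ M p r s)

include R

theorem bmb : ∃ C, BM β C := by
  obtain ⟨C, hC⟩ := R.cb.b
  exact ⟨C, R.cb.m, hC⟩

theorem bmz : ∃ C, BM ρ C := by
  obtain ⟨C, hC⟩ := R.cz.b
  exact ⟨C, R.cz.m, hC⟩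

theorem re2 : mean (fun t => (β t).re ^ 2) = ∑ n ∈ Finset.Icc (-(M : ℤ)) M, ‖p n‖ ^ 2 := by
  obtain ⟨C, hC⟩ := R.bmb
  have h := mean_S1 (M := M) (BR.re hC) (by rw [R.hp]; exact R.sp)
  rw [R.hp] at h
  exact h

theorem im2 : mean (fun t => (β t).im ^ 2) = ∑ n ∈ Finset.Icc (-(M : ℤ)) M, ‖r n‖ ^ 2 := by
  obtain ⟨C, hC⟩ := R.bmb
  have h := mean_S1 (M := M) (BR.im hC) (by rw [R.hr]; exact R.sr)
  rw [R.hr] at h
  exact h

theorem L2 : mean (fun t => Lf (ρ t)) =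
    ∑ n ∈ Finset.Icc (-(M : ℤ)) M, (‖s n‖ ^ 2 + 1 / 2 * (s n * s (-n)).re) := by
  obtain ⟨C, hC⟩ := R.bmz
  have h := mean_Lf1 hC (by rw [R.hs]; exact R.ss)
  rw [R.hs] at h
  exact h

/-- the coefficients of `δ` -/
theorem dl_fc : fc (dl β) = alw p r := by
  obtain ⟨C, hC⟩ := R.bmb
  have b1 : BM (fun t => ((β t).re : ℂ)) C := ⟨Complex.measurable_ofReal.comp (Complex.measurable_re.comp hC.m),
    fun t => by rw [Complex.norm_real, Real.norm_eq_abs]; exact (Complex.abs_re_le_norm _).trans (hC.b t)⟩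
  have b2 : BM (fun t => ((β t).im : ℂ)) C := ⟨Complex.measurable_ofReal.comp (Complex.measurable_im.comp hC.m),
    fun t => by rw [Complex.norm_real, Real.norm_eq_abs]; exact (Complex.abs_im_le_norm _).trans (hC.b t)⟩
  funext n
  have e : dl β = fun t => ((β t).re : ℂ) + Complex.I / 2 * ((β t).im : ℂ) := by
    funext t
    unfold dl
    push_cast
    ring
  rw [e, fc_add b1 (b2.cmul _), fc_cmul]
  unfold alw
  rw [← R.hp, ← R.hr]

theorem alw_sup : ∀ n : ℤ, n ∉ Finset.Icc (-(M : ℤ)) M → alw p r n = 0 := by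
  intro n hn
  unfold alw
  rw [R.sp n hn, R.sr n hn]
  ring

theorem p0_re : ((p 0).re : ℂ) = p 0 := by
  have h := R.par.pc 0
  rw [neg_zero] at h
  exact Complex.conj_eq_iff_re.1 h.symm

theorem r0_re : ((r 0).re : ℂ) = r 0 := by
  have h := R.par.rc 0
  rw [neg_zero] at h
  exact Complex.conj_eq_iff_re.1 h.symm

theorem hR_eq : hR β = (p 0).re := by
  unfold hR
  rw [R.dl_fc]
  unfold alw
  rw [← R.r0_re]
  simp [Complex.add_re, Complex.mul_re]

theorem sgR_eq : sgR β = p 2 - Complex.I * r 2 := by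
  unfold sgR
  rw [R.hp, R.hr]

/-- the unmixed part of link 1 -/
theorem l1_eq {N : ℕ} (hN : M + 1 ≤ N) : ∑' j : ℤ, ‖fc (dl β) (2 * j)‖ ^ 2 / (2 * (j : ℝ) + 1) =
    ∑ m ∈ Finset.Icc (-(N : ℤ)) N, ‖alw p r (m - 1)‖ ^ 2 / (m : ℝ) := by
  rw [R.dl_fc]
  have h1 : ∑' j : ℤ, ‖alw p r (2 * j)‖ ^ 2 / (2 * (j : ℝ) + 1) =
      ∑ j ∈ Finset.Icc (-(M : ℤ)) M, ‖alw p r (2 * j)‖ ^ 2 / (2 * (j : ℝ) + 1) := by
    refine tsum_eq_sum fun j hj => ?_
    rw [R.alw_sup (2 * j) ?_]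
    · simp
    · rw [Finset.mem_Icc] at hj ⊢
      omega
  rw [h1]
  have h2 : ∑ j ∈ Finset.Icc (-(M : ℤ)) M, ‖alw p r (2 * j)‖ ^ 2 / (2 * (j : ℝ) + 1) =
      ∑ m ∈ (Finset.Icc (-(M : ℤ)) M).image (fun j => 2 * j + 1), ‖alw p r (m - 1)‖ ^ 2 / (m : ℝ) := by
    rw [Finset.sum_image (fun a _ b _ h => by simpa using h)]
    refine Finset.sum_congr rfl fun j _ => ?_
    rw [add_sub_cancel_right]
    push_cast
    rfl
  rw [h2]
  have h3 : ∑ m ∈ Finset.Icc (-(N : ℤ)) N, ‖alw p r (m - 1)‖ ^ 2 / (m : ℝ) =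
      ∑ m ∈ Finset.Icc (-(N : ℤ)) N ∩ (Finset.Icc (-(M : ℤ)) M).image (fun j => 2 * j + 1),
        ‖alw p r (m - 1)‖ ^ 2 / (m : ℝ) := by
    symm
    apply Finset.sum_subset Finset.inter_subset_left
    intro m hm hm2
    by_cases ho : Odd (m - 1)
    · unfold alw
      rw [R.par.po _ ho, R.par.ro _ ho]
      simp
    · rw [R.alw_sup (m - 1) ?_]
      · simp
      · intro h4
        apply hm2
        rw [Finset.mem_inter]
        refine ⟨hm, Finset.mem_image.2 ?_⟩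
        obtain ⟨j, hj⟩ := Int.not_odd_iff_even.1 ho
        rw [Finset.mem_Icc] at h4
        exact ⟨j, Finset.mem_Icc.2 (by omega), by omega⟩
  rw [h3]
  symm
  apply Finset.sum_subset Finset.inter_subset_right
  intro m hm hm2
  rw [R.alw_sup (m - 1) ?_]
  · simp
  · intro h4
    apply hm2
    rw [Finset.mem_inter]
    refine ⟨?_, hm⟩
    rw [Finset.mem_Icc] at h4 ⊢
    omega

/-! #### the rows -/

omit R in
theorem fc_noh {δ : ℝ → ℂ} {D : ℝ} (h : BM δ D) (n : ℤ) :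
    fc (noh2 δ) n = if n = 2 ∨ n = -2 then 0 else fc δ n := by
  have e : noh2 δ = fun t => (δ t - fc δ 2 * ee (((2 : ℤ) : ℝ) * t)) - fc δ (-2) * ee (((-2 : ℤ) : ℝ) * t) := by
    funext t
    unfold noh2
    push_cast
    rfl
  have b1 : BM (fun t : ℝ => ee (((2 : ℤ) : ℝ) * t)) 1 := BM.eec _
  have b2 : BM (fun t : ℝ => ee (((-2 : ℤ) : ℝ) * t)) 1 := BM.eec _
  rw [e, fc_sub (h.sub (b1.cmul _)) (b2.cmul _), fc_sub h (b1.cmul _), fc_cmul, fc_cmul,
    Pool.Agent.Helper20.RC.fc_eek, Pool.Agent.Helper20.RC.fc_eek]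
  by_cases h1 : n = 2
  · subst h1
    norm_num
  · by_cases h2 : n = -2
    · subst h2
      norm_num
    · rw [if_neg (by tauto), if_neg (by omega), if_neg (by omega)]
      ring

theorem qr_row (ν : ℝ) (x y : ℕ → ℝ) (k : ℕ) : qr ν (hK β) (NK x y p r) k =
    -((aK ν x k : ℂ) * p (2 * k + 2)) + Complex.I * ((bK ν y k : ℂ) * r (2 * k + 2)) := by
  obtain ⟨C, hC⟩ := R.bmb
  have hd : ∃ D, BM (dl β) D := by
    have b1 : BM (fun t => ((β t).re : ℂ)) C := ⟨Complex.measurable_ofReal.comp (Complex.measurable_re.comp hC.m),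
      fun t => by rw [Complex.norm_real, Real.norm_eq_abs]; exact (Complex.abs_re_le_norm _).trans (hC.b t)⟩
    have b2 : BM (fun t => ((β t).im : ℂ)) C := ⟨Complex.measurable_ofReal.comp (Complex.measurable_im.comp hC.m),
      fun t => by rw [Complex.norm_real, Real.norm_eq_abs]; exact (Complex.abs_im_le_norm _).trans (hC.b t)⟩
    have e : dl β = fun t => ((β t).re : ℂ) + Complex.I / 2 * ((β t).im : ℂ) := by
      funext t
      unfold dl
      push_cast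
      ring
    exact ⟨_, by rw [e]; exact b1.add (b2.cmul _)⟩
  obtain ⟨D, hD⟩ := hd
  have hl := lk_ge k
  have h1 : (lk k : ℂ) + 1 ≠ 0 := by
    have : (lk k : ℂ) + 1 = ((lk k + 1 : ℝ) : ℂ) := by push_cast; ring
    rw [this]
    exact_mod_cast (by linarith : lk k + 1 ≠ 0)
  have h2 : (lk k : ℂ) - 1 ≠ 0 := by
    have : (lk k : ℂ) - 1 = ((lk k - 1 : ℝ) : ℂ) := by push_cast; ring
    rw [this]
    exact_mod_cast (by linarith : lk k - 1 ≠ 0)
  unfold qr hK Hk NK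
  rw [fc_noh hD, fc_noh hD, R.dl_fc]
  by_cases hk : k = 0
  · subst hk
    unfold aK bK
    rw [if_pos (by norm_num), if_pos (by norm_num), if_pos rfl, if_pos rfl]
    push_cast
    rw [map_zero]
    ring
  · unfold aK bK
    rw [if_neg (by omega), if_neg (by omega), if_neg hk, if_neg hk]
    have e2 : (starRingEnd ℂ) (alw p r (-(2 * (k : ℤ) + 2))) =
        p (2 * k + 2) - Complex.I / 2 * r (2 * k + 2) := by
      unfold alw
      rw [R.par.pc, R.par.rc]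
      simp only [map_add, map_mul, Complex.conj_conj, map_div₀, Complex.conj_I, Complex.conj_ofNat]
      ring
    rw [e2]
    unfold alw
    push_cast
    field_simp
    ring

omit R in
theorem norm_row (a b : ℝ) (u v : ℂ) : ‖-((a : ℂ) * u) + Complex.I * ((b : ℂ) * v)‖ ^ 2 =
    a ^ 2 * ‖u‖ ^ 2 + b ^ 2 * ‖v‖ ^ 2 + 2 * (a * b) * (v * (starRingEnd ℂ) u).im := by
  have e : -((a : ℂ) * u) + Complex.I * ((b : ℂ) * v) = ⟨-(a * u.re) - b * v.im, -(a * u.im) + b * v.re⟩ := by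
    apply Complex.ext
    · rw [Complex.add_re, Complex.neg_re, Complex.re_ofReal_mul, Complex.I_mul_re, Complex.im_ofReal_mul]
      ring
    · rw [Complex.add_im, Complex.neg_im, Complex.im_ofReal_mul, Complex.I_mul_im, Complex.re_ofReal_mul]
  rw [e, ← Complex.normSq_eq_norm_sq, ← Complex.normSq_eq_norm_sq, ← Complex.normSq_eq_norm_sq,
    Complex.normSq_apply, Complex.normSq_apply, Complex.normSq_apply, Complex.mul_im, Complex.conj_re,
    Complex.conj_im]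
  ring

end Rest

end

/-! ### sums over the rows as sums over the frequencies -/

/-- the row of a frequency -/
def rowOf (n : ℤ) : ℕ := n.natAbs / 2 - 1

/-- half of the coefficient of the row, even in the frequency -/
noncomputable def evn (A : ℕ → ℝ) (n : ℤ) : ℝ := if n = 0 then 0 else 1 / 2 * A (rowOf n)
/-- half of the coefficient of the row, odd in the frequency -/
noncomputable def odn (X : ℕ → ℝ) (n : ℤ) : ℝ := if 0 < n then 1 / 2 * X (rowOf n) else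
  if n < 0 then -(1 / 2 * X (rowOf n)) else 0

theorem rowOf_pos (k : ℕ) : rowOf (2 * k + 2) = k := by
  unfold rowOf
  have : (2 * (k : ℤ) + 2).natAbs = 2 * k + 2 := by omega
  rw [this]
  omega

theorem rowOf_neg (k : ℕ) : rowOf (-(2 * k + 2)) = k := by
  unfold rowOf
  have : (-(2 * (k : ℤ) + 2)).natAbs = 2 * k + 2 := by omega
  rw [this]
  omega

/-- an even function of the frequency which vanishes at the odd frequencies, at `0` and outside the window -/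
theorem sum_even {F : ℤ → ℝ} {M : ℕ} (hF : ∀ n : ℤ, n ∉ Finset.Icc (-(M : ℤ)) M → F n = 0) (h0 : F 0 = 0)
    (ho : ∀ n, Odd n → F n = 0) (he : ∀ n, F (-n) = F n) :
    ∑ n ∈ Finset.Icc (-(M : ℤ)) M, F n = ∑' k : ℕ, 2 * F (2 * k + 2) := by
  have h1 : ∑' k : ℕ, 2 * F (2 * k + 2) = ∑ k ∈ Finset.range M, 2 * F (2 * k + 2) := by
    refine tsum_eq_sum fun k hk => ?_
    rw [Finset.mem_range, not_lt] at hk
    rw [hF _ (by rw [Finset.mem_Icc]; omega), mul_zero]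
  have i1 : Set.InjOn (fun k : ℕ => (2 * (k : ℤ) + 2)) (Finset.range M : Set ℕ) := fun a _ b _ h => by
    have : (2 * (a : ℤ) + 2) = 2 * b + 2 := h
    omega
  have i2 : Set.InjOn (fun k : ℕ => (-(2 * (k : ℤ) + 2))) (Finset.range M : Set ℕ) := fun a _ b _ h => by
    have : (-(2 * (a : ℤ) + 2)) = -(2 * b + 2) := h
    omega
  have h2 : ∑ n ∈ (Finset.range M).image (fun k : ℕ => (2 * (k : ℤ) + 2)), F n =
      ∑ k ∈ Finset.range M, F (2 * k + 2) := Finset.sum_image i1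
  have h3 : ∑ n ∈ (Finset.range M).image (fun k : ℕ => (-(2 * (k : ℤ) + 2))), F n =
      ∑ k ∈ Finset.range M, F (2 * k + 2) := by
    rw [Finset.sum_image i2]
    exact Finset.sum_congr rfl fun k _ => he _
  have hd : Disjoint ((Finset.range M).image (fun k : ℕ => (2 * (k : ℤ) + 2)))
      ((Finset.range M).image (fun k : ℕ => (-(2 * (k : ℤ) + 2)))) := by
    rw [Finset.disjoint_left]
    intro n h4 h5
    obtain ⟨a, _, ha⟩ := Finset.mem_image.1 h4
    obtain ⟨b, _, hb⟩ := Finset.mem_image.1 h5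
    omega
  have h4 := Finset.sum_union hd (f := F)
  set U := (Finset.range M).image (fun k : ℕ => (2 * (k : ℤ) + 2)) ∪
    (Finset.range M).image (fun k : ℕ => (-(2 * (k : ℤ) + 2))) with hU
  have h5 : ∑ n ∈ Finset.Icc (-(M : ℤ)) M, F n = ∑ n ∈ Finset.Icc (-(M : ℤ)) M ∩ U, F n := by
    symm
    apply Finset.sum_subset Finset.inter_subset_left
    intro n hn hn2
    rcases Int.even_or_odd n with hp | hp
    · by_cases hz : n = 0
      · rw [hz]; exact h0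
      · exfalso
        apply hn2
        rw [Finset.mem_inter]
        refine ⟨hn, ?_⟩
        rw [Finset.mem_Icc] at hn
        obtain ⟨j, hj⟩ := hp
        rw [hU, Finset.mem_union, Finset.mem_image, Finset.mem_image]
        rcases lt_or_gt_of_ne hz with h6 | h6
        · right
          exact ⟨(-j - 1).toNat, by rw [Finset.mem_range]; omega, by omega⟩
        · left
          exact ⟨(j - 1).toNat, by rw [Finset.mem_range]; omega, by omega⟩
    · exact ho n hp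
  have h6 : ∑ n ∈ U, F n = ∑ n ∈ Finset.Icc (-(M : ℤ)) M ∩ U, F n := by
    symm
    apply Finset.sum_subset Finset.inter_subset_right
    intro n hn hn2
    apply hF
    intro h7
    exact hn2 (Finset.mem_inter.2 ⟨h7, hn⟩)
  rw [h5, ← h6, h4, h2, h3, h1, ← Finset.mul_sum]
  ring

/-- ROWS AS FREQUENCIES -/
theorem sum_rows {p r s : ℤ → ℂ} (hP : Par p r s) {M : ℕ} (sp : Sup M p) (sr : Sup M r) (A B X : ℕ → ℝ) :
    ∑' k : ℕ, (A k * ‖p (2 * k + 2)‖ ^ 2 + B k * ‖r (2 * k + 2)‖ ^ 2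
      + 2 * X k * (r (2 * k + 2) * (starRingEnd ℂ) (p (2 * k + 2))).im) =
    ∑ n ∈ Finset.Icc (-(M : ℤ)) M, (evn A n * ‖p n‖ ^ 2 + evn B n * ‖r n‖ ^ 2
      + 2 * odn X n * (r n * (starRingEnd ℂ) (p n)).im) := by
  rw [sum_even (F := fun n => evn A n * ‖p n‖ ^ 2 + evn B n * ‖r n‖ ^ 2
      + 2 * odn X n * (r n * (starRingEnd ℂ) (p n)).im)]
  · refine tsum_congr fun k => ?_
    have h1 : (2 * (k : ℤ) + 2) ≠ 0 := by omega
    have h2 : (0 : ℤ) < 2 * (k : ℤ) + 2 := by omega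
    simp only [evn, odn, if_neg h1, if_pos h2, rowOf_pos]
    ring
  · intro n hn
    rw [sp n hn, sr n hn]
    simp
  · simp [evn, odn]
  · intro n hn
    rw [hP.po n hn, hP.ro n hn]
    simp
  · intro n
    have e1 : rowOf (-n) = rowOf n := by unfold rowOf; rw [Int.natAbs_neg]
    rw [hP.pc, hP.rc, Complex.norm_conj, Complex.norm_conj, Complex.conj_conj]
    have e2 : ((starRingEnd ℂ) (r n) * p n).im = -(r n * (starRingEnd ℂ) (p n)).im := by
      simp only [Complex.mul_im, Complex.conj_re, Complex.conj_im]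
      ring
    rw [e2]
    unfold evn odn
    rw [e1]
    split_ifs <;> first | (exfalso; omega) | ring

/-! ### the kept rows of (D2) -/

/-- coefficients of the kept rows -/
noncomputable def kP (ν : ℝ) (τ x : ℕ → ℝ) (k : ℕ) : ℝ := 2 / ν * (1 + τ k) * aK ν x k ^ 2 / (lk k ^ 2 - 1)
noncomputable def kR (ν : ℝ) (τ y : ℕ → ℝ) (k : ℕ) : ℝ := 2 / ν * (1 + τ k) * bK ν y k ^ 2 / (lk k ^ 2 - 1)
noncomputable def kX (ν : ℝ) (τ x y : ℕ → ℝ) (k : ℕ) : ℝ :=
  2 / ν * (1 + τ k) * (aK ν x k * bK ν y k) / (lk k ^ 2 - 1)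

/-- the frequency-local form of the kept rows -/
noncomputable def KF (ν : ℝ) (τ x y : ℕ → ℝ) (M : ℕ) (p r : ℤ → ℂ) : ℝ :=
  ∑ n ∈ Finset.Icc (-(M : ℤ)) M, (evn (kP ν τ x) n * ‖p n‖ ^ 2 + evn (kR ν τ y) n * ‖r n‖ ^ 2
    + 2 * odn (kX ν τ x y) n * (r n * (starRingEnd ℂ) (p n)).im)

section

variable {P : Helper49.Sharp.Par} {f : ℝ → ℝ} {β ρ : ℝ → ℂ} {M : ℕ} {p r s : ℤ → ℂ}

namespace Rest

variable (R : Rest β ρ M p r s)

include R

theorem row_zero (ν : ℝ) (x y : ℕ → ℝ) {k : ℕ} (hk : M ≤ k) : qr ν (hK β) (NK x y p r) k = 0 := by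
  rw [R.qr_row, R.sp _ (by rw [Finset.mem_Icc]; omega), R.sr _ (by rw [Finset.mem_Icc]; omega)]
  simp

theorem row_sum (ν : ℝ) (τ x y : ℕ → ℝ) :
    Summable fun k => (1 + τ k) * (‖qr ν (hK β) (NK x y p r) k‖ ^ 2 / (lk k ^ 2 - 1)) := by
  refine summable_of_ne_finset_zero (s := Finset.range M) fun k hk => ?_
  rw [Finset.mem_range, not_lt] at hk
  rw [R.row_zero ν x y hk, norm_zero]
  norm_num

theorem kept (ν : ℝ) (τ x y : ℕ → ℝ) :
    2 / ν * ∑' k, (1 + τ k) * (‖qr ν (hK β) (NK x y p r) k‖ ^ 2 / (lk k ^ 2 - 1)) = KF ν τ x y M p r := by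
  unfold KF
  rw [← sum_rows R.par R.sp R.sr, ← tsum_mul_left]
  refine tsum_congr fun k => ?_
  rw [R.qr_row, norm_row]
  unfold kP kR kX
  have := (lk_sq k).ne'
  field_simp

/-- (D2) of the rest: kept rows and the rest of the moments -/
theorem d2_lower {ν : ℝ} (hν : 0 < ν) (e : ℕ → ℂ) (τ x y : ℕ → ℝ) (hτ : ∀ k, 0 < τ k)
    (sx : Summable fun k => (1 + 1 / τ k) * (‖e k - NK x y p r k‖ ^ 2 / (lk k ^ 2 - 1))) :
    -KF ν τ x y M p r - ν / 2 * ∑' k, (1 + 1 / τ k) * (‖e k - NK x y p r k‖ ^ 2 / (lk k ^ 2 - 1))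
      ≤ D2 ν (hK β) e (fun _ => 0) := by
  have h := d2_split hν (H := hK β) (e := e) (N := NK x y p r) hτ (R.row_sum ν τ x y) sx
  rw [← R.kept]
  linarith

/-- the local part -/
theorem local_lower (hr : P.Reg) (hf : BR f) {p2 p3 F0 E2 E3 : ℝ} (h2 : ∀ t, E2 * P.w t ≤ 9 - P.cs - (P.m - P.lam) * p2)
    (h3 : ∀ t, E3 * P.w t ≤ 9 - P.cs - (P.m - P.lam) * p3) (hF : ∀ t, F0 * P.w t ≤ (P.m - P.lam) * f t) :
    ∑ n ∈ Finset.Icc (-(M : ℤ)) M, Lg F0 (fun _ => E2) (fun _ => E3) p r s n ≤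
      mean (fun t => ql P f p2 p3 t (β t) (ρ t) / P.w t) := by
  obtain ⟨C, hC⟩ := R.bmb
  obtain ⟨D, hD⟩ := R.bmz
  have hq := ql_br (P := P) (p2 := p2) (p3 := p3) hf hC hD
  have e1 : mean (fun t => ql P f p2 p3 t (β t) (ρ t) / P.w t) =
      mean fun t => ql P f p2 p3 t (β t) (ρ t) * (P.w t)⁻¹ := mean_congr fun t => by rw [div_eq_mul_inv]
  have b1 : BR fun t => E2 * (β t).re ^ 2 := (BR.re hC).sq.cmul _
  have b2 : BR fun t => E3 * (β t).im ^ 2 := (BR.im hC).sq.cmul _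
  have b3 : BR fun t => F0 * Lf (ρ t) := (Lf_br hD).cmul _
  have h5 : mean (fun t => E2 * (β t).re ^ 2 + E3 * (β t).im ^ 2 + F0 * Lf (ρ t)) ≤
      mean fun t => ql P f p2 p3 t (β t) (ρ t) * (P.w t)⁻¹ := by
    refine mean_mono ((b1.add b2).add b3) (hq.mul (winv_br hr)) fun t => ?_
    have hw : 0 < P.w t := by have := w_pos hr t; linarith
    rw [← div_eq_mul_inv, le_div_iff₀ hw]
    have hL : 0 ≤ Lf (ρ t) := by unfold Lf; positivity
    have m1 := mul_le_mul_of_nonneg_right (h2 t) (sq_nonneg (β t).re)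
    have m2 := mul_le_mul_of_nonneg_right (h3 t) (sq_nonneg (β t).im)
    have m3 := mul_le_mul_of_nonneg_right (hF t) hL
    unfold ql
    linarith
  rw [mean_add (b1.add b2) b3, mean_add b1 b2, mean_cmul, mean_cmul, mean_cmul, R.re2, R.im2, R.L2, ← e1] at h5
  refine le_trans (le_of_eq ?_) h5
  unfold Lg
  rw [Finset.mul_sum, Finset.mul_sum, Finset.mul_sum, ← Finset.sum_add_distrib, ← Finset.sum_add_distrib]
  refine Finset.sum_congr rfl fun n _ => ?_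
  ring

/-- **QuadL + NS IN THE ARRAYS** -/
theorem quad_lower (hr : P.Reg) (hf : BR f) {p2 p3 F0 E2 E3 : ℝ}
    (h2 : ∀ t, E2 * P.w t ≤ 9 - P.cs - (P.m - P.lam) * p2)
    (h3 : ∀ t, E3 * P.w t ≤ 9 - P.cs - (P.m - P.lam) * p3) (hF : ∀ t, F0 * P.w t ≤ (P.m - P.lam) * f t)
    {N : ℕ} (hN : M + 1 ≤ N) (d k ph : ℝ) :
    RG (Pool.Agent.Helper99.RC.ps d k ph) (fun _ => 0) F0 (fun _ => E2) (fun _ => E3) (Finset.Icc (-(N : ℤ)) N)
        (Finset.Icc (-((N : ℤ) + 1)) (N + 1)) p r s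
      + (2 / 3 * ‖p 2 - Complex.I * r 2‖ ^ 2 + 2 * (p 0).re * e0R P β ρ - P.pr2 * (p 0).re ^ 2
        + D2 P.nu (hK β) (eR P β ρ) (fun _ => 0)) ≤
    QuadL P f p2 p3 β ρ + Pool.Agent.Helper99.RC.NS d k ph (Finset.Icc (-(N : ℤ)) N)
      (Pool.Agent.Helper43.SH.R1 p r s) (Pool.Agent.Helper43.SH.R2 p r s) := by
  have h0 : (0 : ℤ) ∈ Finset.Icc (-(N : ℤ)) N := by rw [Finset.mem_Icc]; omega
  have hL := R.local_lower (p2 := p2) (p3 := p3) hr hf h2 h3 hF
  have e1 : Pool.Agent.Helper43.SH.R1 p r s = aw p r s := (Pool.Agent.Helper61.RC.HFR.aw_eq p r s).symm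
  have e2 : Pool.Agent.Helper43.SH.R2 p r s = bw p r s := (Pool.Agent.Helper61.RC.HFR.bw_eq p r s).symm
  have e3 : ∑ n ∈ Finset.Icc (-((N : ℤ) + 1)) (N + 1), Lg F0 (fun _ => E2) (fun _ => E3) p r s n =
      ∑ n ∈ Finset.Icc (-(M : ℤ)) M, Lg F0 (fun _ => E2) (fun _ => E3) p r s n := by
    symm
    apply Finset.sum_subset
    · intro n hn
      rw [Finset.mem_Icc] at hn ⊢
      omega
    · intro n _ hn
      unfold Lg
      rw [R.sp n hn, R.sr n hn, R.ss n hn]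
      simp
  unfold QuadL
  rw [R.l1_eq hN, R.hR_eq, R.sgR_eq, e1, e2, NS_KK d k ph h0]
  unfold RG
  rw [e3]
  have e4 : ∑ m ∈ Finset.Icc (-(N : ℤ)) N, Xg (fun _ => 0) p r s m / (m : ℝ) =
      ∑ m ∈ Finset.Icc (-(N : ℤ)) N, ‖alw p r (m - 1)‖ ^ 2 / (m : ℝ)
        + ∑ m ∈ Finset.Icc (-(N : ℤ)) N, (‖aw p r s m‖ ^ 2 + ‖bw p r s m‖ ^ 2) / (m : ℝ) := by
    rw [← Finset.sum_add_distrib]
    refine Finset.sum_congr rfl fun m _ => ?_
    unfold Xg
    rw [← add_div]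
    congr 1
    ring
  rw [e4]
  linarith

end Rest

end

end Pool.Agent.Helper61.RC.QC
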