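import Pool.Agent.Helper43.SH.ArI
import Pool.Agent.Helper61.RC.QC
import Pool.Agent.Helper87.RC.M_KRN

/-!
# Project RC, SHARP, zone I: assembly of the quadratic part (Q), the instance `PZ A B`

`rest_PZ`: the weighted rest of the sections satisfies `Rest`. `qi_lower`: (C0) for `QI A B N b z`.
-/

set_option autoImplicit false

open MeasureTheory Set Filter Topology

namespace Pool.Agent.Helper61.RC.QC

open Helper49.LT hiding sg s3
open Helper49.RC (om)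
open Helper49.Sharp
open Helper56.RC (fc)
open Helper87.RC (BM intg_of_bdd intg_of_bddC fc_add fc_sub fc_cmul fc_conj pars fc_anti fc_perpi)
open Helper95.RC (Lf BF Sup c1 c2 wc kq NF av tr tr_sup)
open Helper95.SH (br_bm mean_lin mean_Lf mean_S1 S1Q LQ Dat SN dat_SN bf_SN wm wm_sup pr qr)
open Pool.Agent.Helper20.RC (lk lk_ge lk_sq eD eM sM DensI wR)
open Pool.Agent.Helper43.SH
open Pool.Agent.Helper33.SH
open Helper41.RC

section

variable {A : ℝ} {B : ℂ} {b z : ℝ → ℂ} {N : ℕ}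

theorem wI_pi (hZ : |A| + 2 * ‖B‖ ≤ 1 / 4) (t : ℝ) : wI A B (t + Real.pi) = wI A B t :=
  (reg_PZ hZ).wgt.per t

theorem be_pi (hZ : |A| + 2 * ‖B‖ ≤ 1 / 4) (d : Dat b z) (t : ℝ) :
    beR A B N b (t + Real.pi) = beR A B N b t := by
  have h1 := (dat_SN d N).pb t
  have h2 := (dat_PI (A := A) (B := B) hZ).pb t
  show (wI A B (t + Real.pi) : ℂ) * (SN N b (t + Real.pi) - b0I A B (t + Real.pi)) =
    (wI A B t : ℂ) * (SN N b t - b0I A B t)
  rw [wI_pi hZ, h1, h2]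

theorem rh_pi (hZ : |A| + 2 * ‖B‖ ≤ 1 / 4) (d : Dat b z) (t : ℝ) :
    rhR A B N z (t + Real.pi) = -rhR A B N z t := by
  have h1 := (dat_SN d N).pz t
  have h2 := (dat_PI (A := A) (B := B) hZ).pz t
  show (wI A B (t + Real.pi) : ℂ) * (SN N z (t + Real.pi) - z0I A B (t + Real.pi)) =
    -((wI A B t : ℂ) * (SN N z t - z0I A B t))
  rw [wI_pi hZ, h1, h2]
  ring

theorem sub_sup {M : ℕ} {η : ℂ} {u v : ℤ → ℂ} (hu : Sup M u) (hv : Sup M v) :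
    Sup (M + 2) (fun n => wm η u n - wm η v n) := by
  intro n hn
  show wm η u n - wm η v n = 0
  rw [wm_sup hu n hn, wm_sup hv n hn, sub_zero]

theorem rest_PZ (hZ : |A| + 2 * ‖B‖ ≤ 1 / 4) (d : Dat b z) (hN : 10 ≤ N) :
    Rest (beR A B N b) (rhR A B N z) (N + 2) (xR A B N b) (yR A B N b) (tR A B N z) := by
  obtain ⟨C, hC⟩ := beR_bm hZ N b
  obtain ⟨D, hD⟩ := rhR_bm hZ N z
  refine ⟨⟨hC.m, C, hC.b⟩, ⟨hD.m, D, hD.b⟩, fc_beR_re hZ d.hb N, fc_beR_im hZ d.hb N, fc_rhR hZ N, ?_, ?_, ?_, ?_⟩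
  · exact sub_sup (tr_sup N _) (Helper95.SH.Sup.mono hN (ck_sup (b2L cI A B) 10 (qL_deg _ _ _ _ _)))
  · exact sub_sup (tr_sup N _) (Helper95.SH.Sup.mono hN (ck_sup (b3L cI A B) 10 (qL_deg _ _ _ _ _)))
  · exact sub_sup (tr_sup N _) (Helper95.SH.Sup.mono (by omega) (ck_sup (zL A B) 5 (zL_deg _ _)))
  · refine ⟨xR_neg hZ d.hb N, yR_neg hZ d.hb N, fun n hn => ?_, fun n hn => ?_, fun n hn => ?_⟩
    · rw [← fc_beR_re hZ d.hb N]
      exact fc_perpi (re_bm hC) (fun t => by rw [be_pi hZ d]) hn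
    · rw [← fc_beR_im hZ d.hb N]
      exact fc_perpi (im_bm hC) (fun t => by rw [be_pi hZ d]) hn
    · rw [← fc_rhR hZ N]
      exact fc_anti hD (fun t => rh_pi hZ d t) hn

/-! ### the constants of (C0), radius `1/12` -/

theorem AB12 (hA : 0 ≤ A) (hz : A + 8 / 5 * ‖B‖ ≤ 1 / 12) : 4 * (|A| * ‖B‖) ≤ 5 / 1152 := by
  have h1 := norm_nonneg B
  rw [abs_of_nonneg hA]
  nlinarith [sq_nonneg (A - 8 / 5 * ‖B‖)]

theorem hZ12 (hA : 0 ≤ A) (hz : A + 8 / 5 * ‖B‖ ≤ 1 / 12) : |A| + 2 * ‖B‖ ≤ 1 / 4 := by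
  have h1 := norm_nonneg B
  rw [abs_of_nonneg hA]
  linarith

theorem w12 (hA : 0 ≤ A) (hz : A + 8 / 5 * ‖B‖ ≤ 1 / 12) (t : ℝ) :
    |(PZ A B).w t - 1| ≤ 4 * (|A| * ‖B‖) := by
  have h1 := Pool.Agent.Helper20.RC.wR_bd (-2 * (A : ℂ) * (starRingEnd ℂ) B) 0 0 t
  rw [nt_eta, norm_zero, add_zero, add_zero] at h1
  have e : (PZ A B).w t = wR (-2 * (A : ℂ) * (starRingEnd ℂ) B) 0 0 t := rfl
  rw [e]
  refine h1.trans (le_of_eq ?_)
  ring

theorem f12 (hA : 0 ≤ A) (hz : A + 8 / 5 * ‖B‖ ≤ 1 / 12) (t : ℝ) : 21 / 25 - 4 / 5 * (1 / 144) ≤ fI A B t := by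
  have h1 := zX3 (A : ℂ) B t
  have h2 := norm_nonneg B
  rw [Complex.norm_real, Real.norm_eq_abs, abs_of_nonneg hA] at h1
  have h3 : ‖zB A B t‖ ≤ 1 / 12 := by linarith
  have h4 := norm_nonneg (zB A B t)
  unfold fI z0I
  nlinarith

/-- (C0) for the instance -/
theorem qi_lower (hA : 0 ≤ A) (hz : A + 8 / 5 * ‖B‖ ≤ 1 / 12) (d : Dat b z) (hN : 10 ≤ N) :
    RG (Pool.Agent.Helper99.RC.ps (dI A B) A Real.pi) (fun _ => 0) (287 / 400) (fun _ => 391 / 50)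
        (fun _ => 739 / 100) (WN N) (Finset.Icc (-(((N + 3 : ℕ) : ℤ) + 1)) (((N + 3 : ℕ) : ℤ) + 1))
        (xR A B N b) (yR A B N b) (tR A B N z)
      + (2 / 3 * ‖xR A B N b 2 - Complex.I * yR A B N b 2‖ ^ 2
        + 2 * (xR A B N b 0).re * e0R (PZ A B) (beR A B N b) (rhR A B N z) - 6 * (xR A B N b 0).re ^ 2
        + D2 (1 / 12) (hK (beR A B N b)) (eR (PZ A B) (beR A B N b) (rhR A B N z)) (fun _ => 0)) ≤
    QI A B N b z := by
  have hZ := hZ12 hA hz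
  have hx := AB12 hA hz
  have hx0 : 0 ≤ 4 * (|A| * ‖B‖) := by positivity
  have hw := w12 hA hz
  have hm : (PZ A B).m - (PZ A B).lam = 217 / 250 - 4 * (|A| * ‖B‖) := by
    rw [m_PZ]
    show 1 - 4 * (|A| * ‖B‖) - 33 / 250 = _
    ring
  have hcs : (PZ A B).cs = 11 / 40 := rfl
  refine (rest_PZ hZ d hN).quad_lower (P := PZ A B) (f := fI A B) (p2 := 1) (p3 := 3 / 2) (F0 := 287 / 400)
    (E2 := 391 / 50) (E3 := 739 / 100) (reg_PZ hZ) (fI_br hZ) ?_ ?_ ?_ (N := N + 3) (by omega) (dI A B) A Real.pi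
  · intro t
    rw [hm, hcs]
    have := (abs_le.1 (hw t)).2
    linarith
  · intro t
    rw [hm, hcs]
    have := (abs_le.1 (hw t)).2
    linarith
  · intro t
    rw [hm]
    have h1 := (abs_le.1 (hw t)).2
    have h2 := f12 hA hz t
    nlinarith

end

end Pool.Agent.Helper61.RC.QC
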