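import Pool.Agent.Helper41.RC.M_R02S

/-!
# Project RC, SHARP, zone I: (Q), (C1) and the total charge form

`d2_charge`: (D2) of the rest from (C2), (C3) and helper41's (C4). `qi_form`: `QI` from below by the form `RG` and one
frequency-local form.
-/

set_option autoImplicit false

open MeasureTheory Set Filter Topology

namespace Pool.Agent.Helper61.RC.QC

open Helper49.LT hiding sg s3
open Helper49.RC (om)
open Helper49.Sharp
open Helper56.RC (fc)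
open Helper87.RC (BM)
open Helper95.RC (BF Sup)
open Helper95.SH (eM_summable Dat)
open Pool.Agent.Helper20.RC (lk lk_ge lk_sq eD eM)
open Pool.Agent.Helper17.RC (qr young)
open Pool.Agent.Helper43.SH
open Pool.Agent.Helper33.SH
open Helper41.RC
open Helper41.RC.R02 (wb c4b c5b)

section

variable {P : Helper49.Sharp.Par} {β β' ρ ρ' : ℝ → ℂ} {C C' D D' : ℝ}

theorem eR_add (hr : P.Reg) (h : BM β C) (h' : BM β' C') (k : BM ρ D) (k' : BM ρ' D') (n : ℕ) :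
    eR P (fun t => β t + β' t) (fun t => ρ t + ρ' t) n = eR P β ρ n + eR P β' ρ' n := by
  obtain ⟨E1, b1⟩ := f1R_BM h k
  obtain ⟨E2, b2⟩ := f2R_BM h k
  obtain ⟨E3, c1⟩ := f1R_BM h' k'
  obtain ⟨E4, c2⟩ := f2R_BM h' k'
  unfold Pool.Agent.Helper43.SH.eR
  rw [← eM_add b1 b2 c1 c2 hr.mph1 hr.mph2]
  have e1 : f1R (fun t => β t + β' t) (fun t => ρ t + ρ' t) = fun t => f1R β ρ t + f1R β' ρ' t := by
    funext θ
    unfold f1R g1L
    rw [Complex.add_re, Complex.add_im]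
    push_cast
    ring
  have e2 : f2R (fun t => β t + β' t) (fun t => ρ t + ρ' t) = fun t => f2R β ρ t + f2R β' ρ' t := by
    funext θ
    unfold f2R g2L
    rw [Complex.add_re, Complex.add_im]
    push_cast
    ring
  rw [e1, e2]

theorem eR_sum (hr : P.Reg) (h : BM β C) (k : BM ρ D) :
    Summable fun n => ‖eR P β ρ n‖ ^ 2 / (lk n ^ 2 - 1) := by
  obtain ⟨E1, b1⟩ := f1R_BM h k
  obtain ⟨E2, b2⟩ := f2R_BM h k
  exact eM_summable b1 b2 hr.mph1 hr.mph2 hr.dph1 hr.dph2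

theorem h2F_bm (β : ℝ → ℂ) : ∃ C, BM (h2F β) C := by
  set u := fc (fun x => ((β x).re : ℂ)) 2 with hu
  set v := fc (fun x => ((β x).im : ℂ)) 2 with hv
  have m0 : Measurable fun t : ℝ => ee (2 * t) := continuous_ee.measurable.comp (measurable_id.const_mul 2)
  have m1 : Measurable fun t : ℝ => (((2 * (u * ee (2 * t)).re : ℝ)) : ℂ) :=
    Complex.measurable_ofReal.comp ((Complex.measurable_re.comp (m0.const_mul u)).const_mul 2)
  have m2 : Measurable fun t : ℝ => (((2 * (v * ee (2 * t)).re : ℝ)) : ℂ) :=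
    Complex.measurable_ofReal.comp ((Complex.measurable_re.comp (m0.const_mul v)).const_mul 2)
  refine ⟨2 * ‖u‖ + 2 * ‖v‖, m1.add (m2.const_mul _), fun t => ?_⟩
  have key : ∀ w : ℂ, ‖(((2 * (w * ee (2 * t)).re : ℝ)) : ℂ)‖ ≤ 2 * ‖w‖ := by
    intro w
    rw [Complex.norm_real, Real.norm_eq_abs, abs_mul, abs_of_pos (by norm_num : (0 : ℝ) < 2)]
    have := Complex.abs_re_le_norm (w * ee (2 * t))
    rw [norm_mul, norm_ee, mul_one] at this
    linarith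
  unfold h2F
  refine (norm_add_le _ _).trans (add_le_add (key u) ?_)
  rw [norm_mul, Complex.norm_I, one_mul]
  exact key v

/-- the harmonics `± 2` are split off -/
theorem rows_split (hr : P.Reg) (h : BM β C) (k : BM ρ D) :
    ∑' n : ℕ, ‖eR P β ρ (n + 1)‖ ^ 2 / (lk (n + 1) ^ 2 - 1) ≤
      (1 + (thQ : ℝ)) * ∑' n : ℕ, ‖eR P (o2F β) ρ (n + 1)‖ ^ 2 / (lk (n + 1) ^ 2 - 1)
      + (1 + 1 / (thQ : ℝ)) * ∑' n : ℕ, ‖eR P (h2F β) (fun _ => 0) (n + 1)‖ ^ 2 / (lk (n + 1) ^ 2 - 1) := by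
  obtain ⟨C2, h2⟩ := h2F_bm β
  have h1 : BM (o2F β) (C + C2) := h.sub h2
  have k0 : BM (fun _ : ℝ => (0 : ℂ)) 0 := ⟨measurable_const, fun _ => by simp⟩
  have s1 := (summable_nat_add_iff 1).2 (eR_sum hr h k)
  have s2 := (summable_nat_add_iff 1).2 (eR_sum hr h1 k)
  have s3 := (summable_nat_add_iff 1).2 (eR_sum hr h2 k0)
  rw [← tsum_mul_left, ← tsum_mul_left, ← (s2.mul_left (1 + (thQ : ℝ))).tsum_add (s3.mul_left (1 + 1 / (thQ : ℝ)))]
  refine s1.tsum_le_tsum (fun n => ?_) ((s2.mul_left _).add (s3.mul_left _))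
  have e1 := eR_add hr h1 h2 k k0 (n + 1)
  have e2 : (fun t => o2F β t + h2F β t) = β := by
    funext t
    unfold o2F
    ring
  have e3 : (fun t => ρ t + (0 : ℂ)) = ρ := by funext t; ring
  rw [e2, e3] at e1
  have hd := lk_sq (n + 1)
  rw [← mul_div_assoc, ← mul_div_assoc, ← add_div]
  refine div_le_div_of_nonneg_right ?_ hd.le
  rw [e1]
  exact young _ _ (c := (thQ : ℝ)) (by unfold thQ; norm_num)

end

/-! ### (C1) -/

noncomputable def tC (k : ℕ) : ℝ := if k = 0 then 1 / 5 else 5 / 8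
noncomputable def xC (k : ℕ) : ℝ := if k = 0 then 7 / 2 else 0
noncomputable def yC (k : ℕ) : ℝ := if k = 0 then -(37 / 8) else 0

/-- the kept rows -/
noncomputable def KC (M : ℕ) (p r : ℤ → ℂ) : ℝ := KF (1 / 12) tC xC yC M p r

/-- (C4) form -/
noncomputable def F4 (M : ℕ) (p r s : ℤ → ℂ) : ℝ :=
  FL (fun n => wb n + 1 / 9000) (fun _ => 0) (fun _ => 1 / 750) (fun _ => 1 / 750) (fun _ => 0) M p r s
/-- (C5) form -/
noncomputable def F5 (M : ℕ) (p r s : ℤ → ℂ) : ℝ :=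
  FL (fun _ => 1 / 25000) (fun _ => 0) (fun _ => 1 / 1000) (fun _ => 1 / 1000) (fun _ => 0) M p r s

section

variable {A : ℝ} {B : ℂ} {β ρ : ℝ → ℂ} {M : ℕ} {p r s : ℤ → ℂ}

/-- (D2) FROM (C2), (C3), `c4b` -/
theorem d2_charge (h2 : StC2) (h3 : StC3c (c3Q : ℝ)) (hA : 0 ≤ A) (hz : A + 8 / 5 * ‖B‖ ≤ 1 / 12)
    (R : RestC β ρ M p r s) :
    -KC M p r - F4 M p r s - (wQ : ℝ) * FL z2 s2 p2 r2 x2 M p r s - (hQ : ℝ) * (‖p 2‖ ^ 2 + ‖r 2‖ ^ 2) ≤
      D2 (1 / 12) (hK β) (eR (PZ A B) β ρ) (fun _ => 0) := by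
  have hr := reg_PZ (hZ12 hA hz)
  obtain ⟨C, hC⟩ := R.toRest.bmb
  obtain ⟨D, hD⟩ := R.toRest.bmz
  set e := eR (PZ A B) β ρ with he
  have se : Summable fun k => ‖e k‖ ^ 2 / (lk k ^ 2 - 1) := eR_sum hr hC hD
  have hN : ∀ k : ℕ, NK xC yC p r (k + 1) = 0 := by
    intro k
    unfold NK xC yC
    rw [if_neg (by omega), if_neg (by omega)]
    push_cast
    ring
  have hN0 : NK xC yC p r 0 = 7 / 2 * p 2 - 37 / 8 * Complex.I * r 2 := by
    unfold NK xC yC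
    rw [if_pos rfl, if_pos rfl]
    push_cast
    ring
  have hterm : ∀ k : ℕ, (1 + 1 / tC (k + 1)) * (‖e (k + 1) - NK xC yC p r (k + 1)‖ ^ 2 / (lk (k + 1) ^ 2 - 1)) =
      13 / 5 * (‖e (k + 1)‖ ^ 2 / (lk (k + 1) ^ 2 - 1)) := by
    intro k
    rw [hN, sub_zero]
    unfold tC
    rw [if_neg (by omega)]
    norm_num
  have s1 : Summable fun k : ℕ => 13 / 5 * (‖e (k + 1)‖ ^ 2 / (lk (k + 1) ^ 2 - 1)) :=
    ((summable_nat_add_iff 1).2 se).mul_left _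
  have sx : Summable fun k => (1 + 1 / tC k) * (‖e k - NK xC yC p r k‖ ^ 2 / (lk k ^ 2 - 1)) := by
    rw [← summable_nat_add_iff 1]
    exact s1.congr fun k => (hterm k).symm
  have h := R.toRest.d2_lower (ν := 1 / 12) (by norm_num) e tC xC yC (fun k => by
    unfold tC; split_ifs <;> norm_num) sx
  rw [sx.tsum_eq_zero_add] at h
  simp_rw [hterm] at h
  rw [tsum_mul_left, hN0] at h
  have a2 := h2 A B β ρ M p r s hA hz R
  have a3 := h3 A B β ρ M p r s hA hz R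
  have a4 := c4b hA hz R
  have a5 := rows_split hr hC hD
  have e0 : lk 0 ^ 2 - 1 = 3 := by unfold lk; norm_num
  have e1 : 1 + 1 / tC 0 = 6 := by unfold tC; rw [if_pos rfl]; norm_num
  rw [e0, e1] at h
  unfold KC F4
  rw [← he] at a4 a5
  have t0 : (0 : ℝ) < (thQ : ℝ) := by unfold thQ; norm_num
  have t1 : (0 : ℝ) ≤ 1 + 1 / (thQ : ℝ) := by positivity
  have m2 := mul_le_mul_of_nonneg_left a2 (by linarith : (0 : ℝ) ≤ 1 + (thQ : ℝ))
  have m3 := mul_le_mul_of_nonneg_left a3 t1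
  have w : (wQ : ℝ) = 13 / 120 * (1 + (thQ : ℝ)) := by unfold wQ; push_cast; ring
  have w' : (hQ : ℝ) = 13 / 60 * (1 + 1 / (thQ : ℝ)) * (c3Q : ℝ) := by unfold hQ; push_cast; ring
  rw [w, w']
  nlinarith [h, m2, m3, a4, a5]

/-- the total charge form -/
noncomputable def QE (M : ℕ) (p r s : ℤ → ℂ) : ℝ :=
  2 / 3 * ‖p 2 - Complex.I * r 2‖ ^ 2 - 44 / 5 * ‖p 0‖ ^ 2 - (hQ : ℝ) * (‖p 2‖ ^ 2 + ‖r 2‖ ^ 2)
    - (1 / 65 * ‖s 3‖ ^ 2 + 1 / 6 * (‖s (-3)‖ ^ 2 + ‖s (-5)‖ ^ 2))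
    - KC M p r - F4 M p r s - F5 M p r s - (wQ : ℝ) * FL z2 s2 p2 r2 x2 M p r s

end

/-- **`QI` FROM BELOW** -/
theorem qi_form (h2 : StC2) (h3 : StC3c (c3Q : ℝ)) {A : ℝ} {B : ℂ} {b z : ℝ → ℂ} {N : ℕ} (hA : 0 ≤ A)
    (hz : A + 8 / 5 * ‖B‖ ≤ 1 / 12) (d : Dat b z) (hN : 10 ≤ N)
    (R : RestC (beR A B N b) (rhR A B N z) (N + 2) (xR A B N b) (yR A B N b) (tR A B N z)) :
    RG (Pool.Agent.Helper99.RC.ps (dI A B) A Real.pi) (fun _ => 0) (287 / 400) (fun _ => 391 / 50)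
        (fun _ => 739 / 100) (WN N) (Finset.Icc (-(((N + 3 : ℕ) : ℤ) + 1)) (((N + 3 : ℕ) : ℤ) + 1))
        (xR A B N b) (yR A B N b) (tR A B N z)
      + QE (N + 2) (xR A B N b) (yR A B N b) (tR A B N z) ≤ QI A B N b z := by
  have c0 := qi_lower hA hz d hN
  have c1 := d2_charge h2 h3 hA hz R
  have c5 := c5b hA hz R
  have e0 : ‖xR A B N b 0‖ ^ 2 = (xR A B N b 0).re ^ 2 := by
    have h := R.toRest.p0_re
    have h1 : ‖(((xR A B N b 0).re : ℝ) : ℂ)‖ = ‖xR A B N b 0‖ := by rw [h]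
    rw [← h1, Complex.norm_real, Real.norm_eq_abs, sq_abs]
  unfold QE F5
  rw [e0] at c5 ⊢
  linarith [c0, c1, c5]

end Pool.Agent.Helper61.RC.QC
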