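import Pool.Agent.Helper61.RC.QMet

/-!
# Project RC, SHARP, zone I: (Q), the final inequality

`hq_of`: `MetS M12 ≤ QI` for all sections, from (C2), (C3), the rest of the section at `(dI A B, A)` (helper46) and
`RestC`.
-/

set_option autoImplicit false

open MeasureTheory Set Filter Topology

namespace Pool.Agent.Helper61.RC.QC

open Helper49.LT hiding sg s3
open Helper49.Sharp
open Helper56.RC (fc)
open Helper95.RC (Sup)
open Helper95.SH (Dat)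
open Pool.Agent.Helper43.SH
open Pool.Agent.Helper33.SH (dI)
open Pool.Agent.Helper27.SH
open Helper41.RC

/-- THE SECTION OF THE ZONE [helper46: `zone_rest`] -/
def StZR : Prop := ∀ (A : ℝ) (B : ℂ) (N : ℕ), 0 ≤ A → A + 8 / 5 * ‖B‖ ≤ 1 / 12 → 48 ≤ N →
  RestG (dI A B) A Real.pi (fun _ => 0) (fQ : ℝ) (e2T 47) (e3T 47) (ES 47 (N + 1)) (fun n => (gsM n : ℝ))
    (fun n => (gpM n : ℝ)) (fun n => (grM n : ℝ)) N

/-- the metric M12 of helper27 -/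
def M12 (tz tp tr : ℕ) : MT :=
  ⟨⟨100, tz, [(9, 20), (-9, 20), (11, 20), (-11, 20), (3, 150), (5, 250)]⟩, ⟨200, tp, [(0, 100), (2, 30)]⟩,
    ⟨300, tr, [(0, 500), (2, 30), (4, 100), (6, 200), (8, 200), (10, 1000)]⟩⟩

theorem pen_le {A : ℝ} {B : ℂ} {z : ℝ → ℂ} {N : ℕ} (hA : 0 ≤ A) (hz : A + 8 / 5 * ‖B‖ ≤ 1 / 12)
    (f3 : fc z (-3) = (A : ℂ)) (f5 : fc z (-5) = B) (hN : 10 ≤ N) :
    10 * (‖tR A B N z (-3)‖ ^ 2 + ‖tR A B N z (-5)‖ ^ 2) ≤ 1 / 8000 * mean fun t => ‖rhR A B N z t‖ ^ 2 := by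
  have hZ := hZ12 hA hz
  have h3 := tR3_le hZ f3 f5 hN
  have h5 := tR5_le hZ f3 f5 hN
  have hm : 0 ≤ mean fun t => ‖rhR A B N z t‖ ^ 2 := by
    have := sum_tR hZ N z ∅
    simpa using this
  set m := mean fun t => ‖rhR A B N z t‖ ^ 2 with hm0
  have hx := AB12 hA hz
  set q := |A| * ‖B‖ with hq
  have hq0 : 0 ≤ q := by positivity
  have hs := Real.sq_sqrt hm
  have hs0 := Real.sqrt_nonneg m
  have hc : 0 ≤ 11 / 5 * q * Real.sqrt m := by positivity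
  have k3 : ‖tR A B N z (-3)‖ ^ 2 ≤ (11 / 5 * q) ^ 2 * m := by
    have := pow_le_pow_left₀ (norm_nonneg _) h3 2
    rwa [mul_pow, hs] at this
  have k5 : ‖tR A B N z (-5)‖ ^ 2 ≤ (11 / 5 * q) ^ 2 * m := by
    have := pow_le_pow_left₀ (norm_nonneg _) h5 2
    rwa [mul_pow, hs] at this
  have k6 : (11 / 5 * q) ^ 2 ≤ 1 / 160000 := by nlinarith
  have k7 := mul_le_mul_of_nonneg_right k6 hm
  linarith

/-- **(Q) OF ZONE I** from (C2), (C3), the section of the zone and `RestC` -/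
theorem hq_of (h2 : StC2) (h3 : StC3c (c3Q : ℝ)) (hZR : StZR) {A : ℝ} {B : ℂ} {b z : ℝ → ℂ} {N : ℕ} (hA : 0 ≤ A)
    (hz : A + 8 / 5 * ‖B‖ ≤ 1 / 12) (d : Dat b z) (f3 : fc z (-3) = (A : ℂ)) (f5 : fc z (-5) = B) (hN : 45 ≤ N)
    (R : RestC (beR A B N b) (rhR A B N z) (N + 2) (xR A B N b) (yR A B N b) (tR A B N z)) (tz tp tr : ℕ) :
    MetS (M12 tz tp tr) (tR A B N z) (xR A B N b) (yR A B N b) (mean fun t => ‖rhR A B N z t‖ ^ 2)
        (mean fun t => (beR A B N b t).re ^ 2) (mean fun t => (beR A B N b t).im ^ 2) ≤ QI A B N b z := by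
  have a1 := qi_form h2 h3 hA hz d (by omega) R
  have a2 := rg_qe (ψ := Pool.Agent.Helper99.RC.ps (dI A B) A Real.pi) (S := WN N) (K := 47) (M := N + 2)
    (W := N + 3 + 1) R.par R.sp R.sr R.ss (by omega) (by omega)
  have a3 := hZR A B (N + 3) hA hz (by omega) _ _ _ R.par
  have a4 := pen_le hA hz f3 f5 (by omega : 10 ≤ N)
  have a5 := R.toRest.metS (tz := tz) (tp := tp) (tr := tr) (by omega)
  have eW : (((N + 3 + 1 : ℕ) : ℤ)) = ((N + 3 : ℕ) : ℤ) + 1 := by push_cast; ring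
  have eM : WN N = Finset.Icc (-((N + 3 : ℕ) : ℤ)) ((N + 3 : ℕ) : ℤ) := rfl
  have e1 : MG (fun n => ((gsM n : ℚ) : ℝ)) (fun n => ((gpM n : ℚ) : ℝ)) (fun n => ((grM n : ℚ) : ℝ))
        (Finset.Icc (-(((N + 3 : ℕ) : ℤ) + 1)) (((N + 3 : ℕ) : ℤ) + 1)) (xR A B N b) (yR A B N b) (tR A B N z) =
      MG (fun n => ((gsM n : ℚ) : ℝ) - 1 / 8000) (fun n => ((gpM n : ℚ) : ℝ)) (fun n => ((grM n : ℚ) : ℝ))
        (Finset.Icc (-((N + 2 : ℕ) : ℤ)) ((N + 2 : ℕ) : ℤ)) (xR A B N b) (yR A B N b) (tR A B N z)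
      + 1 / 8000 * mean fun t => ‖rhR A B N z t‖ ^ 2 := by
    rw [R.toRest.s2]
    unfold MG
    rw [← eW, sum_win (M := N + 2) (by omega) (fun n hn => by
      rw [R.sp n hn, R.sr n hn, R.ss n hn]; simp), Finset.mul_sum, ← Finset.sum_add_distrib]
    refine Finset.sum_congr rfl fun n _ => ?_
    ring
  rw [eW] at a2
  rw [eM] at a1 a2
  unfold M12
  rw [a5]
  rw [e1] at a3
  linarith

end Pool.Agent.Helper61.RC.QC
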