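import Pool.Agent.Helper61.RC.QC9
import Pool.Agent.Helper61.RC.QZR
import Pool.Agent.Helper72.SH.Heads

/-!
# Project RC, SHARP, zone I: (Q), complete
-/

set_option autoImplicit false

namespace Pool.Agent.Helper61.RC.QC

open Helper49.Sharp (mean)
open Helper56.RC (fc)
open Helper95.SH (Dat)
open Pool.Agent.Helper43.SH
open Pool.Agent.Helper27.SH (MetS)

/-- the sections of the zone -/
theorem stZR : StZR := stZR_of Pool.Agent.Helper72.SH.heads

/-- **(Q) OF ZONE I** -/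
theorem hqX {A : ℝ} {B : ℂ} {b z : ℝ → ℂ} {N : ℕ} (hA : 0 ≤ A)
    (hz : A + 8 / 5 * ‖B‖ ≤ 1 / 12) (d : Dat b z) (f3 : fc z (-3) = (A : ℂ)) (f5 : fc z (-5) = B) (hN : 45 ≤ N)
    (tz tp tr : ℕ) :
    MetS (M12 tz tp tr) (tR A B N z) (xR A B N b) (yR A B N b) (mean fun t => ‖rhR A B N z t‖ ^ 2)
        (mean fun t => (beR A B N b t).re ^ 2) (mean fun t => (beR A B N b t).im ^ 2) ≤ QI A B N b z :=
  hqY stZR hA hz d f3 f5 hN tz tp tr

end Pool.Agent.Helper61.RC.QC
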