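import Pool.Agent.Helper61.RC.QC5
import Pool.Agent.Helper27.SH.Fin

/-!
# Project RC, SHARP, zone I: (Q), the metric M12 in the arrays
-/

set_option autoImplicit false

open MeasureTheory Set Filter Topology

namespace Pool.Agent.Helper61.RC.QC

open Helper49.LT hiding sg s3
open Helper49.Sharp
open Helper56.RC (fc)
open Helper87.RC (BM pars)
open Helper95.RC (Sup)
open Pool.Agent.Helper43.SH
open Pool.Agent.Helper27.SH
open Helper41.RC

theorem pt1 {M : ℕ} {a : ℤ} (ha : a ∈ Finset.Icc (-(M : ℤ)) M) (c : ℝ) (F : ℤ → ℝ) :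
    ∑ n ∈ Finset.Icc (-(M : ℤ)) M, (if n = a then c else 0) * F n = c * F a := by
  simp only [ite_mul, zero_mul, Finset.sum_ite_eq', if_pos ha]

theorem gs_pts (n : ℤ) : ((gsM n : ℚ) : ℝ) - 1 / 8000 = 1 / 10 + (if n = 9 then -(2 / 25) else 0)
    + (if n = -9 then -(2 / 25) else 0) + (if n = 11 then -(2 / 25) else 0) + (if n = -11 then -(2 / 25) else 0)
    + (if n = 3 then 1 / 20 else 0) + (if n = 5 then 3 / 20 else 0) := by
  unfold gsM
  by_cases h1 : n = 9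
  · subst h1; norm_num
  by_cases h2 : n = -9
  · subst h2; norm_num
  by_cases h3 : n = 11
  · subst h3; norm_num
  by_cases h4 : n = -11
  · subst h4; norm_num
  by_cases h5 : n = 3
  · subst h5; norm_num
  by_cases h6 : n = 5
  · subst h6; norm_num
  have h7 : ¬ (n = 9 ∨ n = -9 ∨ n = 11 ∨ n = -11) := by tauto
  rw [if_neg h7, if_neg h5, if_neg h6, if_neg h1, if_neg h2, if_neg h3, if_neg h4, if_neg h5, if_neg h6]
  norm_num

theorem gp_pts (n : ℤ) : ((gpM n : ℚ) : ℝ) = 1 / 5 + (if n = 0 then -(1 / 10) else 0)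
    + (if n = 2 then -(17 / 100) else 0) + (if n = -2 then -(17 / 100) else 0) := by
  unfold gpM
  by_cases h1 : n = 0
  · subst h1; norm_num
  by_cases h2 : n = 2
  · subst h2; norm_num
  by_cases h3 : n = -2
  · subst h3; norm_num
  have h7 : ¬ (n = 2 ∨ n = -2) := by tauto
  rw [if_neg h1, if_neg h7, if_neg h1, if_neg h2, if_neg h3]
  norm_num

theorem gr_pts (n : ℤ) : ((grM n : ℚ) : ℝ) = 3 / 10 + (if n = 0 then 1 / 5 else 0)
    + (if n = 2 then -(27 / 100) else 0) + (if n = -2 then -(27 / 100) else 0)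
    + (if n = 4 then -(1 / 5) else 0) + (if n = -4 then -(1 / 5) else 0)
    + (if n = 6 then -(1 / 10) else 0) + (if n = -6 then -(1 / 10) else 0)
    + (if n = 8 then -(1 / 10) else 0) + (if n = -8 then -(1 / 10) else 0)
    + (if n = 10 then 7 / 10 else 0) + (if n = -10 then 7 / 10 else 0) := by
  unfold grM
  by_cases h0 : n = 0
  · subst h0; norm_num
  by_cases h1 : n = 2
  · subst h1; norm_num
  by_cases h2 : n = -2
  · subst h2; norm_num
  by_cases h3 : n = 4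
  · subst h3; norm_num
  by_cases h4 : n = -4
  · subst h4; norm_num
  by_cases h5 : n = 6
  · subst h5; norm_num
  by_cases h6 : n = -6
  · subst h6; norm_num
  by_cases h7 : n = 8
  · subst h7; norm_num
  by_cases h8 : n = -8
  · subst h8; norm_num
  by_cases h9 : n = 10
  · subst h9; norm_num
  by_cases h10 : n = -10
  · subst h10; norm_num
  have a1 : ¬ (n = 2 ∨ n = -2) := by tauto
  have a2 : ¬ (n = 4 ∨ n = -4) := by tauto
  have a3 : ¬ (n = 6 ∨ n = -6 ∨ n = 8 ∨ n = -8) := by tauto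
  have a4 : ¬ (n = 10 ∨ n = -10) := by tauto
  simp only [if_neg h0, if_neg h1, if_neg h2, if_neg h3, if_neg h4, if_neg h5, if_neg h6, if_neg h7, if_neg h8,
    if_neg h9, if_neg h10, if_neg a1, if_neg a2, if_neg a3, if_neg a4]
  norm_num

theorem memI {M : ℕ} (hM : 11 ≤ M) {a : ℤ} (ha : |a| ≤ 11) : a ∈ Finset.Icc (-(M : ℤ)) M := by
  have := abs_le.1 ha
  rw [Finset.mem_Icc]
  omega

/-- M12, `z` -/
theorem metF_z {t : ℕ} {s : ℤ → ℂ} {M : ℕ} (hM : 11 ≤ M) :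
    MetF false ⟨100, t, [(9, 20), (-9, 20), (11, 20), (-11, 20), (3, 150), (5, 250)]⟩ s
      (∑ n ∈ Finset.Icc (-(M : ℤ)) M, ‖s n‖ ^ 2) =
    ∑ n ∈ Finset.Icc (-(M : ℤ)) M, (((gsM n : ℚ) : ℝ) - 1 / 8000) * ‖s n‖ ^ 2 := by
  simp_rw [gs_pts, add_mul, Finset.sum_add_distrib]
  rw [pt1 (memI hM (by norm_num)), pt1 (memI hM (by norm_num)), pt1 (memI hM (by norm_num)),
    pt1 (memI hM (by norm_num)), pt1 (memI hM (by norm_num)), pt1 (memI hM (by norm_num)), ← Finset.mul_sum]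
  unfold MetF mu
  simp only [List.map_cons, List.map_nil, List.sum_cons, List.sum_nil]
  norm_num
  ring

/-- M12, `re β` -/
theorem metF_p {t : ℕ} {p : ℤ → ℂ} (hc : ∀ n, p (-n) = (starRingEnd ℂ) (p n)) {M : ℕ} (hM : 11 ≤ M) :
    MetF true ⟨200, t, [(0, 100), (2, 30)]⟩ p (∑ n ∈ Finset.Icc (-(M : ℤ)) M, ‖p n‖ ^ 2) =
    ∑ n ∈ Finset.Icc (-(M : ℤ)) M, ((gpM n : ℚ) : ℝ) * ‖p n‖ ^ 2 := by
  simp_rw [gp_pts, add_mul, Finset.sum_add_distrib]
  rw [pt1 (memI hM (by norm_num)), pt1 (memI hM (by norm_num)), pt1 (memI hM (by norm_num)), ← Finset.mul_sum]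
  have h2 : ‖p (-2)‖ = ‖p 2‖ := by rw [hc, Complex.norm_conj]
  rw [h2]
  unfold MetF mu
  simp only [List.map_cons, List.map_nil, List.sum_cons, List.sum_nil]
  norm_num
  ring

/-- M12, `im β` -/
theorem metF_r {t : ℕ} {r : ℤ → ℂ} (hc : ∀ n, r (-n) = (starRingEnd ℂ) (r n)) {M : ℕ} (hM : 11 ≤ M) :
    MetF true ⟨300, t, [(0, 500), (2, 30), (4, 100), (6, 200), (8, 200), (10, 1000)]⟩ r
      (∑ n ∈ Finset.Icc (-(M : ℤ)) M, ‖r n‖ ^ 2) =
    ∑ n ∈ Finset.Icc (-(M : ℤ)) M, ((grM n : ℚ) : ℝ) * ‖r n‖ ^ 2 := by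
  simp_rw [gr_pts, add_mul, Finset.sum_add_distrib]
  rw [pt1 (memI hM (by norm_num)), pt1 (memI hM (by norm_num)), pt1 (memI hM (by norm_num)),
    pt1 (memI hM (by norm_num)), pt1 (memI hM (by norm_num)), pt1 (memI hM (by norm_num)),
    pt1 (memI hM (by norm_num)), pt1 (memI hM (by norm_num)), pt1 (memI hM (by norm_num)),
    pt1 (memI hM (by norm_num)), pt1 (memI hM (by norm_num)), ← Finset.mul_sum]
  have e : ∀ a : ℤ, ‖r (-a)‖ = ‖r a‖ := fun a => by rw [hc, Complex.norm_conj]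
  rw [e 2, e 4, e 6, e 8, e 10]
  unfold MetF mu
  simp only [List.map_cons, List.map_nil, List.sum_cons, List.sum_nil]
  norm_num
  ring

section

variable {β ρ : ℝ → ℂ} {M : ℕ} {p r s : ℤ → ℂ}

theorem Rest.s2 (R : Rest β ρ M p r s) : mean (fun t => ‖ρ t‖ ^ 2) = ∑ n ∈ Finset.Icc (-(M : ℤ)) M, ‖s n‖ ^ 2 := by
  obtain ⟨D, hD⟩ := R.bmz
  have h1 := pars hD
  rw [R.hs] at h1
  have h2 : HasSum (fun n : ℤ => ‖s n‖ ^ 2) (∑ n ∈ Finset.Icc (-(M : ℤ)) M, ‖s n‖ ^ 2) := by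
    refine hasSum_sum_of_ne_finset_zero fun n hn => ?_
    rw [R.ss n hn, norm_zero]
    norm_num
  exact h1.unique h2

/-- **M12 OF THE REST** -/
theorem Rest.metS {tz tp tr : ℕ} (R : Rest β ρ M p r s) (hM : 11 ≤ M) :
    MetS ⟨⟨100, tz, [(9, 20), (-9, 20), (11, 20), (-11, 20), (3, 150), (5, 250)]⟩, ⟨200, tp, [(0, 100), (2, 30)]⟩,
        ⟨300, tr, [(0, 500), (2, 30), (4, 100), (6, 200), (8, 200), (10, 1000)]⟩⟩ s p r
        (mean fun t => ‖ρ t‖ ^ 2) (mean fun t => (β t).re ^ 2) (mean fun t => (β t).im ^ 2) =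
      MG (fun n => ((gsM n : ℚ) : ℝ) - 1 / 8000) (fun n => ((gpM n : ℚ) : ℝ)) (fun n => ((grM n : ℚ) : ℝ))
        (Finset.Icc (-(M : ℤ)) M) p r s := by
  rw [R.s2, R.re2, R.im2]
  unfold MetS MG
  simp only
  rw [metF_z hM, metF_p R.par.pc hM, metF_r R.par.rc hM]
  simp only [Finset.sum_add_distrib]

end

end Pool.Agent.Helper61.RC.QC
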